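import Pool.Agent.X114.PD.Erg3

/-! The correspondence principle: from a set of integers to an invariant measure on the shift. -/

set_option autoImplicit false

namespace Pool.Agent.X114.PD

open MeasureTheory Filter Topology Finset

/-- the shift on two-sided sequences -/
def sh (k : ℤ) (x : ℤ → Bool) : ℤ → Bool := fun n => x (n + k)

theorem sh_continuous (k : ℤ) : Continuous (sh k) :=
  continuous_pi fun n => continuous_apply (n + k)

theorem sh_add (k l : ℤ) (x : ℤ → Bool) : sh (k + l) x = sh k (sh l x) := by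
  funext n; unfold sh; congr 1; ring

theorem sh_zero (x : ℤ → Bool) : sh 0 x = x := by
  funext n; unfold sh; simp

theorem sh_iterate (i : ℕ) (x : ℤ → Bool) : (sh 1)^[i] x = sh i x := by
  induction i with
  | zero => simp [sh_zero]
  | succ i ih =>
    rw [Function.iterate_succ_apply', ih, ← sh_add]
    congr 1; push_cast; ring

/-- limits of empirical measures -/
theorem kb {X : Type} [MetricSpace X] [CompactSpace X] [MeasurableSpace X] [BorelSpace X]
    (f : X → X) (hf : Continuous f) (y : X) (U : Ultrafilter ℕ) (hUtop : (U : Filter ℕ) ≤ atTop) :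
    ∃ μ : Measure X, IsProbabilityMeasure μ ∧ μ.map f = μ ∧ ∀ C : Set X, IsClopen C →
      Tendsto (fun n : ℕ => ((n : ℝ) + 1)⁻¹ *
        ∑ i ∈ Finset.range (n + 1), C.indicator (fun _ => (1 : ℝ)) (f^[i] y)) U (𝓝 (μ.real C)) := by
  classical
  set mm : ℕ → Measure X := fun n =>
    ((n : ENNReal) + 1)⁻¹ • ∑ i ∈ Finset.range (n + 1), Measure.dirac (f^[i] y) with hmm
  have hmp : ∀ n, IsProbabilityMeasure (mm n) := by
    intro n
    refine ⟨?_⟩
    rw [hmm]
    simp only [Measure.smul_apply, Measure.coe_finsetSum, Finset.sum_apply, smul_eq_mul,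
      measure_univ, Finset.sum_const, Finset.card_range, nsmul_eq_mul, mul_one]
    push_cast
    exact ENNReal.inv_mul_cancel (by simp) (by simp)
  set mun : ℕ → ProbabilityMeasure X := fun n => ⟨mm n, hmp n⟩ with hmun
  have hint : ∀ (n : ℕ) (g : X → ℝ), Continuous g →
      ∫ x, g x ∂((mun n : ProbabilityMeasure X) : Measure X) =
      ((n : ℝ) + 1)⁻¹ * ∑ i ∈ Finset.range (n + 1), g (f^[i] y) := by
    intro n g hg
    show ∫ x, g x ∂(mm n) = _
    rw [hmm]
    simp only
    rw [integral_smul_measure, integral_finsetSum_measure]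
    · simp only [integral_dirac, smul_eq_mul]
      congr 1
      rw [ENNReal.toReal_inv]
      congr 1
    · intro i _
      exact integrable_dirac (by simp)
  obtain ⟨mu', hmu'⟩ : ∃ mu' : ProbabilityMeasure X, Tendsto mun U (𝓝 mu') :=
    ⟨_, (U.map mun).le_nhds_lim⟩
  rw [ProbabilityMeasure.tendsto_iff_forall_integral_tendsto] at hmu'
  have lim : ∀ g : X → ℝ, Continuous g →
      Tendsto (fun n : ℕ => ((n : ℝ) + 1)⁻¹ * ∑ i ∈ Finset.range (n + 1), g (f^[i] y)) U
        (𝓝 (∫ x, g x ∂(mu' : Measure X))) := by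
    intro g hg
    have h1 := hmu' (BoundedContinuousFunction.mkOfCompact ⟨g, hg⟩)
    refine h1.congr fun n => ?_
    exact hint n g hg
  refine ⟨mu', inferInstance, ?_, ?_⟩
  · have : IsProbabilityMeasure ((mu' : Measure X).map f) :=
      Measure.isProbabilityMeasure_map hf.measurable.aemeasurable
    refine ext_of_forall_integral_eq_of_IsFiniteMeasure fun g => ?_
    rw [integral_map hf.measurable.aemeasurable g.continuous.aestronglyMeasurable]
    have l1 := lim (fun x => g (f x)) (g.continuous.comp hf)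
    have l2 := lim g g.continuous
    have l3 := l1.sub l2
    have l4 : Tendsto (fun n : ℕ => ((n : ℝ) + 1)⁻¹ * ∑ i ∈ Finset.range (n + 1), g (f (f^[i] y)) -
        ((n : ℝ) + 1)⁻¹ * ∑ i ∈ Finset.range (n + 1), g (f^[i] y)) atTop (𝓝 0) := by
      have e1 : ∀ n : ℕ, ((n : ℝ) + 1)⁻¹ * ∑ i ∈ Finset.range (n + 1), g (f (f^[i] y)) -
        ((n : ℝ) + 1)⁻¹ * ∑ i ∈ Finset.range (n + 1), g (f^[i] y) =
        (g (f^[n + 1] y) - g y) * (1 / ((n : ℝ) + 1)) := by
        intro n
        have e2 : ∑ i ∈ Finset.range (n + 1), g (f (f^[i] y)) -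
            ∑ i ∈ Finset.range (n + 1), g (f^[i] y) = g (f^[n + 1] y) - g y := by
          rw [← Finset.sum_sub_distrib]
          have := Finset.sum_range_sub (fun i => g (f^[i] y)) (n + 1)
          simp only [Function.iterate_succ_apply', Function.iterate_zero, id_eq] at this ⊢
          exact this
        rw [← mul_sub, e2]
        ring
      simp only [e1]
      refine squeeze_zero_norm (a := fun n : ℕ => (2 * ‖g‖) * (1 / ((n : ℝ) + 1))) (fun n => ?_) ?_
      · rw [norm_mul]
        have h5 : ‖g (f^[n + 1] y) - g y‖ ≤ 2 * ‖g‖ := by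
          have := norm_sub_le (g (f^[n + 1] y)) (g y)
          have h6 := g.norm_coe_le_norm (f^[n + 1] y)
          have h7 := g.norm_coe_le_norm y
          linarith
        rw [Real.norm_of_nonneg (by positivity : (0 : ℝ) ≤ 1 / ((n : ℝ) + 1))]
        exact mul_le_mul_of_nonneg_right h5 (by positivity)
      · simpa using (tendsto_one_div_add_atTop_nhds_zero_nat (𝕜 := ℝ)).const_mul (2 * ‖g‖)
    have l5 := tendsto_nhds_unique l3 (l4.mono_left hUtop)
    linarith
  · intro C hC
    have hCc : Continuous (C.indicator fun _ : X => (1 : ℝ)) :=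
      (continuous_const).indicator (by rw [hC.frontier_eq]; simp)
    have l1 := lim _ hCc
    have e1 : ∫ x, C.indicator (fun _ : X => (1 : ℝ)) x ∂(mu' : Measure X) =
        (mu' : Measure X).real C := by
      rw [integral_indicator hC.2.measurableSet]
      simp
    rw [e1] at l1
    exact l1

/-- the base set of the correspondence -/
def base : Set (ℤ → Bool) := {x | x 0 = true}

theorem base_clopen : IsClopen base := by
  have : base = (fun x : ℤ → Bool => x 0) ⁻¹' {true} := rfl
  rw [this]
  exact (isClopen_discrete _).preimage (continuous_apply 0)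

theorem corr (E : Set ℕ) [DecidablePred (· ∈ E)] (δ : ℝ)
    (hδ : ∃ᶠ n : ℕ in atTop, δ * n ≤ #((range (n + 1)).filter (· ∈ E))) :
    ∃ μ : Measure (ℤ → Bool), IsProbabilityMeasure μ ∧ Act μ sh ∧ δ ≤ μ.real base ∧
      ∀ k : ℤ, (∀ i ∈ E, ∀ j ∈ E, (j : ℤ) - i ≠ k) → μ (base ∩ sh k ⁻¹' base) = 0 := by
  classical
  let _ : MetricSpace (ℤ → Bool) := TopologicalSpace.metrizableSpaceMetric (ℤ → Bool)
  set y : ℤ → Bool := fun n => decide (∃ i ∈ E, (i : ℤ) = n) with hy
  set S : Set ℕ := {n | δ * n ≤ #((range (n + 1)).filter (· ∈ E))} with hS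
  have : NeBot (atTop ⊓ 𝓟 S) := by
    rw [← frequently_mem_iff_neBot]
    exact hδ
  set U : Ultrafilter ℕ := Ultrafilter.of (atTop ⊓ 𝓟 S) with hU
  have hU1 : (U : Filter ℕ) ≤ atTop := (Ultrafilter.of_le _).trans inf_le_left
  have hU2 : S ∈ (U : Filter ℕ) := by
    have : (U : Filter ℕ) ≤ 𝓟 S := (Ultrafilter.of_le _).trans inf_le_right
    exact this (mem_principal_self S)
  obtain ⟨μ, hμ, hmap, hlim⟩ := kb (sh 1) (sh_continuous 1) y U hU1
  have hmem : ∀ i : ℕ, (sh 1)^[i] y ∈ base ↔ i ∈ E := by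
    intro i
    rw [sh_iterate]
    simp only [base, sh, hy, Set.mem_ofPred_eq, zero_add, decide_eq_true_eq]
    constructor
    · rintro ⟨j, hj, hji⟩
      have : j = i := by exact_mod_cast hji
      rwa [← this]
    · intro h; exact ⟨i, h, rfl⟩
  have hmpos : ∀ k : ℕ, μ.map (sh k) = μ := by
    intro k
    induction k with
    | zero =>
      have : sh ((0 : ℕ) : ℤ) = id := by funext x; exact sh_zero x
      rw [this, Measure.map_id]
    | succ k ih =>
      have e : sh ((k + 1 : ℕ) : ℤ) = sh 1 ∘ sh k := by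
        funext x
        rw [Function.comp_apply, ← sh_add]
        congr 1; push_cast; ring
      rw [e, ← Measure.map_map (sh_continuous 1).measurable (sh_continuous _).measurable, ih, hmap]
  have hmall : ∀ k : ℤ, μ.map (sh k) = μ := by
    intro k
    obtain ⟨n, rfl | rfl⟩ := k.eq_nat_or_neg
    · exact hmpos n
    · conv_lhs => rw [← hmpos n]
      rw [Measure.map_map (sh_continuous _).measurable (sh_continuous _).measurable]
      have : sh (-(n : ℤ)) ∘ sh n = id := by
        funext x
        rw [Function.comp_apply, ← sh_add, neg_add_cancel, sh_zero]; rfl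
      rw [this, Measure.map_id]
  refine ⟨μ, hμ, ⟨sh_zero, sh_add, fun k => ⟨(sh_continuous k).measurable, hmall k⟩⟩, ?_, ?_⟩
  · have h1 := hlim base base_clopen
    have h2 : ∀ᶠ n : ℕ in U, δ * ((n : ℝ) * ((n : ℝ) + 1)⁻¹) ≤ ((n : ℝ) + 1)⁻¹ *
        ∑ i ∈ Finset.range (n + 1), base.indicator (fun _ => (1 : ℝ)) ((sh 1)^[i] y) := by
      filter_upwards [hU2] with n hn
      have e : ∑ i ∈ Finset.range (n + 1), base.indicator (fun _ => (1 : ℝ)) ((sh 1)^[i] y) =
          #((range (n + 1)).filter (· ∈ E)) := by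
        rw [card_filter]
        push_cast
        refine sum_congr rfl fun i _ => ?_
        by_cases h : i ∈ E
        · rw [Set.indicator_of_mem ((hmem i).2 h), if_pos h]
        · rw [Set.indicator_of_notMem (fun h' => h ((hmem i).1 h')), if_neg h]
      rw [e]
      have hn' : δ * n ≤ #((range (n + 1)).filter (· ∈ E)) := hn
      calc δ * ((n : ℝ) * ((n : ℝ) + 1)⁻¹) = ((n : ℝ) + 1)⁻¹ * (δ * n) := by ring
        _ ≤ _ := mul_le_mul_of_nonneg_left hn' (by positivity)
    have h3 : Tendsto (fun n : ℕ => δ * ((n : ℝ) * ((n : ℝ) + 1)⁻¹)) atTop (𝓝 (δ * 1)) := by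
      refine Tendsto.const_mul δ ?_
      have := tendsto_natCast_div_add_atTop (1 : ℝ)
      simpa [div_eq_mul_inv] using this
    rw [mul_one] at h3
    exact le_of_tendsto_of_tendsto (h3.mono_left hU1) h1 h2
  · intro k hk
    have hC : IsClopen (base ∩ sh k ⁻¹' base) :=
      base_clopen.inter (base_clopen.preimage (sh_continuous k))
    have h1 := hlim _ hC
    have h2 : ∀ n : ℕ, ((n : ℝ) + 1)⁻¹ * ∑ i ∈ Finset.range (n + 1),
        (base ∩ sh k ⁻¹' base).indicator (fun _ => (1 : ℝ)) ((sh 1)^[i] y) = 0 := by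
      intro n
      rw [sum_eq_zero, mul_zero]
      intro i _
      rw [Set.indicator_of_notMem]
      rintro ⟨h3, h4⟩
      rw [hmem] at h3
      rw [Set.mem_preimage, sh_iterate] at h4
      simp only [base, sh, hy, Set.mem_ofPred_eq, zero_add, decide_eq_true_eq] at h4
      obtain ⟨j, hj, hji⟩ := h4
      exact hk i h3 j hj (by rw [hji]; ring)
    simp_rw [h2] at h1
    have h3 := tendsto_nhds_unique h1 tendsto_const_nhds
    exact (measureReal_eq_zero_iff).1 h3

end Pool.Agent.X114.PD
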