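import Pool.Agent.X114.PD.Ph
import Pool.Agent.H505RS.BPE
import Pool.Agent.W763.Tr.Herg

/-! Correlations of a function without rational spectrum along equidistributed weights. -/

set_option autoImplicit false

namespace Pool.Agent.X114.PD

open MeasureTheory Filter Topology Finset
open scoped ComplexOrder
open Pool.Agent.Helper602.MK (ee)
open Pool.Agent.Helper602.MK.N_J5b (ee_add ee_zero ee_conj norm_ee ee_int)

universe u

variable {Ω : Type u} [mΩ : MeasurableSpace Ω]

/-- a measure preserving action of the integers -/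
structure Act (μ : Measure Ω) (T : ℤ → Ω → Ω) : Prop where
  zero : ∀ x, T 0 x = x
  add : ∀ (k l : ℤ) (x : Ω), T (k + l) x = T k (T l x)
  mp : ∀ k, MeasurePreserving (T k) μ μ

/-- the correlations -/
noncomputable def cor (μ : Measure Ω) (T : ℤ → Ω → Ω) (g : Ω → ℝ) (n : ℤ) : ℝ :=
  ∫ x, g x * g (T n x) ∂μ

variable {μ : Measure Ω} {T : ℤ → Ω → Ω}

theorem Act.int_comp (hT : Act μ T) (F : Ω → ℝ) (hF : Measurable F) (k : ℤ) :
    ∫ x, F (T k x) ∂μ = ∫ x, F x ∂μ := by
  have h := (hT.mp k).map_eq
  conv_rhs => rw [← h]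
  rw [integral_map (hT.mp k).measurable.aemeasurable hF.aestronglyMeasurable]

theorem Act.iterate (hT : Act μ T) (q : ℤ) (k : ℕ) (x : Ω) : (T q)^[k] x = T (q * k) x := by
  induction k with
  | zero => simp [hT.zero]
  | succ k ih =>
    rw [Function.iterate_succ_apply', ih, ← hT.add]
    congr 1; push_cast; ring

theorem cor_shift (hT : Act μ T) (g : Ω → ℝ) (hg : Measurable g) (j k : ℤ) :
    ∫ x, g (T j x) * g (T k x) ∂μ = cor μ T g (k - j) := by
  unfold cor
  rw [← hT.int_comp (fun y => g y * g (T (k - j) y))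
    (hg.mul (hg.comp (hT.mp _).measurable)) j]
  refine integral_congr_ae (Eventually.of_forall fun x => ?_)
  simp only
  rw [← hT.add]
  congr 2
  congr 1
  ring

theorem integrable_bdd [IsProbabilityMeasure μ] {f : Ω → ℝ} (hf : Measurable f) {C : ℝ}
    (hb : ∀ x, |f x| ≤ C) : Integrable f μ :=
  Integrable.mono' (integrable_const C) hf.aestronglyMeasurable
    (Eventually.of_forall fun x => by rw [Real.norm_eq_abs]; exact hb x)

theorem cor_pd [IsProbabilityMeasure μ] (hT : Act μ T) (g : Ω → ℝ) (hg : Measurable g) (C : ℝ)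
    (hb : ∀ x, |g x| ≤ C) (N : ℕ) (a : ℕ → ℂ) :
    0 ≤ ∑ j ∈ range N, ∑ k ∈ range N, star (a k) * a j * ((cor μ T g ((j : ℤ) - k) : ℝ) : ℂ) := by
  have hi : ∀ j k : ℕ, Integrable (fun x => g (T j x) * g (T k x)) μ := by
    intro j k
    refine integrable_bdd (C := C * C)
      ((hg.comp (hT.mp _).measurable).mul (hg.comp (hT.mp _).measurable)) fun x => ?_
    rw [abs_mul]
    exact mul_le_mul (hb _) (hb _) (abs_nonneg _) ((abs_nonneg _).trans (hb x))
  have e : ∑ j ∈ range N, ∑ k ∈ range N, star (a k) * a j * ((cor μ T g ((j : ℤ) - k) : ℝ) : ℂ) =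
      ((∫ x, ‖∑ j ∈ range N, a j * (g (T j x) : ℂ)‖ ^ 2 ∂μ : ℝ) : ℂ) := by
    have e1 : ∀ x, ((‖∑ j ∈ range N, a j * (g (T j x) : ℂ)‖ ^ 2 : ℝ) : ℂ) =
        ∑ j ∈ range N, ∑ k ∈ range N, star (a k) * a j * ((g (T j x) * g (T k x) : ℝ) : ℂ) := by
      intro x
      rw [← Complex.normSq_eq_norm_sq, ← Complex.mul_conj, map_sum, sum_mul_sum]
      refine sum_congr rfl fun j _ => sum_congr rfl fun k _ => ?_
      rw [map_mul, Complex.conj_ofReal]
      push_cast
      rw [RCLike.star_def]
      ring
    rw [← integral_complex_ofReal]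
    simp_rw [e1]
    rw [integral_finsetSum]
    · refine sum_congr rfl fun j _ => ?_
      rw [integral_finsetSum]
      · refine sum_congr rfl fun k _ => ?_
        rw [integral_const_mul, integral_complex_ofReal]
        congr 2
        have := cor_shift hT g hg (k : ℤ) (j : ℤ)
        rw [← this]
        exact integral_congr_ae (Eventually.of_forall fun x => mul_comm _ _)
      · intro k _
        exact (hi j k).ofReal.const_mul _
    · intro j _
      exact integrable_finsetSum _ fun k _ => (hi j k).ofReal.const_mul _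
  rw [e]
  have : 0 ≤ ∫ x, ‖∑ j ∈ range N, a j * (g (T j x) : ℂ)‖ ^ 2 ∂μ :=
    integral_nonneg fun x => by positivity
  exact_mod_cast this

theorem avg_cor [IsProbabilityMeasure μ] (hT : Act μ T) (g : Ω → ℝ) (hg : Measurable g) (C : ℝ)
    (hb : ∀ x, |g x| ≤ C) (q : ℕ)
    (h0 : μ[g | MeasurableSpace.invariants (T q)] =ᵐ[μ] fun _ => 0) :
    Tendsto (fun K : ℕ => (K : ℝ)⁻¹ * ∑ k ∈ range K, cor μ T g (q * k)) atTop (𝓝 0) := by
  have hbk := Pool.Agent.H505RS.BPE.birkhoff (hT.mp q) g hg C hb
  have hC : ∀ x : Ω, 0 ≤ C := fun x => (abs_nonneg _).trans (hb x)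
  have e1 : ∀ K : ℕ, (K : ℝ)⁻¹ * ∑ k ∈ range K, cor μ T g (q * k) =
      ∫ x, g x * ((K : ℝ)⁻¹ * ∑ k ∈ range K, g ((T q)^[k] x)) ∂μ := by
    intro K
    have e2 : ∀ x, g x * ((K : ℝ)⁻¹ * ∑ k ∈ range K, g ((T q)^[k] x)) =
        (K : ℝ)⁻¹ * ∑ k ∈ range K, g x * g (T (q * k) x) := by
      intro x
      rw [mul_left_comm, mul_sum]
      congr 1
      refine sum_congr rfl fun k _ => ?_
      rw [hT.iterate]
    simp_rw [e2]
    rw [integral_const_mul, integral_finsetSum]
    · rfl
    · intro k _
      refine integrable_bdd (C := C * C) (hg.mul (hg.comp (hT.mp _).measurable)) fun x => ?_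
      rw [abs_mul]
      exact mul_le_mul (hb _) (hb _) (abs_nonneg _) ((abs_nonneg _).trans (hb x))
  simp_rw [e1]
  have hmeas : ∀ K : ℕ, Measurable fun x => g x * ((K : ℝ)⁻¹ * ∑ k ∈ range K, g ((T q)^[k] x)) := by
    intro K
    refine hg.mul (Measurable.const_mul ?_ _)
    refine Finset.measurable_fun_sum _ fun k _ => ?_
    exact hg.comp ((hT.mp q).measurable.iterate k)
  have hlim := tendsto_integral_of_dominated_convergence (μ := μ)
    (F := fun (K : ℕ) x => g x * ((K : ℝ)⁻¹ * ∑ k ∈ range K, g ((T q)^[k] x)))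
    (f := fun _ => (0 : ℝ)) (fun _ => C * C)
    (fun K => (hmeas K).aestronglyMeasurable) (integrable_const _) (by
      intro K
      filter_upwards with x
      rw [norm_mul, norm_mul, Real.norm_eq_abs, Real.norm_eq_abs, Real.norm_eq_abs]
      have h1 : |∑ k ∈ range K, g ((T q)^[k] x)| ≤ K * C := by
        refine (abs_sum_le_sum_abs _ _).trans ?_
        refine (sum_le_sum fun k _ => hb _).trans ?_
        rw [sum_const, card_range, nsmul_eq_mul]
      rw [abs_of_nonneg (show (0 : ℝ) ≤ (K : ℝ)⁻¹ by positivity)]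
      have h2 : (K : ℝ)⁻¹ * |∑ k ∈ range K, g ((T q)^[k] x)| ≤ C := by
        rcases Nat.eq_zero_or_pos K with h | h
        · subst h; simp [hC x]
        · have : (0 : ℝ) < K := by exact_mod_cast h
          rw [inv_mul_le_iff₀ this]; exact h1
      exact mul_le_mul (hb x) h2 (by positivity) (hC x)) (by
      filter_upwards [hbk, h0] with x hx h0x
      rw [h0x] at hx
      simpa using hx.const_mul (g x))
  simpa using hlim

abbrev TT : Type := AddCircle (1 : ℝ)

theorem fourier_nat_mul (q : ℤ) (k : ℕ) (x : TT) : fourier (q * k) x = (fourier q x) ^ k := by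
  induction k with
  | zero => simp
  | succ k ih =>
    rw [pow_succ, ← ih, ← fourier_add]
    congr 2; push_cast; ring

theorem fourier_coe (n : ℤ) (θ : ℝ) : fourier n (θ : TT) = ee (n * θ) := by
  rw [fourier_coe_apply, Pool.Agent.Helper602.MK.N_J5b.ee_eq]
  congr 1
  push_cast
  ring

theorem fourier_eq_one_iff (q : ℤ) (x : TT) : fourier q x = 1 ↔ q • x = 0 := by
  induction x using QuotientAddGroup.induction_on with
  | H θ =>
    change fourier q (θ : TT) = 1 ↔ q • (θ : TT) = 0
    rw [fourier_coe, Pool.Agent.Helper602.MK.N_J5b.ee_eq_one_iff, ← AddCircle.coe_zsmul,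
      AddCircle.coe_eq_zero_iff]
    constructor
    · rintro ⟨n, hn⟩
      exact ⟨n, by rw [zsmul_eq_mul, mul_one, zsmul_eq_mul, hn]⟩
    · rintro ⟨n, hn⟩
      refine ⟨n, ?_⟩
      rw [zsmul_eq_mul, mul_one, zsmul_eq_mul] at hn
      exact hn.symm

theorem geom_avg (z : ℂ) (hz : ‖z‖ = 1) :
    Tendsto (fun K : ℕ => (K : ℂ)⁻¹ * ∑ k ∈ range K, z ^ k) atTop (𝓝 (if z = 1 then 1 else 0)) := by
  split_ifs with h
  · subst h
    refine tendsto_const_nhds.congr' ?_
    filter_upwards [eventually_gt_atTop 0] with K hK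
    have : (K : ℂ) ≠ 0 := by exact_mod_cast hK.ne'
    simp [this]
  · have h1 : z - 1 ≠ 0 := sub_ne_zero.2 h
    have h2 : 0 < ‖z - 1‖ := norm_pos_iff.2 h1
    rw [tendsto_zero_iff_norm_tendsto_zero]
    refine squeeze_zero (g := fun K : ℕ => 2 / ‖z - 1‖ * (1 / (K : ℝ))) (fun K => norm_nonneg _) (fun K => ?_) ?_
    · rw [norm_mul, norm_inv, Complex.norm_natCast, geom_sum_eq h, norm_div]
      have h3 : ‖z ^ K - 1‖ ≤ 2 := by
        refine (norm_sub_le _ _).trans ?_
        rw [norm_pow, hz, one_pow, norm_one]; norm_num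
      calc (K : ℝ)⁻¹ * (‖z ^ K - 1‖ / ‖z - 1‖) ≤ (K : ℝ)⁻¹ * (2 / ‖z - 1‖) := by gcongr
        _ = _ := by ring
    · simpa using (tendsto_one_div_atTop_nhds_zero_nat (𝕜 := ℝ)).const_mul (2 / ‖z - 1‖)

theorem norm_fourier (n : ℤ) (x : TT) : ‖fourier n x‖ = 1 := by
  rw [fourier_apply]; exact Circle.norm_coe _

/-- **Correlations along equidistributed weights** -/
theorem spectral [IsProbabilityMeasure μ] (hT : Act μ T) (g : Ω → ℝ) (hg : Measurable g) (C : ℝ)
    (hb : ∀ x, |g x| ≤ C)
    (h0 : ∀ q : ℕ, 1 ≤ q → μ[g | MeasurableSpace.invariants (T q)] =ᵐ[μ] fun _ => 0)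
    (s : ℕ → Finset ℕ) (w : ℕ → ℕ → ℝ) (v : ℕ → ℤ) (hw0 : ∀ N, ∀ i ∈ s N, 0 ≤ w N i)
    (hw1 : ∀ N, ∑ i ∈ s N, w N i = 1)
    (hlam : ∀ θ : ℝ, Irrational θ → Tendsto (fun N => ∑ i ∈ s N, (w N i : ℂ) * ee (v i * θ)) atTop (𝓝 0)) :
    Tendsto (fun N => ∑ i ∈ s N, w N i * cor μ T g (v i)) atTop (𝓝 0) := by
  by_cases hc0 : cor μ T g 0 = 0
  · -- the function vanishes almost everywhere
    have h1 : ∀ n, cor μ T g n = 0 := by
      have hsq : ∫ x, g x * g x ∂μ = 0 := by
        have : cor μ T g 0 = ∫ x, g x * g x ∂μ := by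
          unfold cor; simp only [hT.zero]
        rw [← this, hc0]
      have hz : (fun x => g x * g x) =ᵐ[μ] 0 :=
        (integral_eq_zero_iff_of_nonneg (fun x => mul_self_nonneg _)
          (integrable_bdd (C := C * C) (hg.mul hg) fun x => by
            rw [abs_mul]
            exact mul_le_mul (hb _) (hb _) (abs_nonneg _) ((abs_nonneg _).trans (hb x)))).1 hsq
      intro n
      unfold cor
      have : (fun x => g x * g (T n x)) =ᵐ[μ] fun _ => 0 := by
        filter_upwards [hz] with x hx
        have : g x = 0 := by simpa using hx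
        rw [this, zero_mul]
      rw [integral_congr_ae this, integral_zero]
    simp [h1]
  have hpos : 0 < cor μ T g 0 := by
    refine lt_of_le_of_ne ?_ (Ne.symm hc0)
    unfold cor
    simp only [hT.zero]
    exact integral_nonneg fun x => mul_self_nonneg _
  set c₀ := cor μ T g 0 with hc₀
  obtain ⟨ν, hν, hνc⟩ := Pool.Agent.W763.Tr.herglotz (c := fun n => ((cor μ T g n / c₀ : ℝ) : ℂ))
    (by rw [← hc₀, div_self hc0]; simp) (by
      intro N a
      have h1 := cor_pd hT g hg C hb N a
      have h2 : (0 : ℂ) ≤ ((c₀⁻¹ : ℝ) : ℂ) := by exact_mod_cast (inv_pos.2 hpos).le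
      have h3 := mul_nonneg h2 h1
      refine le_of_le_of_eq h3 ?_
      rw [mul_sum]
      refine sum_congr rfl fun j _ => ?_
      rw [mul_sum]
      refine sum_congr rfl fun k _ => ?_
      push_cast
      ring)
  -- no rational atoms
  have hrat : ∀ q : ℕ, 1 ≤ q → ν {x : TT | (q : ℤ) • x = 0} = 0 := by
    intro q hq
    have hm : MeasurableSet {x : TT | (q : ℤ) • x = 0} := by
      have : {x : TT | (q : ℤ) • x = 0} = (fun x : TT => fourier (q : ℤ) x) ⁻¹' {1} := by
        ext x; simp only [Set.mem_ofPred_eq, Set.mem_preimage, Set.mem_singleton_iff]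
        exact (fourier_eq_one_iff _ _).symm
      rw [this]
      exact (fourier (q : ℤ)).continuous.measurable (measurableSet_singleton _)
    have hlim := tendsto_integral_of_dominated_convergence (μ := ν)
      (F := fun (K : ℕ) (x : TT) => (K : ℂ)⁻¹ * ∑ k ∈ range K, (fourier (q : ℤ) x) ^ k)
      (f := fun x => if fourier (q : ℤ) x = 1 then (1 : ℂ) else 0) (fun _ => (1 : ℝ))
      (fun K => by
        refine Continuous.aestronglyMeasurable ?_
        exact continuous_const.mul (continuous_finsetSum _ fun k _ => (fourier (q : ℤ)).continuous.pow k))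
      (integrable_const _) (by
        intro K
        filter_upwards with x
        rw [norm_mul, norm_inv, Complex.norm_natCast]
        have h1 : ‖∑ k ∈ range K, (fourier (q : ℤ) x) ^ k‖ ≤ K := by
          refine (norm_sum_le _ _).trans ?_
          refine (sum_le_sum fun k _ => le_of_eq (by rw [norm_pow, norm_fourier, one_pow])).trans ?_
          simp
        rcases Nat.eq_zero_or_pos K with h | h
        · subst h; simp
        · have : (0 : ℝ) < K := by exact_mod_cast h
          rw [inv_mul_le_iff₀ this, mul_one]; exact h1) (by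
        filter_upwards with x
        exact geom_avg _ (norm_fourier _ _))
    have e1 : ∀ K : ℕ, ∫ x, (K : ℂ)⁻¹ * ∑ k ∈ range K, (fourier (q : ℤ) x) ^ k ∂ν =
        (((c₀⁻¹ * ((K : ℝ)⁻¹ * ∑ k ∈ range K, cor μ T g (q * k)) : ℝ)) : ℂ) := by
      intro K
      rw [integral_const_mul, integral_finsetSum]
      · have e2 : ∀ k ∈ range K, ∫ x, (fourier (q : ℤ) x) ^ k ∂ν = ((cor μ T g (q * k) / c₀ : ℝ) : ℂ) := by
          intro k _
          rw [← hνc]
          exact integral_congr_ae (Eventually.of_forall fun x => (fourier_nat_mul _ _ _).symm)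
        rw [sum_congr rfl e2]
        push_cast
        rw [mul_left_comm, mul_sum (s := range K) (a := ((c₀ : ℂ))⁻¹)]
        congr 1
        exact sum_congr rfl fun k _ => by rw [div_eq_inv_mul]
      · intro k _
        refine Integrable.mono' (integrable_const (1 : ℝ))
          (((fourier (q : ℤ)).continuous.pow k).aestronglyMeasurable) ?_
        filter_upwards with x
        rw [norm_pow, norm_fourier, one_pow]
    simp_rw [e1] at hlim
    have h2 := (avg_cor hT g hg C hb q (h0 q hq)).const_mul c₀⁻¹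
    rw [mul_zero] at h2
    have h3 : Tendsto (fun K : ℕ => (((c₀⁻¹ * ((K : ℝ)⁻¹ * ∑ k ∈ range K, cor μ T g (q * k)) : ℝ)) : ℂ))
        atTop (𝓝 ((0 : ℝ) : ℂ)) := (Complex.continuous_ofReal.tendsto _).comp h2
    have h4 := tendsto_nhds_unique hlim h3
    have e3 : ∫ x, (if fourier (q : ℤ) x = 1 then (1 : ℂ) else 0) ∂ν =
        ((ν.real {x : TT | (q : ℤ) • x = 0} : ℝ) : ℂ) := by
      have : (fun x : TT => if fourier (q : ℤ) x = 1 then (1 : ℂ) else 0) =
          Set.indicator {x : TT | (q : ℤ) • x = 0} (fun _ => (1 : ℂ)) := by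
        funext x
        by_cases hx : fourier (q : ℤ) x = 1
        · rw [if_pos hx, Set.indicator_of_mem (show x ∈ {x : TT | (q : ℤ) • x = 0} from
            (fourier_eq_one_iff _ _).1 hx)]
        · rw [if_neg hx, Set.indicator_of_notMem (show x ∉ {x : TT | (q : ℤ) • x = 0} from
            fun h => hx ((fourier_eq_one_iff _ _).2 h))]
      rw [this, integral_indicator hm]
      simp
    rw [e3] at h4
    have h5 : ν.real {x : TT | (q : ℤ) • x = 0} = 0 := by exact_mod_cast h4
    exact (measureReal_eq_zero_iff).1 h5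
  have hae : ∀ᵐ x ∂ν, ∀ q : ℕ, 1 ≤ q → (q : ℤ) • x ≠ 0 := by
    rw [ae_all_iff]
    intro q
    by_cases hq : 1 ≤ q
    · have := hrat q hq
      rw [measure_eq_zero_iff_ae_notMem] at this
      filter_upwards [this] with x hx _
      exact hx
    · exact Eventually.of_forall fun x h => absurd h hq
  have hlim := tendsto_integral_of_dominated_convergence (μ := ν)
    (F := fun (N : ℕ) (x : TT) => ∑ i ∈ s N, (w N i : ℂ) * fourier (v i) x)
    (f := fun _ => (0 : ℂ)) (fun _ => (1 : ℝ))
    (fun N => by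
      refine Continuous.aestronglyMeasurable ?_
      exact continuous_finsetSum _ fun i _ => continuous_const.mul (fourier (v i)).continuous)
    (integrable_const _) (by
      intro N
      filter_upwards with x
      refine (norm_sum_le _ _).trans (le_of_eq_of_le (sum_congr rfl fun i hi => ?_) (hw1 N).le)
      rw [norm_mul, norm_fourier, mul_one, Complex.norm_real, Real.norm_of_nonneg (hw0 N i hi)]) (by
      filter_upwards [hae] with x hx
      induction x using QuotientAddGroup.induction_on with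
      | H θ =>
        have hirr : Irrational θ := by
          rintro ⟨r, hr⟩
          apply hx r.den r.den_pos
          change (r.den : ℤ) • (θ : TT) = 0
          rw [← AddCircle.coe_zsmul, AddCircle.coe_eq_zero_iff]
          refine ⟨r.num, ?_⟩
          rw [zsmul_eq_mul, mul_one, zsmul_eq_mul, ← hr]
          have : (r.den : ℚ) * r = r.num := Rat.den_mul_eq_num r
          exact_mod_cast this.symm
        have := hlam θ hirr
        refine this.congr fun N => ?_
        refine sum_congr rfl fun i _ => ?_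
        rw [fourier_coe])
  have e1 : ∀ N, ∫ x, ∑ i ∈ s N, (w N i : ℂ) * fourier (v i) x ∂ν =
      ((c₀⁻¹ * ∑ i ∈ s N, w N i * cor μ T g (v i) : ℝ) : ℂ) := by
    intro N
    rw [integral_finsetSum]
    · push_cast
      rw [mul_sum]
      refine sum_congr rfl fun i _ => ?_
      rw [integral_const_mul, hνc]
      push_cast
      ring
    · intro i _
      refine Integrable.const_mul ?_ _
      refine Integrable.mono' (integrable_const (1 : ℝ))
        ((fourier (v i)).continuous.aestronglyMeasurable) ?_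
      filter_upwards with x
      rw [norm_fourier]
  simp_rw [e1] at hlim
  rw [integral_zero] at hlim
  have h5 := (Complex.continuous_re.tendsto _).comp hlim
  simp only [Function.comp_def, Complex.ofReal_re, Complex.zero_re] at h5
  have h6 := h5.const_mul c₀
  rw [mul_zero] at h6
  refine h6.congr fun N => ?_
  rw [← mul_assoc, mul_inv_cancel₀ hc0, one_mul]

end Pool.Agent.X114.PD
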