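import Pool.Agent.X114.PD.Erg1

/-! The almost periodic part of a set that avoids differences. -/

set_option autoImplicit false

namespace Pool.Agent.X114.PD

open MeasureTheory Filter Topology Finset
open Pool.Agent.Helper602.MK (ee)

universe u

variable {Ω : Type u} [mΩ : MeasurableSpace Ω] {μ : Measure Ω} {T : ℤ → Ω → Ω}

/-- the residue class of `c` modulo `m` carries equidistributed weights supported by `X` -/
def Good (X : Set ℤ) (m : ℕ) (c : ℤ) : Prop :=
  ∃ (s : ℕ → Finset ℕ) (w : ℕ → ℕ → ℝ) (v : ℕ → ℤ),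
    (∀ N, ∀ i ∈ s N, 0 ≤ w N i) ∧ (∀ N, ∀ i ∈ s N, v i ∈ X ∧ v i ≠ 0 ∧ (m : ℤ) ∣ v i - c) ∧
    (∀ N, ∑ i ∈ s N, w N i = 1) ∧
    ∀ θ : ℝ, Irrational θ → Tendsto (fun N => ∑ i ∈ s N, (w N i : ℂ) * ee (v i * θ)) atTop (𝓝 0)

theorem Act.iterate' (hT : Act μ T) (q : ℤ) (k : ℕ) : (T q)^[k] = T (q * k) :=
  funext fun x => hT.iterate q k x

theorem inv_mono (hT : Act μ T) {a b : ℕ} (h : a ∣ b) :
    MeasurableSpace.invariants (T a) ≤ MeasurableSpace.invariants (T b) := by
  obtain ⟨c, rfl⟩ := h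
  have := MeasurableSpace.le_invariants_iterate (T a) c
  rw [hT.iterate'] at this
  push_cast
  exact this

/-- the filtration of the invariant sets of the powers `T ^ (n!)` -/
noncomputable def Fil (hT : Act μ T) : Filtration ℕ mΩ where
  seq n := MeasurableSpace.invariants (T (n.factorial : ℕ))
  mono' _ _ hab := inv_mono hT (Nat.factorial_dvd_factorial hab)
  le' _ := MeasurableSpace.invariants_le _

theorem inv_le_sup (hT : Act μ T) (q : ℕ) (hq : 1 ≤ q) :
    MeasurableSpace.invariants (T q) ≤ ⨆ n, Fil hT n := by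
  refine le_trans (inv_mono hT (Nat.dvd_factorial hq le_rfl)) ?_
  exact le_iSup (fun n => Fil hT n) q

theorem sup_le_all (hT : Act μ T) : (⨆ n, Fil hT n) ≤ mΩ := iSup_le fun n => (Fil hT).le n

theorem semiconj (hT : Act μ T) (k l : ℤ) : Function.Semiconj (T k) (T l) (T l) := by
  intro x
  rw [← hT.add, ← hT.add, add_comm]

theorem meas_fil (hT : Act μ T) (n : ℕ) (k : ℤ) : @Measurable _ _ (Fil hT n) (Fil hT n) (T k) :=
  MeasurableSpace.measurable_invariants_of_semiconj (hT.mp k).measurable (semiconj hT k _)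

theorem meas_sup (hT : Act μ T) (k : ℤ) :
    @Measurable _ _ (⨆ n, Fil hT n) (⨆ n, Fil hT n) (T k) := by
  rw [measurable_iff_comap_le, MeasurableSpace.comap_iSup]
  refine iSup_mono fun n => ?_
  rw [← measurable_iff_comap_le]
  exact meas_fil hT n k

theorem mem_inv (hT : Act μ T) {m : ℕ} {G : Set Ω} (hG : T m ⁻¹' G = G) (z : ℤ) (x : Ω) :
    T (m * z) x ∈ G ↔ x ∈ G := by
  have h1 : ∀ (k : ℕ) (x : Ω), T (m * k) x ∈ G ↔ x ∈ G := by
    intro k
    induction k with
    | zero => intro x; simp [hT.zero]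
    | succ k ih =>
      intro x
      have e : ((m : ℤ) * ((k + 1 : ℕ) : ℤ)) = m * k + m := by push_cast; ring
      rw [e, hT.add, ih, ← Set.mem_preimage, hG]
  obtain ⟨k, rfl | rfl⟩ := z.eq_nat_or_neg
  · exact h1 k x
  · rw [← h1 k (T (m * -k) x), ← hT.add]
    have : (m : ℤ) * k + m * -k = 0 := by ring
    rw [this, hT.zero]

theorem mem_congr (hT : Act μ T) {m : ℕ} {G : Set Ω} (hG : T m ⁻¹' G = G) {k c : ℤ}
    (h : (m : ℤ) ∣ k - c) (x : Ω) : T k x ∈ G ↔ T c x ∈ G := by
  obtain ⟨z, hz⟩ := h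
  have : k = m * z + c := by linarith
  rw [this, hT.add, mem_inv hT hG]

theorem Act.real_preimage (hT : Act μ T) (k : ℤ) {E : Set Ω} (hE : MeasurableSet E) :
    μ.real (T k ⁻¹' E) = μ.real E := by
  unfold Measure.real
  rw [(hT.mp k).measure_preimage hE.nullMeasurableSet]

theorem cond_mass [IsProbabilityMeasure μ] (hT : Act μ T) (M : ℕ) (S E : Set Ω)
    (hS : MeasurableSet S) (hE : MeasurableSet[Fil hT M] E)
    (hEG : ∀ x ∈ E, 3 / 4 < (μ[S.indicator (fun _ => (1 : ℝ)) | Fil hT M]) x) :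
    3 / 4 * μ.real E ≤ μ.real (S ∩ E) := by
  have hi : Integrable (S.indicator (fun _ => (1 : ℝ))) μ := (integrable_const (1 : ℝ)).indicator hS
  have hEm : MeasurableSet E := (Fil hT).le M _ hE
  have h1 := setIntegral_condExp ((Fil hT).le M) hi hE
  have h2 : ∫ x in E, S.indicator (fun _ => (1 : ℝ)) x ∂μ = μ.real (S ∩ E) := by
    rw [integral_indicator hS, Measure.restrict_restrict hS]
    simp
  rw [h2] at h1
  rw [← h1]
  have h3 : ∫ x in E, (3 / 4 : ℝ) ∂μ = 3 / 4 * μ.real E := by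
    rw [setIntegral_const, smul_eq_mul, mul_comm]
  rw [← h3]
  exact setIntegral_mono_on integrableOn_const integrable_condExp.integrableOn hEm
    fun x hx => (hEG x hx).le

theorem no_overlap [IsProbabilityMeasure μ] (hT : Act μ T) (X : Set ℤ) (B : Set Ω)
    (hB : MeasurableSet B) (hX : ∀ k ∈ X, k ≠ 0 → μ (B ∩ T k ⁻¹' B) = 0)
    (Fi : Ω → ℝ) (hFi : Measurable[⨆ n, Fil hT n] Fi) (hFi0 : ∀ x, 0 ≤ Fi x) (hFi1 : ∀ x, Fi x ≤ 1)
    (hFic : Fi =ᵐ[μ] μ[B.indicator (fun _ => (1 : ℝ)) | ⨆ n, Fil hT n]) (M : ℕ)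
    (G : Set Ω) (hG : G = {x | 3 / 4 < (μ[{x | 0 < Fi x}.indicator (fun _ => (1 : ℝ)) | Fil hT M]) x})
    (c : ℤ) (hgood : Good X (M.factorial) c) : μ (G ∩ T c ⁻¹' G) = 0 := by
  classical
  set S : Set Ω := {x | 0 < Fi x} with hS
  have hle := sup_le_all hT
  have hFm : Measurable Fi := hFi.mono hle le_rfl
  have hSm : MeasurableSet S := measurableSet_lt measurable_const hFm
  have hGm' : MeasurableSet[Fil hT M] G := by
    rw [hG]
    exact measurableSet_lt measurable_const
      (stronglyMeasurable_condExp (f := S.indicator (fun _ => (1 : ℝ)))).measurable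
  have hGm : MeasurableSet G := (Fil hT).le M _ hGm'
  have hGi : T (M.factorial : ℕ) ⁻¹' G = G := hGm'.2
  by_contra hne
  set E : Set Ω := G ∩ T c ⁻¹' G with hE
  have hEm' : MeasurableSet[Fil hT M] E := hGm'.inter (meas_fil hT M c hGm')
  have hEm : MeasurableSet E := (Fil hT).le M _ hEm'
  set κ : ℝ := μ.real E with hκ
  have hκ0 : 0 < κ := by
    rw [hκ]
    exact ENNReal.toReal_pos hne (measure_ne_top _ _)
  have hGlt : ∀ x ∈ G, 3 / 4 < (μ[S.indicator (fun _ => (1 : ℝ)) | Fil hT M]) x := by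
    intro x hx
    rw [hG] at hx
    exact hx
  -- for all k in the class the overlap of S with its translate is large
  have hover : ∀ k : ℤ, ((M.factorial : ℕ) : ℤ) ∣ k - c → κ / 2 ≤ μ.real (S ∩ T k ⁻¹' S) := by
    intro k hk
    have hEk : E = G ∩ T k ⁻¹' G := by
      ext x
      simp only [hE, Set.mem_inter_iff, Set.mem_preimage]
      rw [mem_congr hT hGi hk x]
    have h1 : 3 / 4 * κ ≤ μ.real (S ∩ E) :=
      cond_mass hT M S E hSm hEm' fun x hx => hGlt x hx.1
    have h2 : 3 / 4 * κ ≤ μ.real (T k ⁻¹' S ∩ E) := by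
      have e1 : μ.real (T k ⁻¹' S ∩ E) = μ.real (S ∩ T (-k) ⁻¹' E) := by
        rw [← hT.real_preimage (-k) (((hT.mp k).measurable hSm).inter hEm)]
        congr 1
        ext x
        simp only [Set.mem_inter_iff, Set.mem_preimage]
        rw [← hT.add, add_neg_cancel, hT.zero]
      have hE2 : MeasurableSet[Fil hT M] (T (-k) ⁻¹' E) := meas_fil hT M (-k) hEm'
      have h3 := cond_mass hT M S (T (-k) ⁻¹' E) hSm hE2 (by
        intro x hx
        rw [Set.mem_preimage, hEk] at hx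
        have := hx.2
        rw [Set.mem_preimage, ← hT.add, add_neg_cancel, hT.zero] at this
        exact hGlt x this)
      rw [hT.real_preimage (-k) hEm] at h3
      rw [e1]; exact h3
    have h3 := measureReal_union_add_inter (μ := μ) (s := S ∩ E) (t := T k ⁻¹' S ∩ E)
      (((hT.mp k).measurable hSm).inter hEm)
    have h4 : μ.real (S ∩ E ∪ T k ⁻¹' S ∩ E) ≤ κ :=
      measureReal_mono (Set.union_subset Set.inter_subset_right Set.inter_subset_right)
    have h5 : μ.real (S ∩ E ∩ (T k ⁻¹' S ∩ E)) ≤ μ.real (S ∩ T k ⁻¹' S) :=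
      measureReal_mono fun x hx => ⟨hx.1.1, hx.2.1⟩
    linarith
  -- a threshold
  obtain ⟨τ, hτ0, hτ⟩ : ∃ τ : ℝ, 0 < τ ∧ μ.real {x | 0 < Fi x ∧ Fi x ≤ τ} ≤ κ / 8 := by
    set A : ℕ → Set Ω := fun n => {x | 0 < Fi x ∧ Fi x ≤ 1 / ((n : ℝ) + 1)} with hA
    have hAm : ∀ n, MeasurableSet (A n) := fun n =>
      hSm.inter (measurableSet_le hFm measurable_const)
    have hanti : Antitone A := by
      intro a b hab x hx
      refine ⟨hx.1, hx.2.trans ?_⟩
      have : (a : ℝ) ≤ b := by exact_mod_cast hab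
      gcongr
    have hI : ⋂ n, A n = ∅ := by
      ext x
      simp only [Set.mem_iInter, Set.mem_empty_iff_false, iff_false, not_forall]
      by_contra hcon
      push Not at hcon
      have hx0 : 0 < Fi x := (hcon 0).1
      obtain ⟨n, hn⟩ := exists_nat_one_div_lt hx0
      exact absurd (hcon n).2 (not_le.2 hn)
    have hlim := tendsto_measure_iInter_atTop (μ := μ) (fun n => (hAm n).nullMeasurableSet) hanti
      ⟨0, measure_ne_top _ _⟩
    rw [hI, measure_empty] at hlim
    have h1 : Tendsto (fun n => μ.real (A n)) atTop (𝓝 0) := by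
      have := (ENNReal.tendsto_toReal (show (0 : ENNReal) ≠ ⊤ by simp)).comp hlim
      simpa [Measure.real, Function.comp_def] using this
    obtain ⟨n, hn⟩ := (h1.eventually (gt_mem_nhds (show 0 < κ / 8 by positivity))).exists
    exact ⟨1 / ((n : ℝ) + 1), by positivity, hn.le⟩
  set D : Set Ω := {x | 0 < Fi x ∧ Fi x ≤ τ} with hD
  have hDm : MeasurableSet D := hSm.inter (measurableSet_le hFm measurable_const)
  set P : Set Ω := {x | τ < Fi x} with hP
  have hPm : MeasurableSet P := measurableSet_lt measurable_const hFm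
  have hover2 : ∀ k : ℤ, ((M.factorial : ℕ) : ℤ) ∣ k - c → κ / 4 ≤ μ.real (P ∩ T k ⁻¹' P) := by
    intro k hk
    have h1 := hover k hk
    have h2 : S ∩ T k ⁻¹' S ⊆ (P ∩ T k ⁻¹' P) ∪ (D ∪ T k ⁻¹' D) := by
      intro x hx
      by_cases h3 : τ < Fi x
      · by_cases h4 : τ < Fi (T k x)
        · exact Or.inl ⟨h3, h4⟩
        · exact Or.inr (Or.inr ⟨hx.2, not_lt.1 h4⟩)
      · exact Or.inr (Or.inl ⟨hx.1, not_lt.1 h3⟩)
    have h3 : μ.real (S ∩ T k ⁻¹' S) ≤ μ.real (P ∩ T k ⁻¹' P) + (μ.real D + μ.real (T k ⁻¹' D)) :=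
      (measureReal_mono h2).trans ((measureReal_union_le _ _).trans
        (add_le_add le_rfl (measureReal_union_le _ _)))
    rw [hT.real_preimage k hDm] at h3
    linarith
  have hint : ∀ k : ℤ, ((M.factorial : ℕ) : ℤ) ∣ k - c →
      τ ^ 2 * (κ / 4) ≤ ∫ x, Fi x * Fi (T k x) ∂μ := by
    intro k hk
    have hm1 : MeasurableSet (P ∩ T k ⁻¹' P) := hPm.inter ((hT.mp k).measurable hPm)
    have h1 : ∫ x, (P ∩ T k ⁻¹' P).indicator (fun _ => τ ^ 2) x ∂μ ≤ ∫ x, Fi x * Fi (T k x) ∂μ := by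
      refine integral_mono ((integrable_const _).indicator hm1)
        (integrable_bdd (C := 1) (hFm.mul (hFm.comp (hT.mp k).measurable)) fun x => ?_) fun x => ?_
      · rw [abs_mul, abs_of_nonneg (hFi0 _), abs_of_nonneg (hFi0 _)]
        exact mul_le_one₀ (hFi1 _) (hFi0 _) (hFi1 _)
      · by_cases hx : x ∈ P ∩ T k ⁻¹' P
        · rw [Set.indicator_of_mem hx, pow_two]
          exact mul_le_mul (le_of_lt hx.1) (le_of_lt hx.2) hτ0.le (hFi0 _)
        · rw [Set.indicator_of_notMem hx]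
          exact mul_nonneg (hFi0 _) (hFi0 _)
    rw [integral_indicator hm1, setIntegral_const, smul_eq_mul] at h1
    have h2 := hover2 k hk
    have : τ ^ 2 * (κ / 4) ≤ μ.real (P ∩ T k ⁻¹' P) * τ ^ 2 := by
      rw [mul_comm]
      exact mul_le_mul_of_nonneg_right h2 (by positivity)
    exact this.trans h1
  -- the decomposition of f
  set f : Ω → ℝ := B.indicator (fun _ => (1 : ℝ)) with hf
  have hfm : Measurable f := measurable_const.indicator hB
  have hf0 : ∀ x, 0 ≤ f x := fun x => Set.indicator_nonneg (fun _ _ => zero_le_one) x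
  have hf1 : ∀ x, f x ≤ 1 := fun x => Set.indicator_le_self' (fun _ _ => zero_le_one) x |>.trans le_rfl
  have hfi : Integrable f μ := (integrable_const (1 : ℝ)).indicator hB
  set g : Ω → ℝ := fun x => f x - Fi x with hg
  have hgm : Measurable g := hfm.sub hFm
  have hgb : ∀ x, |g x| ≤ 1 := by
    intro x
    rw [hg, abs_le]
    have h1 := hf0 x; have h2 := hf1 x; have h3 := hFi0 x; have h4 := hFi1 x
    exact ⟨by simp only; linarith, by simp only; linarith⟩
  have hFii : Integrable Fi μ := integrable_bdd (C := 1) hFm fun x => by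
    rw [abs_of_nonneg (hFi0 x)]; exact hFi1 x
  have hgi : Integrable g μ := hfi.sub hFii
  have hgK : μ[g | ⨆ n, Fil hT n] =ᵐ[μ] fun _ => 0 := by
    have h1 := condExp_sub hfi hFii (⨆ n, Fil hT n)
    have h2 : μ[Fi | ⨆ n, Fil hT n] = Fi :=
      condExp_of_stronglyMeasurable hle hFi.stronglyMeasurable hFii
    rw [h2] at h1
    have e : g = f - Fi := rfl
    rw [e]
    filter_upwards [h1, hFic] with x hx1 hx2
    rw [hx1, Pi.sub_apply, hx2, sub_self]
  have h0 : ∀ q : ℕ, 1 ≤ q → μ[g | MeasurableSpace.invariants (T q)] =ᵐ[μ] fun _ => 0 := by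
    intro q hq
    have h1 := condExp_condExp_of_le (μ := μ) (f := g) (inv_le_sup hT q hq) hle
    have h2 : μ[μ[g | ⨆ n, Fil hT n] | MeasurableSpace.invariants (T q)] =ᵐ[μ]
        μ[(fun _ => (0 : ℝ)) | MeasurableSpace.invariants (T q)] := condExp_congr_ae hgK
    have h3 : μ[(fun _ => (0 : ℝ)) | MeasurableSpace.invariants (T q)] = fun _ => 0 := by
      have := condExp_zero (μ := μ) (m := MeasurableSpace.invariants (T q)) (E := ℝ)
      exact this
    rw [h3] at h2
    exact h1.symm.trans h2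
  obtain ⟨s, w, v, hw0, hv, hw1, hlam⟩ := hgood
  have hspec := spectral hT g hgm 1 hgb h0 s w v hw0 hw1 hlam
  -- products with functions of the factor
  have hcross : ∀ φ : Ω → ℝ, Measurable[⨆ n, Fil hT n] φ → (∀ x, |φ x| ≤ 1) →
      ∫ x, φ x * g x ∂μ = 0 := by
    intro φ hφ hφb
    have hφm : Measurable φ := hφ.mono hle le_rfl
    have hi : Integrable (φ * g) μ := integrable_bdd (C := 1) (hφm.mul hgm) fun x => by
      rw [Pi.mul_apply, abs_mul]; exact mul_le_one₀ (hφb x) (abs_nonneg _) (hgb x)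
    have h1 := condExp_mul_of_stronglyMeasurable_left hφ.stronglyMeasurable hi hgi
    have h2 := integral_condExp (μ := μ) hle (f := φ * g)
    have h3 : ∫ x, φ x * g x ∂μ = ∫ x, (φ * g) x ∂μ := rfl
    rw [h3, ← h2, integral_congr_ae h1]
    have h4 : (φ * μ[g | ⨆ n, Fil hT n] : Ω → ℝ) =ᵐ[μ] fun _ => 0 := by
      filter_upwards [hgK] with x hx
      rw [Pi.mul_apply, hx, mul_zero]
    rw [integral_congr_ae h4, integral_zero]
  have hFabs : ∀ x, |Fi x| ≤ 1 := fun x => by rw [abs_of_nonneg (hFi0 x)]; exact hFi1 x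
  have hid : ∀ k : ℤ, ∫ x, f x * f (T k x) ∂μ = ∫ x, Fi x * Fi (T k x) ∂μ + cor μ T g k := by
    intro k
    have e1 : ∫ x, Fi x * g (T k x) ∂μ = 0 := by
      have h1 := hT.int_comp (fun y => Fi (T (-k) y) * g y)
        ((hFm.comp (hT.mp (-k)).measurable).mul hgm) k
      have h2 : ∀ x, Fi (T (-k) (T k x)) * g (T k x) = Fi x * g (T k x) := by
        intro x
        rw [← hT.add, neg_add_cancel, hT.zero]
      simp only [h2] at h1
      rw [h1]
      exact hcross (fun y => Fi (T (-k) y)) (hFi.comp (meas_sup hT (-k))) fun x => hFabs _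
    have e2 : ∫ x, Fi (T k x) * g x ∂μ = 0 :=
      hcross (fun y => Fi (T k y)) (hFi.comp (meas_sup hT k)) fun x => hFabs _
    have hFk : Measurable fun x => Fi (T k x) := hFm.comp (hT.mp k).measurable
    have hgk : Measurable fun x => g (T k x) := hgm.comp (hT.mp k).measurable
    have i1 : Integrable (fun x => Fi x * Fi (T k x)) μ :=
      integrable_bdd (C := 1) (hFm.mul hFk) fun x => by
        rw [abs_mul]; exact mul_le_one₀ (hFabs _) (abs_nonneg _) (hFabs _)
    have i2 : Integrable (fun x => Fi x * g (T k x)) μ :=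
      integrable_bdd (C := 1) (hFm.mul hgk) fun x => by
        rw [abs_mul]; exact mul_le_one₀ (hFabs _) (abs_nonneg _) (hgb _)
    have i3 : Integrable (fun x => Fi (T k x) * g x) μ :=
      integrable_bdd (C := 1) (hFk.mul hgm) fun x => by
        rw [abs_mul]; exact mul_le_one₀ (hFabs _) (abs_nonneg _) (hgb _)
    have i4 : Integrable (fun x => g x * g (T k x)) μ :=
      integrable_bdd (C := 1) (hgm.mul hgk) fun x => by
        rw [abs_mul]; exact mul_le_one₀ (hgb _) (abs_nonneg _) (hgb _)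
    have e3 : ∀ x, f x * f (T k x) = Fi x * Fi (T k x) + (Fi x * g (T k x) +
        (Fi (T k x) * g x + g x * g (T k x))) := by
      intro x
      simp only [hg]
      ring
    simp_rw [e3]
    have j1 : Integrable (fun x => Fi (T k x) * g x + g x * g (T k x)) μ := i3.add i4
    have j2 : Integrable (fun x => Fi x * g (T k x) + (Fi (T k x) * g x + g x * g (T k x))) μ :=
      i2.add j1
    rw [integral_add i1 j2, integral_add i2 j1, integral_add i3 i4, e1, e2]
    unfold cor
    ring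
  have hff : ∀ k ∈ X, k ≠ 0 → ∫ x, f x * f (T k x) ∂μ = 0 := by
    intro k hk hk0
    have h1 := hX k hk hk0
    have h2 : (fun x => f x * f (T k x)) =ᵐ[μ] fun _ => 0 := by
      rw [measure_eq_zero_iff_ae_notMem] at h1
      filter_upwards [h1] with x hx
      by_cases hxB : x ∈ B
      · have : T k x ∉ B := fun h => hx ⟨hxB, h⟩
        rw [hf, Set.indicator_of_notMem this, mul_zero]
      · rw [hf, Set.indicator_of_notMem hxB, zero_mul]
    rw [integral_congr_ae h2, integral_zero]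
  have hneg : ∀ N, ∑ i ∈ s N, w N i * cor μ T g (v i) ≤ -(τ ^ 2 * (κ / 4)) := by
    intro N
    have h1 : ∀ i ∈ s N, w N i * cor μ T g (v i) ≤ w N i * (-(τ ^ 2 * (κ / 4))) := by
      intro i hi
      obtain ⟨hv1, hv2, hv3⟩ := hv N i hi
      have h2 := hid (v i)
      rw [hff _ hv1 hv2] at h2
      have h3 := hint (v i) hv3
      exact mul_le_mul_of_nonneg_left (by linarith) (hw0 N i hi)
    refine (sum_le_sum h1).trans (le_of_eq ?_)
    rw [← sum_mul, hw1 N, one_mul]
  have h5 := le_of_tendsto hspec (Eventually.of_forall hneg)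
  have : 0 < τ ^ 2 * (κ / 4) := by positivity
  linarith

/-- **The almost periodic majorant.** -/
theorem majorant [IsProbabilityMeasure μ] (hT : Act μ T) (X : Set ℤ) (B : Set Ω)
    (hB : MeasurableSet B) (hX : ∀ k ∈ X, k ≠ 0 → μ (B ∩ T k ⁻¹' B) = 0) (η : ℝ) (hη : 0 < η) :
    ∃ (m : ℕ) (G : Set Ω), 1 ≤ m ∧ MeasurableSet G ∧ T m ⁻¹' G = G ∧
      (∀ c, Good X m c → μ (G ∩ T c ⁻¹' G) = 0) ∧ μ.real (B \ G) ≤ η := by
  classical
  have hle := sup_le_all hT
  set f : Ω → ℝ := B.indicator (fun _ => (1 : ℝ)) with hf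
  have hfi : Integrable f μ := (integrable_const (1 : ℝ)).indicator hB
  have hf0 : ∀ x, 0 ≤ f x := fun x => Set.indicator_nonneg (fun _ _ => zero_le_one) x
  set F₀ : Ω → ℝ := μ[f | ⨆ n, Fil hT n] with hF₀
  have hF₀m : Measurable[⨆ n, Fil hT n] F₀ := stronglyMeasurable_condExp.measurable
  set Fi : Ω → ℝ := fun x => max 0 (min 1 (F₀ x)) with hFi
  have hFim : Measurable[⨆ n, Fil hT n] Fi :=
    (@measurable_const _ _ _ (⨆ n, Fil hT n) (0 : ℝ)).max
      ((@measurable_const _ _ _ (⨆ n, Fil hT n) (1 : ℝ)).min hF₀m)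
  have hFi0 : ∀ x, 0 ≤ Fi x := fun x => le_max_left _ _
  have hFi1 : ∀ x, Fi x ≤ 1 := fun x => max_le zero_le_one (min_le_left _ _)
  have hF₀0 : 0 ≤ᵐ[μ] F₀ := condExp_nonneg (Eventually.of_forall hf0)
  have hF₀1 : F₀ ≤ᵐ[μ] fun _ => 1 := by
    have h1 : μ[f | ⨆ n, Fil hT n] ≤ᵐ[μ] μ[(fun _ => (1 : ℝ)) | ⨆ n, Fil hT n] :=
      condExp_mono hfi (integrable_const _)
        (Eventually.of_forall fun x => Set.indicator_le_self' (fun _ _ => zero_le_one) x)
    rw [condExp_const hle (1 : ℝ)] at h1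
    exact h1
  have hFic : Fi =ᵐ[μ] F₀ := by
    filter_upwards [hF₀0, hF₀1] with x h0 h1
    have h0' : 0 ≤ F₀ x := h0
    simp only [hFi]
    rw [min_eq_right h1, max_eq_right h0']
  set S : Set Ω := {x | 0 < Fi x} with hS
  have hSm' : MeasurableSet[⨆ n, Fil hT n] S :=
    measurableSet_lt measurable_const hFim
  have hSm : MeasurableSet S := hle _ hSm'
  -- B is contained in S up to a null set
  have hBS : μ (B \ S) = 0 := by
    have h1 := setIntegral_condExp (μ := μ) hle hfi hSm'.compl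
    have h2 : ∫ x in Sᶜ, F₀ x ∂μ ≤ 0 := by
      refine setIntegral_nonpos_ae hSm.compl ?_
      filter_upwards [hFic] with x hx hxS
      rw [← hx]
      exact not_lt.1 hxS
    rw [← hF₀] at h1
    rw [h1] at h2
    have h3 : ∫ x in Sᶜ, f x ∂μ = μ.real (B \ S) := by
      rw [hf, integral_indicator hB, Measure.restrict_restrict hB]
      simp [Set.sdiff_eq]
    rw [h3] at h2
    have h4 : μ.real (B \ S) = 0 := le_antisymm h2 measureReal_nonneg
    exact (measureReal_eq_zero_iff).1 h4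
  -- martingale convergence
  have hsm : StronglyMeasurable[⨆ n, Fil hT n] (S.indicator (fun _ => (1 : ℝ))) :=
    (@measurable_const _ _ _ (⨆ n, Fil hT n) (1 : ℝ)).indicator hSm' |>.stronglyMeasurable
  have hsi : Integrable (S.indicator (fun _ => (1 : ℝ))) μ := (integrable_const (1 : ℝ)).indicator hSm
  have hae := hsi.tendsto_ae_condExp hsm
  have hmeas : ∀ n, AEStronglyMeasurable (μ[S.indicator (fun _ => (1 : ℝ)) | Fil hT n]) μ := fun n =>
    (stronglyMeasurable_condExp.mono ((Fil hT).le n)).aestronglyMeasurable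
  have hinm := tendstoInMeasure_of_tendsto_ae hmeas hae
  have h1 := hinm (ENNReal.ofReal (1 / 8)) (by simp)
  have h2 : ∀ᶠ n in atTop, μ {x | ENNReal.ofReal (1 / 8) ≤
      edist ((μ[S.indicator (fun _ => (1 : ℝ)) | Fil hT n]) x) (S.indicator (fun _ => (1 : ℝ)) x)} <
      ENNReal.ofReal η := h1.eventually (gt_mem_nhds (ENNReal.ofReal_pos.2 hη))
  obtain ⟨M, hM⟩ := h2.exists
  set G : Set Ω := {x | 3 / 4 < (μ[S.indicator (fun _ => (1 : ℝ)) | Fil hT M]) x} with hG
  have hGm' : MeasurableSet[Fil hT M] G :=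
    measurableSet_lt measurable_const
      (stronglyMeasurable_condExp (f := S.indicator (fun _ => (1 : ℝ)))).measurable
  refine ⟨M.factorial, G, Nat.factorial_pos M, (Fil hT).le M _ hGm', hGm'.2, ?_, ?_⟩
  · intro c hc
    exact no_overlap hT X B hB hX Fi hFim hFi0 hFi1 hFic M G rfl c hc
  · have h3 : B \ G ⊆ (B \ S) ∪ {x | ENNReal.ofReal (1 / 8) ≤
        edist ((μ[S.indicator (fun _ => (1 : ℝ)) | Fil hT M]) x) (S.indicator (fun _ => (1 : ℝ)) x)} := by
      rintro x ⟨hxB, hxG⟩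
      by_cases hxS : x ∈ S
      · right
        have h4 : (μ[S.indicator (fun _ => (1 : ℝ)) | Fil hT M]) x ≤ 3 / 4 := not_lt.1 hxG
        rw [Set.mem_ofPred_eq, Set.indicator_of_mem hxS, edist_dist, Real.dist_eq]
        apply ENNReal.ofReal_le_ofReal
        rw [le_abs]; right
        linarith
      · exact Or.inl ⟨hxB, hxS⟩
    have h4 : μ (B \ G) ≤ ENNReal.ofReal η := by
      refine (measure_mono h3).trans ((measure_union_le _ _).trans ?_)
      rw [hBS, zero_add]
      exact hM.le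
    have h5 := ENNReal.toReal_mono ENNReal.ofReal_ne_top h4
    rw [ENNReal.toReal_ofReal hη.le] at h5
    exact h5

end Pool.Agent.X114.PD
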