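import Pool.Agent.X114.PD.Erg2

/-! From a measure preserving system to a periodic set. -/

set_option autoImplicit false

namespace Pool.Agent.X114.PD

open MeasureTheory Filter Topology Finset
open Pool.Agent.Helper602.MK (ee)

universe u

variable {Ω : Type u} [mΩ : MeasurableSpace Ω] {μ : Measure Ω} {T : ℤ → Ω → Ω}

theorem Good_congr {X : Set ℤ} {m : ℕ} {c c' : ℤ} (h : (m : ℤ) ∣ c - c') (hg : Good X m c) :
    Good X m c' := by
  obtain ⟨s, w, v, h0, h1, h2, h3⟩ := hg
  refine ⟨s, w, v, h0, fun N i hi => ?_, h2, h3⟩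
  obtain ⟨g1, g2, g3⟩ := h1 N i hi
  refine ⟨g1, g2, ?_⟩
  have : v i - c' = (v i - c) + (c - c') := by ring
  rw [this]
  exact dvd_add g3 h

theorem extract [IsProbabilityMeasure μ] (hT : Act μ T) (X : Set ℤ) (B : Set Ω)
    (hB : MeasurableSet B) (hX : ∀ k ∈ X, k ≠ 0 → μ (B ∩ T k ⁻¹' B) = 0)
    (hgood : ∀ m : ℕ, 1 ≤ m → ∃ F : Finset ℤ, ∀ k ∈ X, k ≠ 0 → k ∉ F → Good X m k)
    (η : ℝ) (hη : 0 < η) :
    ∃ (L : ℕ) (A : Finset ℕ), 1 ≤ L ∧ A ⊆ range L ∧
      (∀ a ∈ A, ∀ b ∈ A, ∀ k ∈ X, k ≠ 0 → ¬ (L : ℤ) ∣ ((a : ℤ) - b) - k) ∧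
      (μ.real B - η) * L ≤ #A := by
  classical
  obtain ⟨m, G, hm, hG, hGi, hGg, hBG⟩ := majorant hT X B hB hX (η / 3) (by positivity)
  obtain ⟨F, hF⟩ := hgood m hm
  set R : ℕ := ∑ k ∈ F, k.natAbs with hR
  have hRF : ∀ k ∈ F, k.natAbs ≤ R := fun k hk =>
    single_le_sum (f := fun k : ℤ => k.natAbs) (fun _ _ => Nat.zero_le _) hk
  obtain ⟨J, hJ⟩ := exists_nat_gt (3 * (R : ℝ) / η)
  set L : ℕ := m * (J + 1) with hL
  have hL1 : 1 ≤ L := Nat.one_le_iff_ne_zero.2 (by positivity)
  have hmL : (m : ℤ) ∣ L := ⟨J + 1, by rw [hL]; push_cast; ring⟩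
  have hL0 : (0 : ℝ) < L := by exact_mod_cast hL1
  have hRL : (R : ℝ) ≤ η / 3 * L := by
    have h1 : (J : ℝ) ≤ L := by
      have : J ≤ L := by
        rw [hL]
        calc J ≤ 1 * (J + 1) := by omega
          _ ≤ m * (J + 1) := Nat.mul_le_mul_right _ hm
      exact_mod_cast this
    rw [div_lt_iff₀ hη] at hJ
    nlinarith
  -- the full measure set
  have hae1 : ∀ᵐ x ∂μ, ∀ (j k : ℤ), k ∈ X → k ≠ 0 → ¬ (T j x ∈ B ∧ T (j + k) x ∈ B) := by
    rw [ae_all_iff]; intro j
    rw [ae_all_iff]; intro k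
    by_cases hk : k ∈ X ∧ k ≠ 0
    · have h1 := hX k hk.1 hk.2
      have h2 : μ (T j ⁻¹' (B ∩ T k ⁻¹' B)) = 0 := by
        rw [(hT.mp j).measure_preimage (hB.inter ((hT.mp k).measurable hB)).nullMeasurableSet, h1]
      rw [measure_eq_zero_iff_ae_notMem] at h2
      filter_upwards [h2] with x hx _ _ h
      apply hx
      refine ⟨h.1, ?_⟩
      rw [Set.mem_preimage, ← hT.add, add_comm]
      exact h.2
    · exact Eventually.of_forall fun x h1 h2 => absurd ⟨h1, h2⟩ hk
  have hae2 : ∀ᵐ x ∂μ, ∀ (j c : ℤ), Good X m c → ¬ (T j x ∈ G ∧ T (j + c) x ∈ G) := by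
    rw [ae_all_iff]; intro j
    rw [ae_all_iff]; intro c
    by_cases hc : Good X m c
    · have h1 := hGg c hc
      have h2 : μ (T j ⁻¹' (G ∩ T c ⁻¹' G)) = 0 := by
        rw [(hT.mp j).measure_preimage (hG.inter ((hT.mp c).measurable hG)).nullMeasurableSet, h1]
      rw [measure_eq_zero_iff_ae_notMem] at h2
      filter_upwards [h2] with x hx _ h
      apply hx
      refine ⟨h.1, ?_⟩
      rw [Set.mem_preimage, ← hT.add, add_comm]
      exact h.2
    · exact Eventually.of_forall fun x h1 => absurd h1 hc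
  -- the average
  set W : Set Ω := B ∩ G with hW
  have hWm : MeasurableSet W := hB.inter hG
  set cnt : Ω → ℝ := fun x => ∑ j ∈ range L, W.indicator (fun _ => (1 : ℝ)) (T j x) with hcnt
  have hind : ∀ j : ℕ, Integrable (fun x => W.indicator (fun _ => (1 : ℝ)) (T j x)) μ := by
    intro j
    refine integrable_bdd (C := 1)
      ((measurable_const.indicator hWm).comp (hT.mp j).measurable) fun x => ?_
    by_cases hx : T j x ∈ W
    · rw [Set.indicator_of_mem hx, abs_one]
    · rw [Set.indicator_of_notMem hx, abs_zero]; exact zero_le_one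
  have hci : Integrable cnt μ := integrable_finsetSum _ fun j _ => hind j
  have hint : ∫ x, cnt x ∂μ = L * μ.real W := by
    rw [hcnt, integral_finsetSum _ fun j _ => hind j]
    have e : ∀ j ∈ range L, ∫ x, W.indicator (fun _ => (1 : ℝ)) (T (j : ℤ) x) ∂μ = μ.real W := by
      intro j _
      rw [hT.int_comp _ (measurable_const.indicator hWm), integral_indicator hWm]
      simp
    rw [sum_congr rfl e, sum_const, card_range, nsmul_eq_mul]
  have hex : ∃ x, (∀ (j k : ℤ), k ∈ X → k ≠ 0 → ¬ (T j x ∈ B ∧ T (j + k) x ∈ B)) ∧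
      (∀ (j c : ℤ), Good X m c → ¬ (T j x ∈ G ∧ T (j + c) x ∈ G)) ∧
      L * (μ.real W - η / 6) ≤ cnt x := by
    by_contra hcon
    push Not at hcon
    have h1 : ∀ᵐ x ∂μ, cnt x ≤ L * (μ.real W - η / 6) := by
      filter_upwards [hae1, hae2] with x h1 h2
      have := hcon x (fun j k hk hk0 => by
        have := h1 j k hk hk0
        rwa [not_and] at this) (fun j c hc => by
        have := h2 j c hc
        rwa [not_and] at this)
      exact this.le
    have h2 := integral_mono_ae hci (integrable_const _) h1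
    rw [hint, integral_const] at h2
    simp only [probReal_univ, smul_eq_mul, one_mul] at h2
    nlinarith
  obtain ⟨x, hx1, hx2, hx3⟩ := hex
  set A : Finset ℕ := (range (L - R)).filter (fun j => T (j : ℤ) x ∈ W) with hA
  refine ⟨L, A, hL1, ?_, ?_, ?_⟩
  · intro j hj
    rw [hA, mem_filter, mem_range] at hj
    rw [mem_range]; omega
  · intro a ha b hb k hk hk0 hdvd
    rw [hA, mem_filter, mem_range] at ha hb
    by_cases hkF : k ∈ F
    · have h1 := hRF k hkF
      obtain ⟨z, hz⟩ := hdvd
      have h2 : z = 0 := by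
        have hk2 : |k| ≤ (R : ℤ) := by rw [Int.abs_eq_natAbs]; exact_mod_cast h1
        have ha' : (a : ℤ) < L - R := by have := ha.1; omega
        have hb' : (b : ℤ) < L - R := by have := hb.1; omega
        have h3 : |(L : ℤ) * z| < L := by
          rw [← hz, abs_lt]
          have := abs_le.1 hk2
          constructor
          · have : (0 : ℤ) ≤ a := Int.natCast_nonneg a
            linarith
          · have : (0 : ℤ) ≤ b := Int.natCast_nonneg b
            linarith
        rw [abs_mul, abs_of_pos (show (0 : ℤ) < L by omega)] at h3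
        have h4 : |z| < 1 := by
          by_contra h
          push Not at h
          nlinarith [show (0 : ℤ) < L by omega]
        exact Int.abs_lt_one_iff.1 h4
      rw [h2, mul_zero] at hz
      have h3 : (a : ℤ) = b + k := by linarith
      refine hx1 b k hk hk0 ⟨hb.2.1, ?_⟩
      rw [← h3]
      exact ha.2.1
    · have h1 : Good X m ((a : ℤ) - b) := by
        refine Good_congr ?_ (hF k hk hk0 hkF)
        have h2 : (m : ℤ) ∣ (a : ℤ) - b - k := hmL.trans hdvd
        have e : k - ((a : ℤ) - b) = -((a : ℤ) - b - k) := by ring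
        rw [e]
        exact (dvd_neg).2 h2
      refine hx2 b _ h1 ⟨hb.2.2, ?_⟩
      have e : (b : ℤ) + ((a : ℤ) - b) = a := by ring
      rw [e]
      exact ha.2.2
  · have h1 : cnt x ≤ #A + R := by
      have e : cnt x = #((range L).filter (fun j : ℕ => T (j : ℤ) x ∈ W)) := by
        rw [hcnt, card_filter]
        push_cast
        refine sum_congr rfl fun j _ => ?_
        by_cases hj : T (j : ℤ) x ∈ W
        · rw [Set.indicator_of_mem hj, if_pos hj]
        · rw [Set.indicator_of_notMem hj, if_neg hj]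
      rw [e]
      have h2 : (range L).filter (fun j : ℕ => T (j : ℤ) x ∈ W) ⊆ A ∪ Ico (L - R) L := by
        intro j hj
        rw [mem_filter, mem_range] at hj
        rw [mem_union]
        by_cases h3 : j < L - R
        · left; rw [hA, mem_filter, mem_range]; exact ⟨h3, hj.2⟩
        · right; rw [mem_Ico]; omega
      have h3 := (card_le_card h2).trans (card_union_le _ _)
      rw [Nat.card_Ico] at h3
      have h4 : #((range L).filter (fun j : ℕ => T (j : ℤ) x ∈ W)) ≤ #A + R := by omega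
      exact_mod_cast h4
    have h2 : μ.real B ≤ μ.real W + η / 3 := by
      have h3 : B ⊆ W ∪ (B \ G) := by
        intro y hy
        by_cases hyG : y ∈ G
        · exact Or.inl ⟨hy, hyG⟩
        · exact Or.inr ⟨hy, hyG⟩
      exact (measureReal_mono h3).trans ((measureReal_union_le _ _).trans (add_le_add le_rfl hBG))
    have h3 : (μ.real B - η) * L ≤ L * (μ.real W - η / 6) - R := by
      have h4 : (μ.real B - η) * L ≤ (μ.real W + η / 3 - η) * L :=
        mul_le_mul_of_nonneg_right (by linarith) hL0.le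
      nlinarith
    linarith

end Pool.Agent.X114.PD
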