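import Pool.Agent.X114.PD.Irr
import Pool.Agent.X114.PD.Corr

/-! The residue classes of polynomial values, at the integers and at the primes. -/

set_option autoImplicit false

namespace Pool.Agent.X114.PD

open Finset Filter Topology Polynomial
open Pool.Agent.H373R2.NB
open Pool.Agent.Helper602.MK (ee)
open Pool.Agent.Helper602.MK.N_J5b (ee_add ee_zero ee_conj norm_ee ee_int)

theorem eval_ne_zero (h : ℤ[X]) (hh : h ≠ 0) : ∃ n₁ : ℕ, ∀ n : ℕ, n₁ ≤ n → h.eval (n : ℤ) ≠ 0 := by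
  classical
  refine ⟨∑ r ∈ h.roots.toFinset, r.natAbs + 1, fun n hn h0 => ?_⟩
  have h1 : (n : ℤ) ∈ h.roots.toFinset := by
    rw [Multiset.mem_toFinset, mem_roots hh]
    exact h0
  have h2 := single_le_sum (f := fun r : ℤ => r.natAbs) (fun _ _ => Nat.zero_le _) h1
  simp only [Int.natAbs_natCast] at h2
  omega

/-- Weyl's theorem for integer polynomials times an irrational number -/
theorem weyl_int (g : ℤ[X]) (hd : 1 ≤ g.natDegree) (θ : ℝ) (hθ : Irrational θ) :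
    Tendsto (fun N : ℕ => ((N : ℂ) + 1)⁻¹ * ∑ i ∈ range (N + 1), ee (θ * ((g.eval (i : ℤ) : ℤ) : ℝ)))
      atTop (𝓝 0) := by
  set d := g.natDegree with hd'
  rw [tendsto_zero_iff_norm_tendsto_zero, Metric.tendsto_atTop]
  intro ε hε
  obtain ⟨c, m, hc, hIW⟩ := IW_all d hd
  set α : ℝ := θ * ((d.factorial : ℝ) * (g.coeff d : ℤ)) with hα
  have hcoef : g.coeff d ≠ 0 := by
    have : g.leadingCoeff ≠ 0 := by
      rw [Ne, leadingCoeff_eq_zero]
      rintro rfl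
      rw [natDegree_zero] at hd'
      omega
    exact this
  have hαirr : Irrational α := by
    have e : α = θ * (((d.factorial : ℤ) * g.coeff d : ℤ) : ℝ) := by rw [hα]; push_cast; ring
    rw [e]
    refine hθ.mul_intCast ?_
    exact mul_ne_zero (by exact_mod_cast (Nat.factorial_pos d).ne') hcoef
  set u : ℝ := max 1 (1 / ε) with hu
  have hu1 : 1 ≤ u := le_max_left _ _
  have huε : 1 / ε ≤ u := le_max_right _ _
  obtain ⟨δ, hδ, hdist⟩ := dist_pos α hαirr (⌊(c : ℝ) * u ^ m⌋₊ + 1)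
  obtain ⟨N₀, hN₀⟩ := exists_nat_gt (c * u ^ m / δ)
  refine ⟨N₀, fun N hN => ?_⟩
  rw [Real.dist_eq, sub_zero, abs_of_nonneg (norm_nonneg _)]
  by_contra hcon
  push Not at hcon
  have hN1 : (0 : ℝ) < (N : ℝ) + 1 := by positivity
  have h1 : ε * ((N : ℝ) + 1) ≤ ‖∑ i ∈ range (N + 1), ee (θ * ((g.eval (i : ℤ) : ℤ) : ℝ))‖ := by
    rw [norm_mul, norm_inv] at hcon
    have e : ‖(N : ℂ) + 1‖ = (N : ℝ) + 1 := by
      have : (N : ℂ) + 1 = ((N + 1 : ℕ) : ℂ) := by push_cast; rfl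
      rw [this, Complex.norm_natCast]; push_cast; rfl
    rw [e, ← div_eq_inv_mul, le_div_iff₀ hN1] at hcon
    exact hcon
  obtain ⟨q, hq1, hq2, a, ha⟩ := hIW (N + 1) u α _ (by omega) hu1 (Ph_poly d g le_rfl θ) (by
    push_cast
    have h2 : (N : ℝ) + 1 ≤ 1 / ε * ‖∑ i ∈ range (N + 1), ee (θ * ((g.eval (i : ℤ) : ℤ) : ℝ))‖ := by
      rw [one_div, ← div_eq_inv_mul, le_div_iff₀ hε]; linarith
    exact h2.trans (mul_le_mul_of_nonneg_right huε (norm_nonneg _)))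
  have h3 := hdist q hq1 (by
    have : q ≤ ⌊(c : ℝ) * u ^ m⌋₊ := Nat.le_floor hq2
    omega) a
  have h4 : (N : ℝ) + 1 ≤ (((N + 1 : ℕ) : ℝ)) ^ d := by
    push_cast
    exact le_self_pow₀ (by linarith [show (0 : ℝ) ≤ N from Nat.cast_nonneg N]) (by omega)
  have h5 : c * u ^ m / (((N + 1 : ℕ) : ℝ)) ^ d ≤ c * u ^ m / ((N : ℝ) + 1) := by
    have : 0 ≤ (c : ℝ) * u ^ m := by positivity
    gcongr
  have h6 : δ ≤ c * u ^ m / ((N : ℝ) + 1) := h3.trans (ha.trans h5)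
  rw [le_div_iff₀ hN1] at h6
  rw [div_lt_iff₀ hδ] at hN₀
  have h7 : (N₀ : ℝ) ≤ N := by exact_mod_cast hN
  nlinarith

theorem good_int (h : ℤ[X]) (hd : 1 ≤ h.natDegree) (m : ℕ) (hm : 1 ≤ m) (n₀ : ℤ) :
    Good (Set.range fun n : ℤ => h.eval n) m (h.eval n₀) := by
  set g₁ : ℤ[X] := h.comp (C n₀ + C (m : ℤ) * X) with hg₁
  have hm0 : (m : ℤ) ≠ 0 := by omega
  have hlin : (C n₀ + C (m : ℤ) * X : ℤ[X]).natDegree = 1 := by
    rw [add_comm]; exact natDegree_linear hm0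
  have hg₁d : g₁.natDegree = h.natDegree := by
    rw [hg₁, natDegree_comp, hlin, mul_one]
  have hg₁0 : g₁ ≠ 0 := by
    intro h0
    rw [h0, natDegree_zero] at hg₁d
    omega
  obtain ⟨n₁, hn₁⟩ := eval_ne_zero g₁ hg₁0
  set g : ℤ[X] := g₁.comp (X + C (n₁ : ℤ)) with hg
  have hgd : g.natDegree = h.natDegree := by
    rw [hg, natDegree_comp, natDegree_X_add_C, mul_one, hg₁d]
  have hge : ∀ i : ℕ, g.eval (i : ℤ) = g₁.eval ((i + n₁ : ℕ) : ℤ) := by
    intro i; rw [hg, eval_comp]; simp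
  have hg₁e : ∀ z : ℤ, g₁.eval z = h.eval (n₀ + m * z) := by
    intro z; rw [hg₁, eval_comp]; simp
  refine ⟨fun N => range (N + 1), fun N _ => ((N : ℝ) + 1)⁻¹, fun i => g.eval (i : ℤ), ?_, ?_, ?_, ?_⟩
  · intro N i _; positivity
  · intro N i _
    beta_reduce
    rw [hge]
    refine ⟨?_, ?_, ?_⟩
    · rw [hg₁e]; exact ⟨_, rfl⟩
    · exact hn₁ _ (by omega)
    · rw [hg₁e]
      refine dvd_trans ?_ (sub_dvd_eval_sub _ _ h)
      exact ⟨((i + n₁ : ℕ) : ℤ), by ring⟩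
  · intro N
    rw [sum_const, card_range, nsmul_eq_mul]
    push_cast
    exact mul_inv_cancel₀ (by positivity)
  · intro θ hθ
    have := weyl_int g (by omega) θ hθ
    refine this.congr fun N => ?_
    rw [mul_sum]
    refine sum_congr rfl fun i _ => ?_
    push_cast
    congr 2
    ring

/-- the total weight of the primes in a class -/
theorem weight_lower (m : ℕ) (hm : 1 ≤ m) (r : ℕ) (hr : Nat.Coprime r m) : ∃ (c : ℝ) (N₁ : ℕ), 0 < c ∧
    ∀ N : ℕ, N₁ ≤ N → 1 ≤ N ∧ c * N ≤ ∑ k ∈ (Ioc N (2 * N)).filter (fun k => k ≡ r [MOD m]), pl k := by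
  classical
  obtain ⟨n₁, h1⟩ := block 1 1
  have hφ0 : (0 : ℝ) < m.totient := by exact_mod_cast Nat.totient_pos.2 hm
  obtain ⟨n₂, h2⟩ := growth2 1 (m + 2 * m.totient)
  refine ⟨1 / (2 * m.totient), max n₁ n₂, by positivity, fun N hN => ?_⟩
  obtain ⟨h16, hlc, hgr, hN1⟩ := h2 N ((le_max_right _ _).trans hN)
  refine ⟨hN1, ?_⟩
  have hNr : (1 : ℝ) ≤ N := by exact_mod_cast hN1
  have hN0 : (0 : ℝ) < N := by linarith
  have : NeZero m := ⟨by omega⟩
  set ℓ := Real.log N with hℓ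
  have hℓ0 : 0 < ℓ := by linarith
  have hmN : m ≤ N := by
    have h3 : (m : ℝ) ≤ N := by
      have h4 : (m : ℝ) ≤ ℓ := by
        have : (0 : ℝ) < 2 * m.totient := by positivity
        linarith
      have h5 : ℓ ≤ N := by
        have := Real.log_le_sub_one_of_pos hN0
        linarith
      linarith
    exact_mod_cast h3
  have hb := h1 N ((le_max_left _ _).trans hN) m (by rw [pow_one, ← hℓ]; linarith)
    (fun b => if b = (r : ZMod m) then 1 else 0) (by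
      intro b; split_ifs
      · rw [norm_one]
      · rw [norm_zero]; exact zero_le_one) N (2 * N) le_rfl (by omega) le_rfl
  have hG : Gs m (fun b => if b = (r : ZMod m) then (1 : ℂ) else 0) = 1 := by
    unfold Gs
    have hu : IsUnit (r : ZMod m) := (ZMod.isUnit_iff_coprime r m).2 hr
    obtain ⟨b₀, hb₀⟩ := hu
    rw [sum_eq_single b₀]
    · beta_reduce; rw [if_pos hb₀]
    · intro b _ hne
      beta_reduce
      rw [if_neg]
      intro h; exact hne (Units.ext (h.trans hb₀.symm))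
    · intro h; exact absurd (mem_univ _) h
  rw [hG] at hb
  have hsum : ∑ k ∈ Ioc N (2 * N), (pl k : ℂ) * (if IsUnit (k : ZMod m) then
      (if (k : ZMod m) = (r : ZMod m) then (1 : ℂ) else 0) else 0) =
      ((∑ k ∈ (Ioc N (2 * N)).filter (fun k => k ≡ r [MOD m]), pl k : ℝ) : ℂ) := by
    rw [sum_filter]
    push_cast
    refine sum_congr rfl fun k hk => ?_
    rw [mem_Ioc] at hk
    by_cases hkr : k ≡ r [MOD m]
    · have h3 : (k : ZMod m) = (r : ZMod m) := (ZMod.natCast_eq_natCast_iff k r m).2 hkr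
      have h4 : IsUnit (k : ZMod m) := by
        rw [h3]; exact (ZMod.isUnit_iff_coprime r m).2 hr
      rw [if_pos h4, if_pos h3, if_pos hkr]
      simp
    · have h3 : ¬ (k : ZMod m) = (r : ZMod m) := fun h => hkr ((ZMod.natCast_eq_natCast_iff k r m).1 h)
      rw [if_neg h3, if_neg hkr]
      simp
  rw [hsum] at hb
  set W : ℝ := ∑ k ∈ (Ioc N (2 * N)).filter (fun k => k ≡ r [MOD m]), pl k with hW
  have e : (W : ℂ) - 1 / (m.totient : ℂ) * (((2 * N : ℕ) : ℂ) - (N : ℂ)) =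
      ((W - N / m.totient : ℝ) : ℂ) := by
    push_cast; ring
  rw [e, Complex.norm_real, Real.norm_eq_abs, pow_one, ← hℓ] at hb
  have h3 := (abs_le.1 hb).1
  have h4 : (N : ℝ) / ℓ ≤ N / (2 * m.totient) := by
    apply div_le_div_of_nonneg_left hN0.le (by positivity)
    have : (0 : ℝ) ≤ m := Nat.cast_nonneg m
    linarith
  have e2 : 1 / (2 * (m.totient : ℝ)) * N = N / m.totient - N / (2 * m.totient) := by
    field_simp; ring
  rw [e2]
  linarith

theorem good_prime (h : ℤ[X]) (hd : 1 ≤ h.natDegree) (m : ℕ) (hm : 1 ≤ m) (p₀ : ℕ)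
    (hp₀ : Nat.Coprime p₀ m) :
    Good {k : ℤ | ∃ p : ℕ, p.Prime ∧ h.eval (p : ℤ) = k} m (h.eval (p₀ : ℤ)) := by
  classical
  have hh0 : h ≠ 0 := by
    rintro rfl
    rw [natDegree_zero] at hd; omega
  obtain ⟨n₁, hn₁⟩ := eval_ne_zero h hh0
  obtain ⟨c, n₂, hc, hw⟩ := weight_lower m hm p₀ hp₀
  set n₃ := max n₁ n₂ with hn₃
  set S : ℕ → Finset ℕ := fun N =>
    ((Ioc (N + n₃) (2 * (N + n₃))).filter (fun k => k ≡ p₀ [MOD m])).filter Nat.Prime with hS
  set W : ℕ → ℝ := fun N =>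
    ∑ k ∈ (Ioc (N + n₃) (2 * (N + n₃))).filter (fun k => k ≡ p₀ [MOD m]), pl k with hW
  have hWpos : ∀ N, c * ((N + n₃ : ℕ) : ℝ) ≤ W N ∧ 0 < W N := by
    intro N
    obtain ⟨h1, h2⟩ := hw (N + n₃) (by omega)
    refine ⟨h2, lt_of_lt_of_le ?_ h2⟩
    have : (0 : ℝ) < ((N + n₃ : ℕ) : ℝ) := by exact_mod_cast h1
    positivity
  have hWS : ∀ N, W N = ∑ k ∈ S N, pl k := by
    intro N
    rw [hW, hS]
    simp only
    rw [sum_filter (p := Nat.Prime)]
    refine sum_congr rfl fun k _ => ?_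
    unfold pl
    split_ifs <;> rfl
  refine ⟨S, fun N k => pl k / W N, fun k => h.eval (k : ℤ), ?_, ?_, ?_, ?_⟩
  · intro N i _
    exact div_nonneg (pl_nonneg i) (hWpos N).2.le
  · intro N i hi
    rw [hS, mem_filter, mem_filter, mem_Ioc] at hi
    refine ⟨⟨i, hi.2, rfl⟩, hn₁ i (by omega), ?_⟩
    refine dvd_trans ?_ (sub_dvd_eval_sub _ _ h)
    exact (Nat.modEq_iff_dvd.1 hi.1.2.symm)
  · intro N
    rw [← sum_div, ← hWS, div_self (hWpos N).2.ne']
  · intro θ hθ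
    have hirr : ∀ ε : ℝ, 0 < ε → ∀ᶠ N : ℕ in atTop, ‖SP h m p₀ θ N (2 * N)‖ ≤ ε * N :=
      irr h hd m p₀ hm θ hθ
    have e : ∀ N, ∑ i ∈ S N, ((pl i / W N : ℝ) : ℂ) * ee (((h.eval (i : ℤ) : ℤ) : ℝ) * θ) =
        ((W N : ℝ) : ℂ)⁻¹ * SP h m p₀ θ (N + n₃) (2 * (N + n₃)) := by
      intro N
      unfold SP
      rw [mul_sum, hS]
      simp only
      rw [sum_filter, sum_filter]
      refine sum_congr rfl fun k _ => ?_
      by_cases h1 : k ≡ p₀ [MOD m]
      · by_cases h2 : k.Prime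
        · rw [if_pos h1, if_pos h2, if_pos h1, mul_comm θ]
          push_cast
          ring
        · have : pl k = 0 := by unfold pl; rw [if_neg h2]
          rw [if_pos h1, if_neg h2, this]; simp
      · rw [if_neg h1, if_neg h1]; simp
    simp_rw [e]
    rw [tendsto_zero_iff_norm_tendsto_zero, Metric.tendsto_atTop]
    intro ε hε
    obtain ⟨N₁, hN₁⟩ := eventually_atTop.1 (hirr (ε / 2 * c) (by positivity))
    refine ⟨N₁, fun N hN => ?_⟩
    rw [Real.dist_eq, sub_zero, abs_of_nonneg (norm_nonneg _), norm_mul, norm_inv, Complex.norm_real,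
      Real.norm_of_nonneg (hWpos N).2.le]
    have h1 := hN₁ (N + n₃) (by omega)
    obtain ⟨h2, h3⟩ := hWpos N
    rw [inv_mul_lt_iff₀ h3]
    calc ‖SP h m p₀ θ (N + n₃) (2 * (N + n₃))‖ ≤ ε / 2 * c * ((N + n₃ : ℕ) : ℝ) := h1
      _ = ε / 2 * (c * ((N + n₃ : ℕ) : ℝ)) := by ring
      _ ≤ ε / 2 * W N := by gcongr
      _ < W N * ε := by nlinarith

end Pool.Agent.X114.PD
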