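import Pool.Agent.X114.PD.Major

/-! Exponential sums over primes with a polynomial phase and an irrational factor. -/

set_option autoImplicit false

namespace Pool.Agent.X114.PD

open Finset Filter Topology Polynomial
open Pool.Agent.H373R2.NB
open Pool.Agent.Helper602.MK (ee)
open Pool.Agent.Helper602.MK.N_J5b (ee_add ee_zero ee_conj norm_ee ee_int)

theorem ee_nat_mul' (n : ℕ) (x : ℝ) : ee (n * x) = ee x ^ n :=
  Pool.Agent.Helper602.MK.N_J5b.ee_nat_mul n x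

theorem orth (m : ℕ) (hm : 1 ≤ m) (k r : ℕ) :
    ∑ j ∈ range m, ee (-(j * (r : ℝ) / m)) * ee (k * ((j : ℝ) / m)) =
      (m : ℂ) * (if k ≡ r [MOD m] then 1 else 0) := by
  have hm0 : (m : ℝ) ≠ 0 := by exact_mod_cast (by omega : m ≠ 0)
  have e1 : ∀ j ∈ range m, ee (-(j * (r : ℝ) / m)) * ee (k * ((j : ℝ) / m)) =
      ee (((k : ℝ) - r) / m) ^ j := by
    intro j _
    rw [← ee_add, ← ee_nat_mul']
    congr 1
    field_simp
    ring
  rw [sum_congr rfl e1]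
  by_cases hk : k ≡ r [MOD m]
  · rw [if_pos hk, mul_one]
    have h1 : (m : ℤ) ∣ (k : ℤ) - r := (Nat.modEq_iff_dvd.1 hk.symm)
    obtain ⟨z, hz⟩ := h1
    have e2 : ((k : ℝ) - r) / m = z := by
      rw [div_eq_iff hm0]
      have : ((k : ℤ) : ℝ) - ((r : ℤ) : ℝ) = ((m : ℤ) : ℝ) * z := by exact_mod_cast hz
      push_cast at this
      rw [this]; ring
    rw [e2, ee_int]
    simp
  · rw [if_neg hk, mul_zero]
    have hne : ee (((k : ℝ) - r) / m) ≠ 1 := by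
      intro h1
      obtain ⟨z, hz⟩ := (Pool.Agent.Helper602.MK.N_J5b.ee_eq_one_iff _).1 h1
      apply hk
      rw [div_eq_iff hm0] at hz
      apply Nat.ModEq.symm
      rw [Nat.modEq_iff_dvd]
      refine ⟨z, ?_⟩
      have : ((k : ℤ) : ℝ) - ((r : ℤ) : ℝ) = ((m : ℤ) : ℝ) * z := by push_cast; rw [hz]; ring
      exact_mod_cast this
    have h2 : ee (((k : ℝ) - r) / m) ^ m = 1 := by
      rw [← ee_nat_mul']
      have e3 : (m : ℝ) * (((k : ℝ) - r) / m) = (((k : ℤ) - r : ℤ) : ℝ) := by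
        push_cast; field_simp
      rw [e3, ee_int]
    have h3 := mul_geom_sum (ee (((k : ℝ) - r) / m)) m
    rw [h2, sub_self] at h3
    exact (mul_eq_zero.1 h3).resolve_left (sub_ne_zero.2 hne)

theorem lam_sub_pl (n : ℕ) : 0 ≤ ArithmeticFunction.vonMangoldt n - pl n := by
  unfold pl
  split_ifs with h
  · rw [ArithmeticFunction.vonMangoldt_apply_prime h, sub_self]
  · rw [sub_zero]; exact ArithmeticFunction.vonMangoldt_nonneg

theorem sum_lam_sub_pl (N N' : ℕ) (hN : 1 ≤ N) (hN' : N' ≤ 2 * N) :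
    ∑ n ∈ Ioc N N', (ArithmeticFunction.vonMangoldt n - pl n) ≤
      2 * √(2 * (N : ℝ)) * Real.log (2 * N) := by
  have h1 : ∑ n ∈ Ioc N N', (ArithmeticFunction.vonMangoldt n - pl n) ≤
      ∑ n ∈ Ioc 0 (2 * N), (ArithmeticFunction.vonMangoldt n - pl n) :=
    sum_le_sum_of_subset_of_nonneg (Ioc_subset_Ioc (Nat.zero_le _) hN')
      fun _ _ _ => lam_sub_pl _
  have h2 := Chebyshev.psi_sub_theta_le (x := ((2 * N : ℕ) : ℝ))
    (by exact_mod_cast (by omega : 1 ≤ 2 * N))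
  rw [Chebyshev.psi_sub_theta_eq_sum_not_prime, Nat.floor_natCast] at h2
  have h3 : ∑ n ∈ Ioc 0 (2 * N), (ArithmeticFunction.vonMangoldt n - pl n) =
      ∑ n ∈ Ioc 0 (2 * N) with ¬n.Prime, ArithmeticFunction.vonMangoldt n := by
    rw [sum_filter]
    refine sum_congr rfl fun n _ => ?_
    unfold pl
    by_cases h : n.Prime
    · rw [if_pos h, if_neg (not_not.2 h), ArithmeticFunction.vonMangoldt_apply_prime h, sub_self]
    · rw [if_neg h, if_pos h, sub_zero]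
  rw [← h3] at h2
  refine h1.trans (h2.trans (le_of_eq ?_))
  push_cast; rfl

/-- a large sum over primes in a residue class forces a rational approximation to the factor -/
theorem inverse_SP (h : ℤ[X]) (d : ℕ) (hd : 1 ≤ d) (hh : h.natDegree = d) (m r : ℕ) (hm : 1 ≤ m) :
    ∃ C N₀ : ℕ, ∀ N N' : ℕ, N₀ ≤ N → N ≤ N' → N' ≤ 2 * N → ∀ θ : ℝ,
    (N : ℝ) / Real.log N ≤ ‖SP h m r θ N N'‖ →
    ∃ q : ℕ, 1 ≤ q ∧ (q : ℝ) ≤ Real.log N ^ C ∧
      ∃ a : ℤ, |q * θ - a| ≤ Real.log N ^ C / (N : ℝ) ^ d := by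
  obtain ⟨C, n₁, h1⟩ := prime_inverse d hd 2
  set ad : ℕ := (h.coeff d).natAbs with had
  have hcoef : h.coeff d ≠ 0 := by
    rw [← hh]
    have : h.leadingCoeff ≠ 0 := by
      rw [Ne, leadingCoeff_eq_zero]
      rintro rfl
      rw [natDegree_zero] at hh
      omega
    exact this
  have had1 : 1 ≤ ad := by
    rw [had]; exact Int.natAbs_pos.2 hcoef
  obtain ⟨n₂, h2⟩ := growth2 3 (m * d.factorial * ad + 1)
  refine ⟨C + 1, max n₁ n₂, fun N N' hN hNN' hN' θ hbig => ?_⟩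
  obtain ⟨h16, hlc, hgr, hN1⟩ := h2 N ((le_max_right _ _).trans hN)
  have hNr : (1 : ℝ) ≤ N := by exact_mod_cast hN1
  have hN0 : (0 : ℝ) < N := by linarith
  set ℓ := Real.log N with hℓ
  have hℓ0 : 0 < ℓ := by linarith
  have hℓ1 : 1 ≤ ℓ := by linarith
  have hmr : (1 : ℝ) ≤ m := by exact_mod_cast hm
  have hm0 : (0 : ℝ) < m := by linarith
  have hfr : (1 : ℝ) ≤ d.factorial := by exact_mod_cast Nat.factorial_pos d
  have hadr : (1 : ℝ) ≤ ad := by exact_mod_cast had1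
  -- pass to the von Mangoldt function
  set LS : ℂ := ∑ k ∈ Ioc N N', ((ArithmeticFunction.vonMangoldt k : ℝ) : ℂ) *
    (if k ≡ r [MOD m] then ee (θ * ((h.eval (k : ℤ) : ℤ) : ℝ)) else 0) with hLS
  have hd1 : ‖LS - SP h m r θ N N'‖ ≤ 2 * √(2 * (N : ℝ)) * Real.log (2 * N) := by
    refine le_trans ?_ (sum_lam_sub_pl N N' hN1 hN')
    rw [hLS]
    unfold SP
    rw [← sum_sub_distrib]
    refine (norm_sum_le _ _).trans (sum_le_sum fun k _ => ?_)
    rw [← sub_mul, ← Complex.ofReal_sub, norm_mul, Complex.norm_real,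
      Real.norm_of_nonneg (lam_sub_pl k)]
    apply mul_le_of_le_one_right (lam_sub_pl k)
    split_ifs
    · rw [norm_ee]
    · rw [norm_zero]; exact zero_le_one
  have hd2 : 2 * √(2 * (N : ℝ)) * Real.log (2 * N) ≤ N / (2 * ℓ) := by
    have h3 : √(2 * (N : ℝ)) ≤ 3 / 2 * √(N : ℝ) := by
      rw [Real.sqrt_mul (by norm_num)]
      apply mul_le_mul_of_nonneg_right _ (Real.sqrt_nonneg _)
      rw [Real.sqrt_le_left (by norm_num)]
      norm_num
    have h4 : Real.log (2 * N) ≤ 2 * ℓ := by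
      rw [Real.log_mul (by norm_num) hN0.ne']
      have := Real.log_two_lt_d9
      linarith
    have hs := Real.mul_self_sqrt hN0.le
    have hs0 := Real.sqrt_nonneg (N : ℝ)
    rw [le_div_iff₀ (by positivity)]
    calc 2 * √(2 * (N : ℝ)) * Real.log (2 * N) * (2 * ℓ)
        ≤ 2 * (3 / 2 * √(N : ℝ)) * (2 * ℓ) * (2 * ℓ) := by
          gcongr
          exact Real.log_nonneg (by linarith)
      _ = √(N : ℝ) * (12 * ℓ ^ 2) := by ring
      _ ≤ √(N : ℝ) * ℓ ^ 3 := by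
          apply mul_le_mul_of_nonneg_left _ hs0
          rw [pow_succ ℓ 2]
          nlinarith [sq_nonneg ℓ]
      _ ≤ √(N : ℝ) * √(N : ℝ) := by gcongr
      _ = N := hs
  have hLSbig : N / (2 * ℓ) ≤ ‖LS‖ := by
    have h3 : ‖SP h m r θ N N'‖ ≤ ‖LS‖ + ‖LS - SP h m r θ N N'‖ := by
      have e : SP h m r θ N N' = LS - (LS - SP h m r θ N N') := by ring
      conv_lhs => rw [e]
      exact norm_sub_le _ _
    have e : (N : ℝ) / (2 * ℓ) = N / ℓ - N / (2 * ℓ) := by field_simp; norm_num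
    rw [e]
    linarith
  -- additive characters
  set T : ℕ → ℂ := fun j => ∑ k ∈ Ioc N N', ((ArithmeticFunction.vonMangoldt k : ℝ) : ℂ) *
    ee (θ * ((h.eval (k : ℤ) : ℤ) : ℝ) + k * ((j : ℝ) / m)) with hT
  have hexp : (m : ℂ) * LS = ∑ j ∈ range m, ee (-(j * (r : ℝ) / m)) * T j := by
    rw [hLS, hT, mul_sum]
    simp only [mul_sum]
    rw [sum_comm]
    refine sum_congr rfl fun k _ => ?_
    have e1 : ∀ j ∈ range m, ee (-(j * (r : ℝ) / m)) * (((ArithmeticFunction.vonMangoldt k : ℝ) : ℂ) *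
        ee (θ * ((h.eval (k : ℤ) : ℤ) : ℝ) + k * ((j : ℝ) / m))) =
        ((ArithmeticFunction.vonMangoldt k : ℝ) : ℂ) * ee (θ * ((h.eval (k : ℤ) : ℤ) : ℝ)) *
        (ee (-(j * (r : ℝ) / m)) * ee (k * ((j : ℝ) / m))) := by
      intro j _
      rw [ee_add]; ring
    rw [sum_congr rfl e1, ← mul_sum, orth m hm k r]
    by_cases hk : k ≡ r [MOD m]
    · rw [if_pos hk, if_pos hk]; ring
    · rw [if_neg hk, if_neg hk]; ring
  obtain ⟨j, hj, hTj⟩ : ∃ j ∈ range m, N / (2 * ℓ) ≤ ‖T j‖ := by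
    by_contra hcon
    push Not at hcon
    have h3 : (m : ℝ) * ‖LS‖ < m * (N / (2 * ℓ)) := by
      have e : (m : ℝ) * ‖LS‖ = ‖(m : ℂ) * LS‖ := by rw [norm_mul]; simp
      rw [e, hexp]
      calc ‖∑ j ∈ range m, ee (-(j * (r : ℝ) / m)) * T j‖
          ≤ ∑ j ∈ range m, ‖ee (-(j * (r : ℝ) / m)) * T j‖ := norm_sum_le _ _
        _ = ∑ j ∈ range m, ‖T j‖ := sum_congr rfl fun j _ => by rw [norm_mul, norm_ee, one_mul]
        _ < ∑ j ∈ range m, (N / (2 * ℓ) : ℝ) :=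
            sum_lt_sum_of_nonempty ⟨0, by rw [mem_range]; omega⟩ hcon
        _ = _ := by rw [sum_const, card_range, nsmul_eq_mul]
    have := lt_of_mul_lt_mul_left h3 hm0.le
    linarith
  -- apply the inverse theorem
  set ι : ℝ := if d = 1 then (j : ℝ) / m else 0 with hι
  have hph : Ph d (θ * ((d.factorial : ℝ) * (h.coeff d : ℤ)) + ι)
      (fun k : ℕ => θ * ((h.eval (k : ℤ) : ℤ) : ℝ) + k * ((j : ℝ) / m)) :=
    Ph_add d _ _ _ _ (Ph_poly d h hh.le θ) (Ph_lin _ d hd)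
  obtain ⟨q, hq1, hqC, a, ha⟩ := h1 N N' ((le_max_left _ _).trans hN) hNN' hN' _ _ hph (by
    refine le_trans ?_ hTj
    rw [← hℓ]
    apply div_le_div_of_nonneg_left hN0.le (by positivity)
    nlinarith)
  obtain ⟨z, hz⟩ : ∃ z : ℤ, (m : ℝ) * ι = z := by
    rw [hι]
    split_ifs
    · exact ⟨j, by push_cast; field_simp⟩
    · exact ⟨0, by simp⟩
  obtain ⟨s, hs⟩ : ∃ s : ℤ, (s = 1 ∨ s = -1) ∧ h.coeff d = s * ad := by
    rcases le_or_gt 0 (h.coeff d) with h0 | h0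
    · exact ⟨1, Or.inl rfl, by rw [had]; omega⟩
    · exact ⟨-1, Or.inr rfl, by rw [had]; omega⟩
  have hss : (s : ℝ) * s = 1 := by
    rcases hs.1 with h0 | h0 <;> rw [h0] <;> norm_num
  have hsabs : |(s : ℝ)| = 1 := by
    rcases hs.1 with h0 | h0 <;> rw [h0] <;> norm_num
  refine ⟨q * (m * d.factorial * ad), ?_, ?_, s * (m * a - q * z), ?_⟩
  · have := Nat.factorial_pos d
    exact Nat.one_le_iff_ne_zero.2 (by positivity)
  · push_cast
    rw [pow_succ]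
    apply mul_le_mul hqC _ (by positivity) (by positivity)
    linarith
  · have e1 : ((q * (m * d.factorial * ad) : ℕ) : ℝ) * θ - ((s * (m * a - q * z) : ℤ) : ℝ) =
        s * m * (q * (θ * ((d.factorial : ℝ) * (h.coeff d : ℤ)) + ι) - a) := by
      have e2 : ((h.coeff d : ℤ) : ℝ) = s * ad := by rw [hs.2]; push_cast; ring
      rw [e2]
      have e3 : (s : ℝ) * m * (q * (θ * ((d.factorial : ℝ) * (s * ad)) + ι) - a) =
        (s * s) * (m * d.factorial * ad * q * θ) + s * q * (m * ι) - s * m * a := by ring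
      rw [e3, hss, hz]
      push_cast; ring
    rw [e1, abs_mul, abs_mul, hsabs, one_mul, abs_of_pos hm0, pow_succ]
    have h5 : (m : ℝ) ≤ ℓ := by
      have : (m : ℝ) * 1 * 1 ≤ m * d.factorial * ad := by gcongr
      linarith
    calc (m : ℝ) * |q * (θ * ((d.factorial : ℝ) * (h.coeff d : ℤ)) + ι) - a|
        ≤ ℓ * (ℓ ^ C / (N : ℝ) ^ d) := mul_le_mul h5 ha (abs_nonneg _) hℓ0.le
      _ = _ := by ring

/-- the complete sums are small for large denominators -/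
theorem rt_small (h : ℤ[X]) (d : ℕ) (hd : 1 ≤ d) (hh : h.natDegree = d) (m r : ℕ) (hm : 1 ≤ m)
    (ε : ℝ) (hε : 0 < ε) : ∃ q₀ : ℕ, ∀ q : ℕ, q₀ ≤ q → ∀ a : ℤ, IsCoprime a (q : ℤ) →
      ‖rt h m r q a‖ ≤ ε := by
  obtain ⟨C, n₁, hinv⟩ := inverse_SP h d hd hh m r hm
  obtain ⟨n₂, hmaj⟩ := major h d hd hh.le m r hm (2 * C + 2)
  obtain ⟨n₃, hgr⟩ := growth2 (3 * C + 2) (2 / ε)
  set n₀ : ℕ := max n₁ (max n₂ (max n₃ 3)) with hn₀
  -- the size of q
  set M : ℕ := ⌈Real.log n₀⌉₊ + 2 with hM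
  refine ⟨(M + 1) ^ (2 * C + 2), fun q hq a hcop => ?_⟩
  by_contra hcon
  push Not at hcon
  -- t = q^(1/(2C+2))
  set t : ℝ := (q : ℝ) ^ (1 / ((2 * C + 2 : ℕ) : ℝ)) with ht
  have hq0 : (0 : ℝ) ≤ q := Nat.cast_nonneg q
  have htpow : t ^ (2 * C + 2) = q := by
    rw [ht, one_div]
    exact Real.rpow_inv_natCast_pow hq0 (by omega)
  have ht0 : 0 ≤ t := Real.rpow_nonneg hq0 _
  have htM : (M : ℝ) + 1 ≤ t := by
    have h1 : ((M : ℝ) + 1) ^ (2 * C + 2) ≤ t ^ (2 * C + 2) := by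
      rw [htpow]
      exact_mod_cast hq
    exact le_of_pow_le_pow_left₀ (by omega) ht0 h1
  have hM2 : (2 : ℝ) ≤ M := by
    have : 2 ≤ M := by omega
    exact_mod_cast this
  have ht2 : 3 ≤ t := by linarith
  set N : ℕ := ⌈Real.exp t⌉₊ with hN
  have hN1 : Real.exp t ≤ N := Nat.le_ceil _
  have hN2 : (N : ℝ) ≤ Real.exp t + 1 := (Nat.ceil_lt_add_one (Real.exp_pos t).le).le
  have hN0 : (0 : ℝ) < N := (Real.exp_pos t).trans_le hN1
  have hn₀N : n₀ ≤ N := by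
    have h3 : (0 : ℝ) < n₀ := by
      have : 3 ≤ n₀ := by
        rw [hn₀]
        exact (le_max_right _ _).trans ((le_max_right _ _).trans (le_max_right _ _))
      exact_mod_cast (by omega : 0 < n₀)
    have h4 : Real.log n₀ ≤ t := by
      have := Nat.le_ceil (Real.log n₀)
      have h5 : (M : ℝ) = (⌈Real.log n₀⌉₊ : ℝ) + 2 := by rw [hM]; push_cast; ring
      linarith
    have h5 : (n₀ : ℝ) ≤ N := by
      calc (n₀ : ℝ) = Real.exp (Real.log n₀) := (Real.exp_log h3).symm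
        _ ≤ Real.exp t := Real.exp_le_exp.2 h4
        _ ≤ N := hN1
    exact_mod_cast h5
  have e₁ : n₁ ≤ N := (le_max_left _ _).trans hn₀N
  have e₂ : n₂ ≤ N := ((le_max_left _ _).trans (le_max_right _ _)).trans hn₀N
  have e₃ : n₃ ≤ N := ((le_max_left _ _).trans ((le_max_right _ _).trans (le_max_right _ _))).trans hn₀N
  obtain ⟨h16, hlε, hgrN, hN1'⟩ := hgr N e₃
  set ℓ := Real.log N with hℓ
  have hℓ0 : 0 < ℓ := by linarith
  have hℓt : t ≤ ℓ := by rw [hℓ, Real.le_log_iff_exp_le hN0]; exact hN1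
  have hℓt2 : ℓ ≤ 2 * t := by
    have h3 : (N : ℝ) ≤ Real.exp (2 * t) := by
      have h4 : Real.exp (2 * t) = Real.exp t * Real.exp t := by rw [← Real.exp_add]; ring_nf
      have h5 : 2 ≤ Real.exp t := by
        have := Real.add_one_le_exp t
        linarith
      rw [h4]; nlinarith
    rw [hℓ, Real.log_le_iff_le_exp hN0]; exact h3
  have hq1 : 1 ≤ q := by
    have : 0 < (M + 1) ^ (2 * C + 2) := by positivity
    omega
  have hqℓ : (q : ℝ) ≤ ℓ ^ (2 * C + 2) := by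
    rw [← htpow]; exact pow_le_pow_left₀ ht0 hℓt _
  have hqr : (0 : ℝ) < q := by exact_mod_cast hq1
  have hNpos : (1 : ℝ) ≤ N := by exact_mod_cast hN1'
  -- the sum at the rational point
  have hm1 := hmaj N e₂ (2 * N) (by omega) le_rfl q hq1 hqℓ a ((a : ℝ) / q) (by
    rw [mul_div_cancel₀ _ hqr.ne', sub_self, abs_zero]; positivity)
  have e4 : ∑ k ∈ Ioc N (2 * N), ee (((a : ℝ) / q - a / q) * ((h.eval (k : ℤ) : ℤ) : ℝ)) = (N : ℂ) := by
    simp only [sub_self, zero_mul, ee_zero, sum_const, Nat.card_Ioc, nsmul_eq_mul, mul_one]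
    congr 1; omega
  rw [e4] at hm1
  have hbig : (N : ℝ) / ℓ ≤ ‖SP h m r ((a : ℝ) / q) N (2 * N)‖ := by
    have h3 : ‖rt h m r q a * (N : ℂ)‖ ≤ ‖SP h m r ((a : ℝ) / q) N (2 * N)‖ + N / ℓ := by
      have e : rt h m r q a * (N : ℂ) = SP h m r ((a : ℝ) / q) N (2 * N) -
        (SP h m r ((a : ℝ) / q) N (2 * N) - rt h m r q a * (N : ℂ)) := by ring
      rw [e]
      exact (norm_sub_le _ _).trans (by linarith)
    rw [norm_mul, Complex.norm_natCast] at h3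
    have h4 : 2 * (N / ℓ) ≤ ε * N := by
      rw [← mul_div_assoc, div_le_iff₀ hℓ0]
      have h5 : 2 ≤ ε * ℓ := by
        rw [div_le_iff₀ hε] at hlε; linarith
      nlinarith
    have h6 : ε * N ≤ ‖rt h m r q a‖ * N := by gcongr
    linarith
  obtain ⟨q₁, hq₁1, hq₁C, b, hb⟩ := hinv N (2 * N) e₁ (by omega) le_rfl _ hbig
  have hq₁q : (q₁ : ℝ) < q := by
    have h3 : ℓ ^ C ≤ (2 * t) ^ C := pow_le_pow_left₀ hℓ0.le hℓt2 C
    have h4 : (2 * t) ^ C ≤ (t * t) ^ C := pow_le_pow_left₀ (by linarith) (by nlinarith) C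
    have h5 : (t * t) ^ C < t ^ (2 * C + 2) := by
      rw [← pow_two, ← pow_mul]
      exact pow_lt_pow_right₀ (by linarith) (by omega)
    rw [← htpow]
    linarith
  have hlt : |(q₁ : ℝ) * (a / q) - b| < 1 / q := by
    refine hb.trans_lt ?_
    rw [div_lt_div_iff₀ (by positivity) hqr, one_mul]
    have h3 : ℓ ^ C * q ≤ √(N : ℝ) := by
      calc ℓ ^ C * q ≤ ℓ ^ C * ℓ ^ (2 * C + 2) := by gcongr
        _ = ℓ ^ (3 * C + 2) := by rw [← pow_add]; congr 1; ring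
        _ ≤ _ := hgrN
    have h4 : √(N : ℝ) < N := by
      rw [Real.sqrt_lt' hN0]
      have : (1 : ℝ) < N := by
        have h5 := Real.add_one_le_exp t
        linarith
      nlinarith
    have h5 : (N : ℝ) ≤ (N : ℝ) ^ d := le_self_pow₀ hNpos (by omega)
    linarith
  have hzero : (q₁ : ℤ) * a - b * q = 0 := by
    have h3 : |(((q₁ : ℤ) * a - b * q : ℤ) : ℝ)| < 1 := by
      have e : (((q₁ : ℤ) * a - b * q : ℤ) : ℝ) = ((q₁ : ℝ) * (a / q) - b) * q := by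
        push_cast; field_simp
      rw [e, abs_mul, abs_of_pos hqr]
      have h6 := mul_lt_mul_of_pos_right hlt hqr
      rwa [one_div, inv_mul_cancel₀ hqr.ne'] at h6
    have h4 : |(q₁ : ℤ) * a - b * q| < 1 := by exact_mod_cast h3
    exact Int.abs_lt_one_iff.1 h4
  have hdvd : (q : ℤ) ∣ q₁ := by
    have h3 : (q : ℤ) ∣ a * q₁ := ⟨b, by linarith⟩
    exact hcop.symm.dvd_of_dvd_mul_left h3
  have hle : (q : ℤ) ≤ q₁ := Int.le_of_dvd (by omega) hdvd
  have : (q : ℝ) ≤ q₁ := by exact_mod_cast hle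
  linarith

theorem dist_pos (θ : ℝ) (hθ : Irrational θ) (q₀ : ℕ) : ∃ δ : ℝ, 0 < δ ∧ ∀ q : ℕ, 1 ≤ q → q < q₀ →
    ∀ a : ℤ, δ ≤ |q * θ - a| := by
  induction q₀ with
  | zero => exact ⟨1, one_pos, fun q h1 h2 => by omega⟩
  | succ n ih =>
    obtain ⟨δ, hδ, h⟩ := ih
    rcases Nat.eq_zero_or_pos n with h0 | h0
    · subst h0
      exact ⟨1, one_pos, fun q h1 h2 => by omega⟩
    have hirr : Irrational ((n : ℝ) * θ) := hθ.natCast_mul (by omega)
    set δ' := |(n : ℝ) * θ - round ((n : ℝ) * θ)| with hδ'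
    have hpos : 0 < δ' := by
      rw [hδ', abs_pos, sub_ne_zero]
      exact hirr.ne_int _
    refine ⟨min δ δ', lt_min hδ hpos, fun q h1 h2 a => ?_⟩
    rcases Nat.lt_succ_iff_lt_or_eq.1 h2 with h3 | h3
    · exact (min_le_left _ _).trans (h q h1 h3 a)
    · subst h3
      exact (min_le_right _ _).trans (round_le _ a)

/-- **Sums over primes in a residue class with a polynomial phase and an irrational factor** -/
theorem irr (h : ℤ[X]) (hd : 1 ≤ h.natDegree) (m r : ℕ) (hm : 1 ≤ m) (θ : ℝ) (hθ : Irrational θ)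
    (ε : ℝ) (hε : 0 < ε) : ∀ᶠ N : ℕ in atTop, ‖SP h m r θ N (2 * N)‖ ≤ ε * N := by
  set d := h.natDegree with hd'
  obtain ⟨C, n₁, hinv⟩ := inverse_SP h d hd rfl m r hm
  obtain ⟨n₂, hmaj⟩ := major h d hd le_rfl m r hm C
  obtain ⟨q₀, hrt⟩ := rt_small h d hd rfl m r hm (ε / 2) (by positivity)
  obtain ⟨δ, hδ, hdist⟩ := dist_pos θ hθ q₀
  obtain ⟨n₃, hgr⟩ := growth2 C (2 / ε)
  obtain ⟨n₄, h4⟩ : ∃ n₄ : ℕ, ∀ N : ℕ, n₄ ≤ N → 1 / δ < √(N : ℝ) := by
    have t : Tendsto (fun N : ℕ => √(N : ℝ)) atTop atTop :=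
      Real.tendsto_sqrt_atTop.comp tendsto_natCast_atTop_atTop
    exact eventually_atTop.1 (t.eventually_gt_atTop (1 / δ))
  rw [eventually_atTop]
  refine ⟨max (max n₁ n₂) (max n₃ n₄), fun N hN => ?_⟩
  have e₁ : n₁ ≤ N := ((le_max_left _ _).trans (le_max_left _ _)).trans hN
  have e₂ : n₂ ≤ N := ((le_max_right _ _).trans (le_max_left _ _)).trans hN
  have e₃ : n₃ ≤ N := ((le_max_left _ _).trans (le_max_right _ _)).trans hN
  have e₄ : n₄ ≤ N := ((le_max_right _ _).trans (le_max_right _ _)).trans hN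
  obtain ⟨h16, hlε, hgrN, hN1⟩ := hgr N e₃
  have hNδ := h4 N e₄
  have hNr : (1 : ℝ) ≤ N := by exact_mod_cast hN1
  have hN0 : (0 : ℝ) < N := by linarith
  set ℓ := Real.log N with hℓ
  have hℓ0 : 0 < ℓ := by linarith
  have hNℓ : N / ℓ ≤ ε / 2 * N := by
    rw [div_le_iff₀ hℓ0]
    have h5 : 2 ≤ ε * ℓ := by rw [div_le_iff₀ hε] at hlε; linarith
    nlinarith
  by_contra hcon
  push Not at hcon
  have hbig : (N : ℝ) / ℓ ≤ ‖SP h m r θ N (2 * N)‖ := by
    have : 0 < ε * N := by positivity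
    linarith
  obtain ⟨q, hq1, hqC, a, ha⟩ := hinv N (2 * N) e₁ (by omega) le_rfl θ hbig
  -- lowest terms
  set g : ℕ := Int.gcd a q with hg
  have hg0 : 0 < g := Int.gcd_pos_of_ne_zero_right a (by omega)
  obtain ⟨a', ha'⟩ : (g : ℤ) ∣ a := Int.gcd_dvd_left a q
  obtain ⟨q'z, hq'z⟩ : (g : ℤ) ∣ (q : ℤ) := Int.gcd_dvd_right a q
  have hgz : (0 : ℤ) < g := by exact_mod_cast hg0
  have hq'pos : 0 < q'z := by
    have : 0 < (g : ℤ) * q'z := by rw [← hq'z]; omega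
    exact (mul_pos_iff_of_pos_left hgz).1 this
  obtain ⟨q', rfl⟩ : ∃ q' : ℕ, q'z = q' := ⟨q'z.toNat, by omega⟩
  have hq'1 : 1 ≤ q' := by omega
  have hqg : q = g * q' := by exact_mod_cast hq'z
  have hcop : IsCoprime a' (q' : ℤ) := by
    rw [Int.isCoprime_iff_gcd_eq_one]
    have h5 : Int.gcd ((g : ℤ) * a') ((g : ℤ) * q') = g := by rw [← ha', ← hq'z]
    rw [Int.gcd_mul_left, Int.natAbs_natCast] at h5
    exact Nat.eq_of_mul_eq_mul_left hg0 (by rw [h5, mul_one])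
  have hgr1 : (1 : ℝ) ≤ g := by exact_mod_cast hg0
  have hq'q : (q' : ℝ) ≤ q := by
    rw [hqg]; push_cast
    nlinarith [show (0 : ℝ) ≤ q' from Nat.cast_nonneg q']
  have ha2 : |(q' : ℝ) * θ - a'| ≤ ℓ ^ C / (N : ℝ) ^ d := by
    refine le_trans ?_ ha
    have e : (q : ℝ) * θ - a = g * (q' * θ - a') := by
      rw [hqg, ha']; push_cast; ring
    rw [e, abs_mul, abs_of_pos (show (0 : ℝ) < g by linarith)]
    exact le_mul_of_one_le_left (abs_nonneg _) hgr1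
  have hsmall : ℓ ^ C / (N : ℝ) ^ d < δ := by
    have h5 : (N : ℝ) ≤ (N : ℝ) ^ d := le_self_pow₀ hNr (by omega)
    have h6 : ℓ ^ C / (N : ℝ) ^ d ≤ √(N : ℝ) / N := by gcongr
    have h7 : √(N : ℝ) / N < δ := by
      have hs0 : 0 < √(N : ℝ) := Real.sqrt_pos.2 hN0
      have hs := Real.mul_self_sqrt hN0.le
      rw [div_lt_iff₀ hN0]
      rw [div_lt_iff₀ hδ] at hNδ
      calc √(N : ℝ) = √(N : ℝ) * 1 := by ring
        _ < √(N : ℝ) * (√(N : ℝ) * δ) := by gcongr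
        _ = δ * N := by rw [← mul_assoc, hs]; ring
    linarith
  rcases lt_or_ge q' q₀ with h5 | h5
  · have := hdist q' hq'1 h5 a'
    linarith
  · have h6 := hrt q' h5 a' hcop
    have h7 := hmaj N e₂ (2 * N) (by omega) le_rfl q' hq'1 (hq'q.trans hqC) a' θ ha2
    have h8 : ‖∑ k ∈ Ioc N (2 * N), ee ((θ - a' / q') * ((h.eval (k : ℤ) : ℤ) : ℝ))‖ ≤ N := by
      refine (norm_sum_le _ _).trans ?_
      simp only [norm_ee, sum_const, Nat.card_Ioc, nsmul_eq_mul, mul_one]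
      exact le_of_eq (by congr 1; omega)
    have h9 : ‖SP h m r θ N (2 * N)‖ ≤ ‖rt h m r q' a'‖ * N + N / ℓ := by
      have e : SP h m r θ N (2 * N) = rt h m r q' a' *
        ∑ k ∈ Ioc N (2 * N), ee ((θ - a' / q') * ((h.eval (k : ℤ) : ℤ) : ℝ)) +
        (SP h m r θ N (2 * N) - rt h m r q' a' *
        ∑ k ∈ Ioc N (2 * N), ee ((θ - a' / q') * ((h.eval (k : ℤ) : ℤ) : ℝ))) := by ring
      rw [e]
      refine (norm_add_le _ _).trans (add_le_add ?_ h7)
      rw [norm_mul]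
      exact mul_le_mul_of_nonneg_left h8 (norm_nonneg _)
    have h10 : ‖rt h m r q' a'‖ * N ≤ ε / 2 * N := by gcongr
    linarith

end Pool.Agent.X114.PD
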