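import Pool.Agent.X114.PD.SW

/-! Exponential sums over primes in a residue class with a polynomial phase and an irrational
factor are of smaller order than the number of terms. -/

set_option autoImplicit false

namespace Pool.Agent.X114.PD

open Finset Filter Topology Polynomial
open Pool.Agent.H373R2.NB
open Pool.Agent.Helper602.MK (ee)
open Pool.Agent.Helper602.MK.N_J5b (ee_add ee_zero ee_conj norm_ee ee_int)

/-- the sum over the primes -/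
noncomputable def SP (h : ℤ[X]) (m r : ℕ) (θ : ℝ) (N N' : ℕ) : ℂ :=
  ∑ k ∈ Ioc N N', (pl k : ℂ) * (if k ≡ r [MOD m] then ee (θ * ((h.eval (k : ℤ) : ℤ) : ℝ)) else 0)

theorem abel (c w : ℕ → ℂ) (a b : ℕ) (hab : a ≤ b) (E : ℝ)
    (hE : ∀ t, a ≤ t → t ≤ b → ‖∑ k ∈ Ioc a t, c k‖ ≤ E) :
    ‖∑ k ∈ Ioc a b, c k * w k‖ ≤ E * (‖w b‖ + ∑ k ∈ Ico a b, ‖w (k + 1) - w k‖) := by
  have key : ∀ t, a ≤ t → t ≤ b → ‖∑ k ∈ Ioc a t, c k * w k - (∑ k ∈ Ioc a t, c k) * w t‖ ≤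
      E * ∑ k ∈ Ico a t, ‖w (k + 1) - w k‖ := by
    intro t hat
    induction t, hat using Nat.le_induction with
    | base => intro _; simp
    | succ t hat ih =>
      intro htb
      have h1 := ih (by omega)
      rw [sum_Ioc_succ_top hat, sum_Ioc_succ_top hat, sum_Ico_succ_top hat]
      have e : ∑ k ∈ Ioc a t, c k * w k + c (t + 1) * w (t + 1) -
          (∑ k ∈ Ioc a t, c k + c (t + 1)) * w (t + 1) =
          (∑ k ∈ Ioc a t, c k * w k - (∑ k ∈ Ioc a t, c k) * w t) -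
          (∑ k ∈ Ioc a t, c k) * (w (t + 1) - w t) := by ring
      rw [e, mul_add]
      refine (norm_sub_le _ _).trans (add_le_add h1 ?_)
      rw [norm_mul]
      exact mul_le_mul_of_nonneg_right (hE t hat (by omega)) (norm_nonneg _)
  have h1 := key b hab le_rfl
  have h2 := hE b hab le_rfl
  have e : ∑ k ∈ Ioc a b, c k * w k = (∑ k ∈ Ioc a b, c k) * w b +
    (∑ k ∈ Ioc a b, c k * w k - (∑ k ∈ Ioc a b, c k) * w b) := by ring
  rw [e, mul_add]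
  refine (norm_add_le _ _).trans (add_le_add ?_ h1)
  rw [norm_mul]
  exact mul_le_mul_of_nonneg_right h2 (norm_nonneg _)

theorem diff_bound (h : ℤ[X]) (d : ℕ) (hd : 1 ≤ d) (hh : h.natDegree ≤ d) :
    ∃ c : ℕ, ∀ k : ℕ, 1 ≤ k →
      |((h.eval ((k + 1 : ℕ) : ℤ) : ℤ) : ℝ) - ((h.eval (k : ℤ) : ℤ) : ℝ)| ≤ c * (k : ℝ) ^ (d - 1) := by
  refine ⟨∑ i ∈ range (d + 1), (h.coeff i).natAbs * (d * 2 ^ d), fun k hk => ?_⟩
  have hk1 : (1 : ℝ) ≤ k := by exact_mod_cast hk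
  have e1 : ∀ x : ℤ, ((h.eval x : ℤ) : ℝ) = ∑ i ∈ range (d + 1), (h.coeff i : ℝ) * (x : ℝ) ^ i := by
    intro x
    rw [eval_eq_sum_range' (Nat.lt_succ_of_le hh)]
    push_cast; rfl
  rw [e1, e1, ← sum_sub_distrib]
  refine (abs_sum_le_sum_abs _ _).trans ?_
  push_cast
  rw [sum_mul]
  refine sum_le_sum fun i hi => ?_
  rw [mem_range] at hi
  rw [← mul_sub, abs_mul]
  have h1 : |((k : ℝ) + 1) ^ i - (k : ℝ) ^ i| ≤ d * 2 ^ d * (k : ℝ) ^ (d - 1) := by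
    have h2 : (k : ℝ) ^ i ≤ ((k : ℝ) + 1) ^ i := pow_le_pow_left₀ (by linarith) (by linarith) i
    rw [abs_of_nonneg (by linarith)]
    refine (pow_sub_le (by linarith) (by linarith) i).trans ?_
    have h3 : ((k : ℝ) + 1) ^ (i - 1) ≤ (2 * k) ^ (i - 1) :=
      pow_le_pow_left₀ (by linarith) (by linarith) _
    have h4 : (2 * (k : ℝ)) ^ (i - 1) ≤ (2 * k) ^ (d - 1) :=
      pow_le_pow_right₀ (by linarith) (by omega)
    have h5 : (2 * (k : ℝ)) ^ (d - 1) ≤ 2 ^ d * (k : ℝ) ^ (d - 1) := by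
      rw [mul_pow]
      have : (2 : ℝ) ^ (d - 1) ≤ 2 ^ d := pow_le_pow_right₀ (by norm_num) (by omega)
      gcongr
    have h6 : (i : ℝ) ≤ d := by exact_mod_cast (by omega : i ≤ d)
    have h7 : ((k : ℝ) + 1) ^ (i - 1) ≤ 2 ^ d * (k : ℝ) ^ (d - 1) := h3.trans (h4.trans h5)
    have e : (k : ℝ) + 1 - k = 1 := by ring
    rw [e, mul_one, mul_assoc]
    exact mul_le_mul h6 h7 (by positivity) (by positivity)
  have h2 : |(h.coeff i : ℝ)| = ((h.coeff i).natAbs : ℝ) := by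
    rw [Nat.cast_natAbs]; push_cast; rfl
  rw [h2]
  calc ((h.coeff i).natAbs : ℝ) * |((k : ℝ) + 1) ^ i - (k : ℝ) ^ i|
      ≤ (h.coeff i).natAbs * (d * 2 ^ d * (k : ℝ) ^ (d - 1)) := by gcongr
    _ = _ := by ring

/-- the periodic weight of a rational frequency -/
noncomputable def Fq (h : ℤ[X]) (m r q : ℕ) (a : ℤ) : ZMod (q * m) → ℂ := fun b =>
  if b.val ≡ r [MOD m] then ee ((a : ℝ) / q * ((h.eval (b.val : ℤ) : ℤ) : ℝ)) else 0

/-- the normalised complete sum over the reduced residues -/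
noncomputable def rt (h : ℤ[X]) (m r q : ℕ) (a : ℤ) : ℂ :=
  if hq : q * m ≠ 0 then
    (haveI : NeZero (q * m) := ⟨hq⟩; Gs (q * m) (Fq h m r q a) / ((q * m).totient : ℂ)) else 0

theorem Fq_norm (h : ℤ[X]) (m r q : ℕ) (a : ℤ) (b : ZMod (q * m)) : ‖Fq h m r q a b‖ ≤ 1 := by
  unfold Fq
  split_ifs
  · rw [norm_ee]
  · rw [norm_zero]; exact zero_le_one

theorem Fq_nat (h : ℤ[X]) (m r q : ℕ) (hq : 1 ≤ q) (a : ℤ) (k : ℕ) :
    Fq h m r q a (k : ZMod (q * m)) =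
      if k ≡ r [MOD m] then ee ((a : ℝ) / q * ((h.eval (k : ℤ) : ℤ) : ℝ)) else 0 := by
  unfold Fq
  rw [ZMod.val_natCast]
  have h1 : k % (q * m) ≡ k [MOD m] := by
    have := Nat.mod_modEq k (q * m)
    exact this.of_mul_left q
  have h2 : (k % (q * m) ≡ r [MOD m]) ↔ (k ≡ r [MOD m]) :=
    ⟨fun h => h1.symm.trans h, fun h => h1.trans h⟩
  by_cases hk : k ≡ r [MOD m]
  · rw [if_pos hk, if_pos (h2.2 hk)]
    have h3 : (q : ℤ) ∣ h.eval (k : ℤ) - h.eval ((k % (q * m) : ℕ) : ℤ) := by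
      refine dvd_trans ?_ (Polynomial.sub_dvd_eval_sub _ _ h)
      have h4 : ((k % (q * m) : ℕ) : ℤ) = (k : ℤ) - (q * m : ℕ) * (k / (q * m) : ℕ) := by
        have := Nat.mod_add_div k (q * m)
        push_cast
        have h5 : ((k % (q * m) + q * m * (k / (q * m)) : ℕ) : ℤ) = k := by rw [this]
        push_cast at h5
        linarith
      rw [h4]
      refine ⟨m * (k / (q * m) : ℕ), ?_⟩
      push_cast; ring
    obtain ⟨z, hz⟩ := h3
    have hq0 : (q : ℝ) ≠ 0 := by exact_mod_cast (by omega : q ≠ 0)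
    have h5 : ((h.eval (k : ℤ) : ℤ) : ℝ) = ((h.eval ((k % (q * m) : ℕ) : ℤ) : ℤ) : ℝ) + q * z := by
      have : h.eval (k : ℤ) = h.eval ((k % (q * m) : ℕ) : ℤ) + q * z := by linarith
      rw [this]; push_cast; ring
    rw [h5]
    have h6 : (a : ℝ) / q * (((h.eval ((k % (q * m) : ℕ) : ℤ) : ℤ) : ℝ) + q * z) =
        (a : ℝ) / q * ((h.eval ((k % (q * m) : ℕ) : ℤ) : ℤ) : ℝ) + ((a * z : ℤ) : ℝ) := by
      push_cast; field_simp
    rw [h6, ee_add_int]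
  · rw [if_neg hk, if_neg (fun h => hk (h2.1 h))]

theorem growth2 (K : ℕ) (c : ℝ) : ∃ N₀ : ℕ, ∀ N : ℕ, N₀ ≤ N →
    16 ≤ Real.log N ∧ c ≤ Real.log N ∧ Real.log N ^ K ≤ √(N : ℝ) ∧ 1 ≤ N := by
  obtain ⟨n₁, h1⟩ := growth K
  have t2 : Tendsto (fun N : ℕ => Real.log (N : ℝ)) atTop atTop :=
    Real.tendsto_log_atTop.comp tendsto_natCast_atTop_atTop
  obtain ⟨n₂, h2⟩ := eventually_atTop.1 (t2.eventually_ge_atTop c)
  refine ⟨max n₁ (max n₂ 1), fun N hN => ?_⟩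
  obtain ⟨g1, g2⟩ := h1 N ((le_max_left _ _).trans hN)
  exact ⟨g1, h2 N (((le_max_left _ _).trans (le_max_right _ _)).trans hN), g2,
    ((le_max_right _ _).trans (le_max_right _ _)).trans hN⟩

theorem major (h : ℤ[X]) (d : ℕ) (hd : 1 ≤ d) (hh : h.natDegree ≤ d) (m r : ℕ) (hm : 1 ≤ m) (C : ℕ) :
    ∃ N₁ : ℕ, ∀ N : ℕ, N₁ ≤ N → ∀ N' : ℕ, N ≤ N' → N' ≤ 2 * N → ∀ q : ℕ, 1 ≤ q →
    (q : ℝ) ≤ Real.log N ^ C → ∀ (a : ℤ) (θ : ℝ), |q * θ - a| ≤ Real.log N ^ C / (N : ℝ) ^ d →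
    ‖SP h m r θ N N' - rt h m r q a *
      ∑ k ∈ Ioc N N', ee ((θ - a / q) * ((h.eval (k : ℤ) : ℤ) : ℝ))‖ ≤ N / Real.log N := by
  classical
  obtain ⟨c, hc⟩ := diff_bound h d hd hh
  obtain ⟨n₁, h1⟩ := block (C + 3) (C + 1)
  obtain ⟨n₂, h2⟩ := growth2 (C + 1) (m + 1 + 7 * c * 2 ^ d)
  refine ⟨max n₁ n₂, fun N hN N' hNN' hN' q hq hqC a θ hθ => ?_⟩
  obtain ⟨h16, hlc, hgr, hN1⟩ := h2 N ((le_max_right _ _).trans hN)
  have hblock := h1 N ((le_max_left _ _).trans hN)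
  have hNr : (1 : ℝ) ≤ N := by exact_mod_cast hN1
  have hN0 : (0 : ℝ) < N := by linarith
  set ℓ := Real.log N with hℓ
  have hℓ0 : 0 < ℓ := by linarith
  have hℓ1 : 1 ≤ ℓ := by linarith
  have hmr : (1 : ℝ) ≤ m := by exact_mod_cast hm
  have hqr : (1 : ℝ) ≤ q := by exact_mod_cast hq
  have hc0 : (0 : ℝ) ≤ c := Nat.cast_nonneg c
  have h2d : (1 : ℝ) ≤ 2 ^ d := one_le_pow₀ (by norm_num)
  have hml : (m : ℝ) ≤ ℓ := by
    have : 0 ≤ 7 * (c : ℝ) * 2 ^ d := by positivity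
    linarith
  have hQ0 : q * m ≠ 0 := by positivity
  have : NeZero (q * m) := ⟨hQ0⟩
  have hQ : ((q * m : ℕ) : ℝ) ≤ ℓ ^ (C + 1) := by
    push_cast; rw [pow_succ]
    exact mul_le_mul hqC hml (by positivity) (by positivity)
  have hQN : q * m ≤ N := by
    have h3 : ((q * m : ℕ) : ℝ) ≤ N := by
      refine hQ.trans (hgr.trans ?_)
      rw [Real.sqrt_le_left hN0.le]; nlinarith
    exact_mod_cast h3
  have hrt : rt h m r q a = Gs (q * m) (Fq h m r q a) / ((q * m).totient : ℂ) := by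
    unfold rt; rw [dif_pos hQ0]
  set g : ℂ := rt h m r q a with hg
  set β : ℝ := θ - a / q with hβ
  set w : ℕ → ℂ := fun k => ee (β * ((h.eval (k : ℤ) : ℤ) : ℝ)) with hw
  set F' : ℕ → ℂ := fun k => (pl k : ℂ) *
    (if IsUnit (k : ZMod (q * m)) then Fq h m r q a k else 0) with hF'
  have hprime : ∀ k ∈ Ioc N N', F' k = (pl k : ℂ) *
      (if k ≡ r [MOD m] then ee ((a : ℝ) / q * ((h.eval (k : ℤ) : ℤ) : ℝ)) else 0) := by
    intro k hk
    rw [mem_Ioc] at hk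
    simp only [hF']
    by_cases hp : k.Prime
    · have hu : IsUnit (k : ZMod (q * m)) := by
        rw [ZMod.isUnit_iff_coprime, Nat.Prime.coprime_iff_not_dvd hp]
        intro hdv
        have := Nat.le_of_dvd (Nat.pos_of_ne_zero hQ0) hdv
        omega
      rw [if_pos hu, Fq_nat h m r q hq a k]
    · have : pl k = 0 := by unfold pl; rw [if_neg hp]
      rw [this]; simp
  have hSP : SP h m r θ N N' = ∑ k ∈ Ioc N N', F' k * w k := by
    unfold SP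
    refine sum_congr rfl fun k hk => ?_
    rw [hprime k hk, mul_assoc]
    congr 1
    simp only [hw]
    by_cases hkr : k ≡ r [MOD m]
    · rw [if_pos hkr, if_pos hkr, ← ee_add]
      congr 1
      rw [hβ]; ring
    · rw [if_neg hkr, if_neg hkr, zero_mul]
  have hdiff : SP h m r θ N N' - g * ∑ k ∈ Ioc N N', w k = ∑ k ∈ Ioc N N', (F' k - g) * w k := by
    rw [hSP, mul_sum, ← sum_sub_distrib]
    exact sum_congr rfl fun k _ => by ring
  have hE : ∀ t, N ≤ t → t ≤ N' → ‖∑ k ∈ Ioc N t, (F' k - g)‖ ≤ N / ℓ ^ (C + 3) := by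
    intro t ht ht'
    have := hblock (q * m) hQ (Fq h m r q a) (Fq_norm h m r q a) N t le_rfl ht (ht'.trans hN')
    refine le_trans (le_of_eq ?_) this
    rw [sum_sub_distrib, sum_const, Nat.card_Ioc, nsmul_eq_mul, hrt, Nat.cast_sub ht]
    congr 1
    ring
  rw [hdiff]
  refine (abel (fun k => F' k - g) w N N' hNN' _ hE).trans ?_
  have hβ1 : |β| ≤ ℓ ^ C / (N : ℝ) ^ d := by
    have e : β = (q * θ - a) / q := by rw [hβ]; field_simp
    rw [e, abs_div, abs_of_pos (show (0 : ℝ) < q by linarith)]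
    exact (div_le_self (abs_nonneg _) hqr).trans hθ
  have hTV : ∑ k ∈ Ico N N', ‖w (k + 1) - w k‖ ≤ 7 * c * 2 ^ d * ℓ ^ C := by
    have h3 : ∀ k ∈ Ico N N', ‖w (k + 1) - w k‖ ≤ 7 * c * 2 ^ d * ℓ ^ C / N := by
      intro k hk
      rw [mem_Ico] at hk
      simp only [hw]
      have e1 : β * ((h.eval ((k + 1 : ℕ) : ℤ) : ℤ) : ℝ) = β * ((h.eval (k : ℤ) : ℤ) : ℝ) +
        β * (((h.eval ((k + 1 : ℕ) : ℤ) : ℤ) : ℝ) - ((h.eval (k : ℤ) : ℤ) : ℝ)) := by ring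
      rw [e1, ee_add]
      have e2 : ∀ x y : ℂ, x * y - x = x * (y - 1) := fun x y => by ring
      rw [e2, norm_mul, norm_ee, one_mul]
      refine (ee_sub_one_le _).trans ?_
      rw [abs_mul]
      have h4 := hc k (by omega)
      have hkN : (k : ℝ) ≤ 2 * N := by exact_mod_cast (by omega : k ≤ 2 * N)
      have h5 : (k : ℝ) ^ (d - 1) ≤ (2 * N) ^ (d - 1) :=
        pow_le_pow_left₀ (Nat.cast_nonneg k) hkN _
      have hpi : 2 * Real.pi ≤ 7 := by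
        have := Real.pi_lt_d2
        linarith
      calc 2 * Real.pi * (|β| * |((h.eval ((k + 1 : ℕ) : ℤ) : ℤ) : ℝ) - ((h.eval (k : ℤ) : ℤ) : ℝ)|)
          ≤ 7 * ((ℓ ^ C / (N : ℝ) ^ d) * (c * (2 * N) ^ (d - 1))) := by
            gcongr
            exact h4.trans (by gcongr)
        _ ≤ _ := by
            obtain ⟨e, rfl⟩ : ∃ e, d = e + 1 := ⟨d - 1, by omega⟩
            rw [Nat.add_sub_cancel, mul_pow, pow_succ (N : ℝ), pow_succ (2 : ℝ)]
            have e3 : 7 * (ℓ ^ C / ((N : ℝ) ^ e * N) * (c * (2 ^ e * (N : ℝ) ^ e))) =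
              7 * c * 2 ^ e * ℓ ^ C / N := by field_simp
            rw [e3]
            have h6 : (0 : ℝ) ≤ 7 * c * 2 ^ e * ℓ ^ C := by positivity
            apply div_le_div_of_nonneg_right _ hN0.le
            nlinarith
    refine (sum_le_sum h3).trans ?_
    rw [sum_const, Nat.card_Ico, nsmul_eq_mul]
    have h4 : ((N' - N : ℕ) : ℝ) ≤ N := by exact_mod_cast (by omega : N' - N ≤ N)
    have h5 : 0 ≤ 7 * (c : ℝ) * 2 ^ d * ℓ ^ C / N := by positivity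
    calc ((N' - N : ℕ) : ℝ) * (7 * c * 2 ^ d * ℓ ^ C / N) ≤ N * (7 * c * 2 ^ d * ℓ ^ C / N) := by gcongr
      _ = _ := by field_simp
  have hwb : ‖w N'‖ = 1 := norm_ee _
  rw [hwb]
  have h3 : 1 + 7 * (c : ℝ) * 2 ^ d * ℓ ^ C ≤ ℓ ^ (C + 1) := by
    have h4 : 1 ≤ ℓ ^ C := one_le_pow₀ hℓ1
    rw [pow_succ]
    calc 1 + 7 * (c : ℝ) * 2 ^ d * ℓ ^ C ≤ ℓ ^ C + 7 * (c : ℝ) * 2 ^ d * ℓ ^ C := by linarith
      _ = ℓ ^ C * (1 + 7 * c * 2 ^ d) := by ring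
      _ ≤ ℓ ^ C * ℓ := by
        apply mul_le_mul_of_nonneg_left _ (by positivity)
        linarith
  calc N / ℓ ^ (C + 3) * (1 + ∑ k ∈ Ico N N', ‖w (k + 1) - w k‖)
      ≤ N / ℓ ^ (C + 3) * ℓ ^ (C + 1) := by
        apply mul_le_mul_of_nonneg_left _ (by positivity)
        linarith
    _ = N / ℓ ^ 2 := by
        rw [show C + 3 = (C + 1) + 2 by ring, pow_add]
        field_simp
    _ ≤ N / ℓ := by
        apply div_le_div_of_nonneg_left hN0.le hℓ0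
        nlinarith

end Pool.Agent.X114.PD
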