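import Pool.Agent.X114.PD.Two
import Pool.Agent.H373R2.T7.Vau

/-! Exponential sums over primes with polynomial phases: if the sum is large then the leading
coefficient is close to a rational with small denominator. -/

set_option autoImplicit false

namespace Pool.Agent.X114.PD

open Finset Polynomial Filter Topology
open Pool.Agent.H373R2.NB
open Pool.Agent.Helper602.MK (ee)
open Pool.Agent.Helper602.MK.N_J5b (ee_add ee_zero ee_conj norm_ee ee_int)

theorem growth (K : ℕ) : ∃ N₀ : ℕ, ∀ N : ℕ, N₀ ≤ N → 16 ≤ Real.log N ∧ Real.log N ^ K ≤ √(N : ℝ) := by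
  have h1 := (isLittleO_log_rpow_rpow_atTop (K : ℝ) (s := 1 / 2) (by norm_num)).bound
    (c := 1) (by norm_num)
  have t1 : Tendsto (fun N : ℕ => (N : ℝ)) atTop atTop := tendsto_natCast_atTop_atTop
  have h2 := t1.eventually (h1.and (eventually_ge_atTop (1 : ℝ)))
  have t2 : Tendsto (fun N : ℕ => Real.log (N : ℝ)) atTop atTop := Real.tendsto_log_atTop.comp t1
  obtain ⟨N₀, hN⟩ := eventually_atTop.1 (h2.and (t2.eventually_ge_atTop 16))
  refine ⟨N₀, fun N hN0 => ?_⟩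
  obtain ⟨⟨h3, h4⟩, h5⟩ := hN N hN0
  refine ⟨h5, ?_⟩
  have hl : 0 ≤ Real.log N := Real.log_nonneg h4
  rw [Real.rpow_natCast, Real.norm_of_nonneg (by positivity),
    Real.norm_of_nonneg (by positivity), ← Real.sqrt_eq_rpow, one_mul] at h3
  exact h3

theorem nat_le_pow (X : ℕ) (y : ℝ) (hy : 2 ≤ y) : (X : ℝ) ≤ y ^ X := by
  have h1 : (X : ℝ) ≤ 2 ^ X := by
    have := (Nat.lt_two_pow_self (n := X)).le
    exact_mod_cast this
  exact h1.trans (pow_le_pow_left₀ (by norm_num) hy X)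

theorem prime_inverse (d : ℕ) (hd : 1 ≤ d) (A : ℕ) : ∃ C N₀ : ℕ, ∀ N N' : ℕ, N₀ ≤ N → N ≤ N' →
    N' ≤ 2 * N → ∀ (α : ℝ) (φ : ℕ → ℝ), Ph d α φ →
    (N : ℝ) / Real.log N ^ A ≤
      ‖∑ n ∈ Ioc N N', ((ArithmeticFunction.vonMangoldt n : ℝ) : ℂ) * ee (φ n)‖ →
    ∃ q : ℕ, 1 ≤ q ∧ (q : ℝ) ≤ Real.log N ^ C ∧
      ∃ a : ℤ, |q * α - a| ≤ Real.log N ^ C / (N : ℝ) ^ d := by
  classical
  obtain ⟨c₁, m₁, hc₁, hIW⟩ := IW_Ioc hd
  obtain ⟨c₂, m₂, hc₂, hII⟩ := typeII d hd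
  set B : ℕ := 2 * A + 14 with hB
  set C : ℕ := c₂ * 4 ^ d + B * m₂ + c₁ * (216 * c₂ ^ 2) ^ (m₁ + d) +
    (A + 1 + 2 * (B * m₂)) * (m₁ + d) with hC
  obtain ⟨N₀, hN₀⟩ := growth (9 * c₂ ^ 2 + 4 * (B * m₂))
  refine ⟨2 * C, N₀, fun N N' hN hNN' hN' α φ hφ hbig => ?_⟩
  obtain ⟨hlog16, hgr⟩ := hN₀ N hN
  have hN1 : 1 ≤ N := by
    by_contra h
    have : N = 0 := by omega
    rw [this] at hlog16
    norm_num at hlog16
  have hNr : (1 : ℝ) ≤ N := by exact_mod_cast hN1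
  have hN0 : (0 : ℝ) < N := by linarith
  set ℓ := Real.log N with hℓ
  set Lg := 1 + Real.log (4 * N) with hLg
  have hlog4 : Real.log 4 ≤ 2 := by
    have h1 : Real.log 4 = 2 * Real.log 2 := by
      rw [show (4 : ℝ) = 2 ^ 2 by norm_num, Real.log_pow]; norm_num
    have := Real.log_two_lt_d9
    linarith
  have hlog4' : 0 ≤ Real.log 4 := Real.log_nonneg (by norm_num)
  have hLge : Lg = 1 + Real.log 4 + ℓ := by
    rw [hLg, Real.log_mul (by norm_num) hN0.ne']; ring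
  have hLg1 : Lg ≤ 2 * ℓ := by rw [hLge]; linarith
  have hLg2 : ℓ ≤ Lg := by rw [hLge]; linarith
  have hLg16 : 16 ≤ Lg := hlog16.trans hLg2
  have hLg0 : 0 < Lg := by linarith
  have hLgone : 1 ≤ Lg := by linarith
  have hc₁r : (1 : ℝ) ≤ c₁ := by exact_mod_cast hc₁
  have hc₂r : (1 : ℝ) ≤ c₂ := by exact_mod_cast hc₂
  by_contra hcon
  push Not at hcon
  -- no rational approximation with `Lg`
  have hcon' : ∀ q : ℕ, 1 ≤ q → (q : ℝ) ≤ Lg ^ C → ∀ a : ℤ, Lg ^ C / (N : ℝ) ^ d < |q * α - a| := by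
    intro q hq hqc a
    have h1 : Lg ^ C ≤ ℓ ^ (2 * C) := by
      calc Lg ^ C ≤ (2 * ℓ) ^ C := pow_le_pow_left₀ hLg0.le hLg1 C
        _ ≤ (ℓ * ℓ) ^ C := pow_le_pow_left₀ (by linarith) (by nlinarith) C
        _ = _ := by rw [← pow_two, ← pow_mul]
    refine lt_of_le_of_lt ?_ (hcon q hq (hqc.trans h1) a)
    gcongr
  set u : ℝ := Lg ^ B with hu
  have hu1 : 1 ≤ u := one_le_pow₀ hLgone
  have hu0 : 0 < u := by linarith
  have hum : 1 ≤ (c₂ : ℝ) * u ^ m₂ := one_le_mul_of_one_le_of_one_le hc₂r (one_le_pow₀ hu1)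
  set U : ℕ := ⌈2 * (c₂ * u ^ m₂)⌉₊ with hU
  have hU1 : 2 * (c₂ * u ^ m₂) ≤ U := Nat.le_ceil _
  have hU2 : (U : ℝ) ≤ 3 * (c₂ * u ^ m₂) := by
    have := Nat.ceil_lt_add_one (show 0 ≤ 2 * ((c₂ : ℝ) * u ^ m₂) by positivity)
    rw [← hU] at this
    linarith
  have hU3 : 1 ≤ U := by
    have : (1 : ℝ) ≤ U := by linarith
    exact_mod_cast this
  have hUr : (1 : ℝ) ≤ U := by exact_mod_cast hU3
  have hum' : u ^ m₂ = Lg ^ (B * m₂) := by rw [hu, ← pow_mul]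
  have hUN : U * U ≤ N := by
    have h1 : (U : ℝ) * U ≤ N := by
      calc (U : ℝ) * U ≤ (3 * (c₂ * u ^ m₂)) * (3 * (c₂ * u ^ m₂)) := by gcongr
        _ = ((9 * c₂ ^ 2 : ℕ) : ℝ) * (Lg ^ (B * m₂)) ^ 2 := by rw [hum']; push_cast; ring
        _ ≤ ℓ ^ (9 * c₂ ^ 2) * (ℓ ^ (2 * (B * m₂))) ^ 2 := by
            gcongr
            · exact nat_le_pow _ _ (by linarith)
            · calc Lg ^ (B * m₂) ≤ (2 * ℓ) ^ (B * m₂) := pow_le_pow_left₀ hLg0.le hLg1 _
                _ ≤ (ℓ * ℓ) ^ (B * m₂) := pow_le_pow_left₀ (by linarith) (by nlinarith) _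
                _ = _ := by rw [← pow_two, ← pow_mul]
        _ = ℓ ^ (9 * c₂ ^ 2 + 4 * (B * m₂)) := by rw [← pow_mul, ← pow_add]; congr 1; ring
        _ ≤ √(N : ℝ) := hgr
        _ ≤ N := by
            rw [Real.sqrt_le_left hN0.le]
            nlinarith
    exact_mod_cast h1
  set v : ℝ := 12 * Lg ^ (A + 1) * U ^ 2 with hv
  have hv1 : 1 ≤ v := by
    have h1 : (1 : ℝ) ≤ Lg ^ (A + 1) * U ^ 2 :=
      one_le_mul_of_one_le_of_one_le (one_le_pow₀ hLgone) (one_le_pow₀ hUr)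
    rw [hv, mul_assoc]; linarith
  have hv0 : 0 < v := by linarith
  have hvU : (U : ℝ) ^ 2 ≤ v := by
    have h1 : (1 : ℝ) ≤ 12 * Lg ^ (A + 1) := by
      have := one_le_pow₀ (n := A + 1) hLgone
      linarith
    calc (U : ℝ) ^ 2 = 1 * U ^ 2 := by ring
      _ ≤ 12 * Lg ^ (A + 1) * U ^ 2 := by gcongr
  -- the size of the constants
  have hC1 : c₂ * u ^ m₂ * 4 ^ d ≤ Lg ^ C := by
    calc c₂ * u ^ m₂ * 4 ^ d = ((c₂ * 4 ^ d : ℕ) : ℝ) * Lg ^ (B * m₂) := by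
          rw [hum']; push_cast; ring
      _ ≤ Lg ^ (c₂ * 4 ^ d) * Lg ^ (B * m₂) := by
          gcongr
          exact nat_le_pow _ _ (by linarith)
      _ = Lg ^ (c₂ * 4 ^ d + B * m₂) := by rw [pow_add]
      _ ≤ Lg ^ C := pow_le_pow_right₀ hLgone (by rw [hC]; omega)
  have hv2 : 2 * v ≤ 216 * c₂ ^ 2 * Lg ^ (A + 1 + 2 * (B * m₂)) := by
    calc 2 * v = 24 * Lg ^ (A + 1) * U ^ 2 := by rw [hv]; ring
      _ ≤ 24 * Lg ^ (A + 1) * (3 * (c₂ * u ^ m₂)) ^ 2 := by gcongr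
      _ = 216 * c₂ ^ 2 * Lg ^ (A + 1 + 2 * (B * m₂)) := by rw [hum']; ring
  have hC2 : c₁ * (2 * v) ^ (m₁ + d) ≤ Lg ^ C := by
    calc c₁ * (2 * v) ^ (m₁ + d) ≤ c₁ * (216 * c₂ ^ 2 * Lg ^ (A + 1 + 2 * (B * m₂))) ^ (m₁ + d) := by
          gcongr
      _ = ((c₁ * (216 * c₂ ^ 2) ^ (m₁ + d) : ℕ) : ℝ) *
          Lg ^ ((A + 1 + 2 * (B * m₂)) * (m₁ + d)) := by
          rw [mul_pow, ← pow_mul]; push_cast; ring
      _ ≤ Lg ^ (c₁ * (216 * c₂ ^ 2) ^ (m₁ + d)) * Lg ^ ((A + 1 + 2 * (B * m₂)) * (m₁ + d)) := by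
          gcongr
          exact nat_le_pow _ _ (by linarith)
      _ = Lg ^ (c₁ * (216 * c₂ ^ 2) ^ (m₁ + d) + (A + 1 + 2 * (B * m₂)) * (m₁ + d)) :=
          (pow_add _ _ _).symm
      _ ≤ Lg ^ C := pow_le_pow_right₀ hLgone (by rw [hC]; omega)
  have hC1' : c₂ * u ^ m₂ ≤ Lg ^ C := by
    refine le_trans ?_ hC1
    have : (1 : ℝ) ≤ 4 ^ d := one_le_pow₀ (by norm_num)
    calc c₂ * u ^ m₂ = c₂ * u ^ m₂ * 1 := by ring
      _ ≤ _ := by gcongr
  -- Vaughan
  have hV := Pool.Agent.H373R2.T7.vaughan_gen (fun n => ee (φ n)) N N' U hN1 hNN' hN' hU3 hUN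
    (fun _ => N / v) (2 * N / Lg ^ (A + 7)) (by positivity) (fun _ => by positivity) (by
      intro m hm b hb
      rw [mem_Icc] at hm
      by_contra hlt
      push Not at hlt
      have hm0 : (0 : ℝ) < m := by exact_mod_cast hm.1
      have hpos : (0 : ℝ) < N / v := by positivity
      have hle : ‖∑ l ∈ Ioc (N / m) b, ee (φ (m * l))‖ ≤ ((b - N / m : ℕ) : ℝ) := by
        refine (norm_sum_le _ _).trans ?_
        simp only [norm_ee, sum_const, Nat.card_Ioc, nsmul_eq_mul, mul_one]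
        exact le_rfl
      have hT : (N : ℝ) / v ≤ ((b - N / m : ℕ) : ℝ) := hlt.le.trans hle
      have hab : N / m < b := by
        have : (0 : ℝ) < ((b - N / m : ℕ) : ℝ) := hpos.trans_le hT
        have : 0 < b - N / m := by exact_mod_cast this
        omega
      have hb2 : ((b - N / m : ℕ) : ℝ) ≤ 2 * N := by
        have h1 : b - N / m ≤ 2 * N :=
          ((Nat.sub_le _ _).trans hb).trans ((Nat.div_le_self N' m).trans hN')
        exact_mod_cast h1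
      obtain ⟨q, hq1, hq2, a, ha⟩ := hIW (N / m) b (2 * v) _ _ hab (by linarith)
        (Ph_scale m d α φ hφ) (by
          have h1 : (N : ℝ) ≤ v * ‖∑ l ∈ Ioc (N / m) b, ee (φ (m * l))‖ := by
            rw [div_lt_iff₀ hv0] at hlt
            linarith
          linarith)
      have hmU : (m : ℝ) ≤ U ^ 2 := by
        have : m ≤ U * U := hm.2
        rw [pow_two]; exact_mod_cast this
      have h2 : (m : ℝ) ^ d ≤ (2 * v) ^ d := by
        apply pow_le_pow_left₀ hm0.le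
        linarith
      refine absurd (hcon' (q * m ^ d) (Nat.one_le_iff_ne_zero.2 (by have := hm.1; positivity)) ?_ a)
        (not_lt.2 ?_)
      · push_cast
        calc (q : ℝ) * m ^ d ≤ (c₁ * (2 * v) ^ m₁) * (2 * v) ^ d := by gcongr
          _ = c₁ * (2 * v) ^ (m₁ + d) := by rw [pow_add]; ring
          _ ≤ _ := hC2
      · have e1 : ((q * m ^ d : ℕ) : ℝ) * α = q * ((m : ℝ) ^ d * α) := by push_cast; ring
        rw [e1]
        refine ha.trans ?_
        have h3 : ((N : ℝ) / v) ^ d ≤ ((b - N / m : ℕ) : ℝ) ^ d :=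
          pow_le_pow_left₀ (by positivity) hT d
        calc c₁ * (2 * v) ^ m₁ / ((b - N / m : ℕ) : ℝ) ^ d ≤ c₁ * (2 * v) ^ m₁ / ((N : ℝ) / v) ^ d := by
              gcongr
          _ = c₁ * (2 * v) ^ m₁ * v ^ d / (N : ℝ) ^ d := by rw [div_pow]; field_simp
          _ ≤ c₁ * (2 * v) ^ m₁ * (2 * v) ^ d / (N : ℝ) ^ d := by gcongr; linarith
          _ = c₁ * (2 * v) ^ (m₁ + d) / (N : ℝ) ^ d := by rw [pow_add]; ring
          _ ≤ _ := by gcongr) (by
      intro a b A₂ B₂ hA₂ hB₂ M L hM hL hUM hUL hML ha hb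
      have hMr : (0 : ℝ) < M := by exact_mod_cast hM
      have hLr : (0 : ℝ) < L := by exact_mod_cast hL
      have eg : ∀ m l, (if N < m * l ∧ m * l ≤ N' then ee (φ (m * l)) else 0) = gk N N' φ m l :=
        fun m l => rfl
      simp only [eg]
      by_cases h4 : 4 * (M * L) ≤ N
      · have : ∑ m ∈ Ioc M (2 * M), ∑ l ∈ Ioc L (2 * L), a m * b l * gk N N' φ m l = 0 := by
          refine sum_eq_zero fun m hm => sum_eq_zero fun l hl => ?_
          rw [mem_Ioc] at hm hl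
          unfold gk
          rw [if_neg, mul_zero]
          rintro ⟨h5, -⟩
          have h6 : m * l ≤ (2 * M) * (2 * L) := Nat.mul_le_mul hm.2 hl.2
          have h7 : (2 * M) * (2 * L) = 4 * (M * L) := by ring
          omega
        rw [this, norm_zero, zero_pow two_ne_zero]
        positivity
      push Not at h4
      have h4r : (N : ℝ) < 4 * (M * L) := by exact_mod_cast h4
      have hs := schur (Ioc M (2 * M)) (Ioc L (2 * L)) a b (gk N N' φ) (A₂ * M) (B₂ * L)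
        ((M : ℝ) * L / u) (by positivity) ha hb (by
          intro l₁ hl₁
          by_contra hlt
          push Not at hlt
          obtain ⟨q, hq1, hq2, a, ha⟩ := hII α φ hφ M L N N' u hu1 (by
              have : (U : ℝ) < 2 * M := by exact_mod_cast hUM
              linarith) (by
              have : (U : ℝ) < 2 * L := by exact_mod_cast hUL
              linarith) l₁ hl₁ hlt
          refine absurd (hcon' q hq1 (hq2.trans hC1') a) (not_lt.2 (ha.trans ?_))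
          have h5 : ((N : ℝ) / 4) ^ d ≤ ((M : ℝ) * L) ^ d :=
            pow_le_pow_left₀ (by positivity) (by linarith) d
          calc c₂ * u ^ m₂ / ((M : ℝ) * L) ^ d ≤ c₂ * u ^ m₂ / ((N : ℝ) / 4) ^ d := by gcongr
            _ = c₂ * u ^ m₂ * 4 ^ d / (N : ℝ) ^ d := by rw [div_pow]; field_simp
            _ ≤ _ := by gcongr)
      refine hs.trans ?_
      have h6 : (M : ℝ) * L ≤ 2 * N := by
        have : M * L ≤ 2 * N := hML.trans hN'
        exact_mod_cast this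
      have e2 : A₂ * M * (B₂ * L * ((M : ℝ) * L / u)) = A₂ * B₂ * (((M : ℝ) * L) ^ 2 / u) := by ring
      have e3 : (2 * (N : ℝ) / Lg ^ (A + 7)) ^ 2 = (2 * N) ^ 2 / u := by
        rw [div_pow, hu, ← pow_mul]
        congr 2
        rw [hB]; ring
      rw [e2, e3]
      gcongr)
  rw [← hLg] at hV
  have h1 : ‖∑ n ∈ Ioc N N', ((ArithmeticFunction.vonMangoldt n : ℝ) : ℂ) * ee (φ n)‖ ≤
      N / (2 * Lg ^ A) := by
    refine hV.trans ?_
    rw [sum_const, Nat.card_Icc, nsmul_eq_mul, Nat.add_sub_cancel]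
    have e1 : 8 * Lg ^ 5 * (2 * N / Lg ^ (A + 7)) = 16 / Lg ^ 2 * (N / Lg ^ A) := by
      rw [show A + 7 = 5 + (2 + A) by ring, pow_add, pow_add]
      field_simp
      norm_num
    have e2 : 3 * Lg * (((U * U : ℕ) : ℝ) * (N / v)) = 1 / 4 * (N / Lg ^ A) := by
      rw [hv, pow_succ]; push_cast
      field_simp
      norm_num
    rw [e1, e2]
    have h2 : 16 / Lg ^ 2 ≤ 1 / 4 := by
      rw [div_le_div_iff₀ (by positivity) (by norm_num)]
      nlinarith
    have h3 : (0 : ℝ) ≤ N / Lg ^ A := by positivity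
    have e4 : (N : ℝ) / (2 * Lg ^ A) = 1 / 2 * (N / Lg ^ A) := by field_simp
    rw [e4]
    nlinarith
  have h2 : (N : ℝ) / Lg ^ A ≤ N / ℓ ^ A := by
    have hℓ0 : 0 < ℓ := by linarith
    gcongr
  have h3 : (0 : ℝ) < N / Lg ^ A := by positivity
  have e4 : (N : ℝ) / (2 * Lg ^ A) = 1 / 2 * (N / Lg ^ A) := by field_simp
  rw [e4] at h1
  linarith

end Pool.Agent.X114.PD
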