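import Pool.Agent.H373R2.NB.WeylSum

/-! Calculus of polynomial phases, and equidistribution of polynomials with an irrational factor. -/

set_option autoImplicit false

namespace Pool.Agent.X114.PD

open Finset Polynomial Filter Topology
open Pool.Agent.H373R2.NB
open Pool.Agent.Helper602.MK (ee)
open Pool.Agent.Helper602.MK.N_J5b (ee_add ee_zero ee_conj norm_ee ee_int)

theorem Ph_add (d : ℕ) : ∀ (α β : ℝ) (φ ψ : ℕ → ℝ), Ph d α φ → Ph d β ψ →
    Ph d (α + β) (fun n => φ n + ψ n) := by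
  induction d with
  | zero => intro α β φ ψ h1 h2 n; show φ n + ψ n = α + β; rw [h1 n, h2 n]
  | succ d ih =>
    intro α β φ ψ h1 h2 h
    have := ih _ _ _ _ (h1 h) (h2 h)
    have e1 : (fun n => φ (n + h) - φ n + (ψ (n + h) - ψ n)) =
        fun n => (φ (n + h) + ψ (n + h)) - (φ n + ψ n) := by
      funext n; ring
    rw [e1, ← mul_add] at this
    exact this

theorem Ph_smul (d : ℕ) : ∀ (c α : ℝ) (φ : ℕ → ℝ), Ph d α φ →
    Ph d (c * α) (fun n => c * φ n) := by
  induction d with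
  | zero => intro c α φ h1 n; show c * φ n = c * α; rw [h1 n]
  | succ d ih =>
    intro c α φ h1 h
    have := ih c _ _ (h1 h)
    have e1 : (fun n => c * (φ (n + h) - φ n)) = fun n => c * φ (n + h) - c * φ n := by
      funext n; ring
    rw [e1, show c * (h * α) = h * (c * α) by ring] at this
    exact this

theorem Ph_sub (d : ℕ) (α β : ℝ) (φ ψ : ℕ → ℝ) (h1 : Ph d α φ) (h2 : Ph d β ψ) :
    Ph d (α - β) (fun n => φ n - ψ n) := by
  have := Ph_add d _ _ _ _ h1 (Ph_smul d (-1) _ _ h2)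
  have e1 : (fun n => φ n + -1 * ψ n) = fun n => φ n - ψ n := by funext n; ring
  rw [e1, show α + -1 * β = α - β by ring] at this
  exact this

theorem Ph_scale (l : ℕ) (d : ℕ) : ∀ (α : ℝ) (φ : ℕ → ℝ), Ph d α φ →
    Ph d ((l : ℝ) ^ d * α) (fun n => φ (l * n)) := by
  induction d with
  | zero => intro α φ h1 n; show φ (l * n) = _; rw [h1 _]; simp
  | succ d ih =>
    intro α φ h1 h
    have := ih _ _ (h1 (l * h))
    have e1 : (fun n => φ (l * n + l * h) - φ (l * n)) =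
        fun n => φ (l * (n + h)) - φ (l * n) := by
      funext n; rw [mul_add]
    rw [e1] at this
    have e2 : (l : ℝ) ^ d * (((l * h : ℕ) : ℝ) * α) = h * ((l : ℝ) ^ (d + 1) * α) := by
      push_cast; ring
    rw [e2] at this
    exact this

theorem Ph_shift (s : ℕ) (d : ℕ) (α : ℝ) (φ : ℕ → ℝ) (h : Ph d α φ) :
    Ph d α (fun n => φ (s + n)) := by
  induction s with
  | zero => simpa using h
  | succ s ih =>
    have := Ph_succ d _ _ ih
    have e1 : (fun n => φ (s + (n + 1))) = fun n => φ (s + 1 + n) := by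
      funext n; congr 1; ring
    rw [e1] at this
    exact this

theorem Ph_lift (d : ℕ) : ∀ (α : ℝ) (φ : ℕ → ℝ), Ph d α φ → Ph (d + 1) 0 φ := by
  induction d with
  | zero =>
    intro α φ h1 h n
    show φ (n + h) - φ n = _
    rw [h1, h1]; simp
  | succ d ih =>
    intro α φ h1 h
    have := ih _ _ (h1 h)
    rw [mul_zero]
    exact this

theorem Ph_lin (β : ℝ) (d : ℕ) (hd : 1 ≤ d) :
    Ph d (if d = 1 then β else 0) (fun n => n * β) := by
  induction d, hd using Nat.le_induction with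
  | base =>
    intro h n
    show ((n + h : ℕ) : ℝ) * β - n * β = (h : ℝ) * (if 1 = 1 then β else 0)
    rw [if_pos rfl]
    push_cast
    ring
  | succ d hd ih =>
    rw [if_neg (by omega)]
    exact Ph_lift d _ _ ih

theorem Ph_pow (d : ℕ) : Ph d (d.factorial : ℝ) (fun n => (n : ℝ) ^ d) := by
  have := Ph_poly d (X ^ d) (natDegree_X_pow_le d) 1
  simp only [coeff_X_pow, if_true, eval_pow, eval_X, one_mul, Int.cast_one, mul_one] at this
  have e : (fun n : ℕ => (((n : ℤ) ^ d : ℤ) : ℝ)) = fun n : ℕ => (n : ℝ) ^ d := by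
    funext n; push_cast; rfl
  rw [e] at this
  exact this

/-- sums over intervals of naturals -/
theorem sum_Ioc_eq (F : ℕ → ℂ) (a b : ℕ) : ∑ n ∈ Ioc a b, F n = ∑ t ∈ range (b - a), F (a + 1 + t) := by
  have : Ioc a b = Ico (a + 1) (b + 1) := by ext n; simp only [mem_Ioc, mem_Ico]; omega
  rw [this, Finset.sum_Ico_eq_sum_range]
  congr 2
  omega

theorem ee_sub_one_le (x : ℝ) : ‖ee x - 1‖ ≤ 2 * Real.pi * |x| := by
  rw [Pool.Agent.Helper602.MK.N_J5b.ee_eq, mul_comm]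
  refine (Real.norm_exp_I_mul_ofReal_sub_one_le (x := 2 * Real.pi * x)).trans ?_
  rw [Real.norm_eq_abs, abs_mul, abs_of_nonneg (by positivity : (0:ℝ) ≤ 2 * Real.pi)]

theorem ee_add_int (x : ℝ) (a : ℤ) : ee (x + a) = ee x := by
  rw [ee_add, ee_int, mul_one]

/-- the inverse theorem on an interval -/
theorem IW_Ioc {d : ℕ} (hd : 1 ≤ d) : ∃ c m : ℕ, 1 ≤ c ∧ ∀ (a b : ℕ) (u α : ℝ) (φ : ℕ → ℝ),
    a < b → 1 ≤ u → Ph d α φ → ((b - a : ℕ) : ℝ) ≤ u * ‖∑ n ∈ Ioc a b, ee (φ n)‖ →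
    ∃ q : ℕ, 1 ≤ q ∧ (q : ℝ) ≤ c * u ^ m ∧ ∃ k : ℤ, |q * α - k| ≤ c * u ^ m / ((b - a : ℕ) : ℝ) ^ d := by
  obtain ⟨c, m, hc, H⟩ := IW_all d hd
  refine ⟨c, m, hc, fun a b u α φ hab hu hφ hs => ?_⟩
  rw [sum_Ioc_eq] at hs
  exact H (b - a) u α (fun t => φ (a + 1 + t)) (by omega) hu (Ph_shift _ _ _ _ hφ) hs

end Pool.Agent.X114.PD
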