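import Pool.Agent.X114.PD.Minor
import Pool.Agent.W762.EC.SSA
import Pool.Agent.W762.EC.PntA

/-! Primes in progressions to small moduli (Siegel-Walfisz) for sums with a periodic weight. -/

set_option autoImplicit false

namespace Pool.Agent.X114.PD

open Finset Filter Topology
open Pool.Agent.H262R3.Lk.SWQ (SS av)

/-- `log p` on primes -/
noncomputable def pl (n : ℕ) : ℝ := if n.Prime then Real.log n else 0

theorem pl_nonneg (n : ℕ) : 0 ≤ pl n := by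
  unfold pl; split_ifs
  · exact Real.log_natCast_nonneg n
  · exact le_rfl

theorem av_eq {q : ℕ} (χ : DirichletCharacter ℂ q) (n : ℕ) :
    av χ n = (pl n : ℂ) * χ (n : ZMod q) := by
  unfold av pl
  split_ifs
  · ring
  · simp

theorem SS_sub {q : ℕ} (χ : DirichletCharacter ℂ q) (x y : ℕ) (h : x ≤ y) :
    SS χ y - SS χ x = ∑ k ∈ Ioc x y, (pl k : ℂ) * χ (k : ZMod q) := by
  unfold SS
  have e : ∀ b : ℕ, Icc 1 b = Ioc 0 b := fun b => by
    ext n; simp only [mem_Icc, mem_Ioc]; omega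
  rw [e, e, ← Finset.sum_Ioc_consecutive _ (Nat.zero_le x) h, add_sub_cancel_left]
  exact sum_congr rfl fun k _ => av_eq χ k

theorem sum_dvd_le (Q n : ℕ) (hQ : 1 ≤ Q) (f : ℕ → ℝ)
    (hf : ∀ k, f k ≠ 0 → k ∣ Q ∧ f k ≤ Q) : ∑ k ∈ Icc 1 n, f k ≤ (Q : ℝ) ^ 2 := by
  classical
  have h1 : ∑ k ∈ Icc 1 n, f k = ∑ k ∈ (Icc 1 n).filter (fun k => f k ≠ 0), f k := by
    rw [sum_filter_ne_zero]
  rw [h1]
  have h2 : ∑ k ∈ (Icc 1 n).filter (fun k => f k ≠ 0), f k ≤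
      ∑ k ∈ (Icc 1 n).filter (fun k => f k ≠ 0), (Q : ℝ) :=
    sum_le_sum fun k hk => (hf k (mem_filter.1 hk).2).2
  refine h2.trans ?_
  rw [sum_const, nsmul_eq_mul, pow_two]
  apply mul_le_mul_of_nonneg_right _ (Nat.cast_nonneg _)
  have h3 : (Icc 1 n).filter (fun k => f k ≠ 0) ⊆ Icc 1 Q := by
    intro k hk
    rw [mem_filter, mem_Icc] at hk
    rw [mem_Icc]
    exact ⟨hk.1.1, Nat.le_of_dvd (by omega) (hf k hk.2).1⟩
  have h4 := card_le_card h3
  rw [Nat.card_Icc, Nat.add_sub_cancel] at h4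
  exact_mod_cast h4

theorem char_bound (A B : ℕ) : ∃ n₁ : ℕ, ∀ n : ℕ, n₁ ≤ n → ∀ (Q : ℕ) [NeZero Q],
    (Q : ℝ) ≤ Real.log n ^ B → ∀ χ : DirichletCharacter ℂ Q, χ ≠ 1 →
      ‖SS χ n‖ ≤ 12 * n / Real.log n ^ A + (Q : ℝ) ^ 2 := by
  obtain ⟨n₁, h⟩ := Pool.Agent.W762.EC.SSA.SS_bound A B
  refine ⟨n₁, fun n hn Q _ hQ χ hχ => ?_⟩
  have hQ0 : Q ≠ 0 := NeZero.ne Q
  have hf1 : χ.conductor ≠ 1 := fun h => hχ (DirichletCharacter.eq_one_iff_conductor_eq_one.2 h)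
  have hf0 : χ.conductor ≠ 0 := DirichletCharacter.conductor_ne_zero _
  have hfQ : χ.conductor ≤ Q := Nat.le_of_dvd (Nat.pos_of_ne_zero hQ0) χ.conductor_dvd_level
  have h1 := h n hn χ.conductor (by omega) (le_trans (by exact_mod_cast hfQ) hQ)
    χ.primitiveCharacter χ.primitiveCharacter_isPrimitive
  have h2 : ‖SS χ n - SS χ.primitiveCharacter n‖ ≤ (Q : ℝ) ^ 2 := by
    unfold SS
    rw [← sum_sub_distrib]
    refine (norm_sum_le _ _).trans (sum_dvd_le Q n (Nat.pos_of_ne_zero hQ0) _ ?_)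
    intro k hk
    by_cases hp : k.Prime
    · by_cases hc : Nat.Coprime k Q
      · exfalso
        apply hk
        have h3 := χ.primitiveCharacter_apply_of_isCoprime (a := (k : ℤ))
          (Nat.isCoprime_iff_coprime.2 hc)
        rw [Int.cast_natCast, Int.cast_natCast] at h3
        rw [av_eq, av_eq, h3, sub_self, norm_zero]
      · have hd : k ∣ Q := by
          by_contra hnd
          exact hc ((Nat.Prime.coprime_iff_not_dvd hp).2 hnd)
        refine ⟨hd, ?_⟩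
        have hz : χ (k : ZMod Q) = 0 := by
          apply MulChar.map_nonunit
          intro hu
          exact hc ((ZMod.isUnit_iff_coprime k Q).1 hu)
        rw [av_eq, av_eq, hz, mul_zero, zero_sub, norm_neg, norm_mul, Complex.norm_real,
          Real.norm_of_nonneg (pl_nonneg k)]
        have h4 : ‖χ.primitiveCharacter (k : ZMod χ.conductor)‖ ≤ 1 :=
          DirichletCharacter.norm_le_one _ _
        have h5 : pl k ≤ k := by
          unfold pl; rw [if_pos hp]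
          exact (Real.log_le_sub_one_of_pos (by exact_mod_cast hp.pos)).trans (by linarith)
        have h6 : (k : ℝ) ≤ Q := by exact_mod_cast Nat.le_of_dvd (Nat.pos_of_ne_zero hQ0) hd
        calc pl k * _ ≤ pl k * 1 := mul_le_mul_of_nonneg_left h4 (pl_nonneg k)
          _ ≤ Q := by linarith
    · exfalso
      apply hk
      unfold av
      rw [if_neg hp, if_neg hp, sub_self, norm_zero]
  have e : SS χ n = SS χ.primitiveCharacter n + (SS χ n - SS χ.primitiveCharacter n) := by ring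
  rw [e]
  exact (norm_add_le _ _).trans (add_le_add h1 h2)

theorem theta_eq (n : ℕ) : Chebyshev.theta (n : ℝ) = ∑ k ∈ Icc 1 n, pl k := by
  unfold Chebyshev.theta pl
  rw [Nat.floor_natCast, sum_filter]
  have e : Icc 1 n = Ioc 0 n := by ext k; simp only [mem_Icc, mem_Ioc]; omega
  rw [e]

theorem triv_bound (K : ℕ) (hK : 1 ≤ K) : ∃ (c : ℝ) (n₁ : ℕ), 0 < c ∧ ∀ n : ℕ, n₁ ≤ n →
    ∀ (Q : ℕ) [NeZero Q],
      ‖SS (1 : DirichletCharacter ℂ Q) n - n‖ ≤ c * (n / Real.log n ^ K) + (Q : ℝ) ^ 2 := by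
  obtain ⟨N₁, h1⟩ := Pool.Agent.W762.EC.PntA.large K hK
  obtain ⟨N₂, h2⟩ := growth (K + 1)
  refine ⟨35 + 16 * 8 ^ K + 2, max N₁ N₂, by positivity, fun n hn Q _ => ?_⟩
  have hQ0 : Q ≠ 0 := NeZero.ne Q
  have h3 := h1 n ((le_max_left _ _).trans hn)
  obtain ⟨h4, h5⟩ := h2 n ((le_max_right _ _).trans hn)
  have hn1 : 1 ≤ n := by
    by_contra h
    have : n = 0 := by omega
    rw [this] at h4
    norm_num at h4
  have hnr : (1 : ℝ) ≤ n := by exact_mod_cast hn1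
  have h6 := Chebyshev.psi_sub_theta_le hnr
  have h7 := Chebyshev.theta_le_psi (n : ℝ)
  have h8 : |Chebyshev.theta (n : ℝ) - n| ≤ (35 + 16 * 8 ^ K + 2) * (n / Real.log n ^ K) := by
    have h9 : 2 * √(n : ℝ) * Real.log n ≤ 2 * (n / Real.log n ^ K) := by
      rw [← mul_div_assoc, le_div_iff₀ (by positivity)]
      have hs := Real.mul_self_sqrt (show (0 : ℝ) ≤ n by linarith)
      calc 2 * √(n : ℝ) * Real.log n * Real.log n ^ K = 2 * (√(n : ℝ) * Real.log n ^ (K + 1)) := by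
            rw [pow_succ]; ring
        _ ≤ 2 * (√(n : ℝ) * √(n : ℝ)) := by gcongr
        _ = _ := by rw [hs]
    have e : Chebyshev.theta (n : ℝ) - n = (Chebyshev.psi (n : ℝ) - n) -
      (Chebyshev.psi (n : ℝ) - Chebyshev.theta (n : ℝ)) := by ring
    rw [e]
    refine (abs_sub _ _).trans ?_
    rw [abs_of_nonneg (show 0 ≤ Chebyshev.psi (n : ℝ) - Chebyshev.theta (n : ℝ) by linarith)]
    linarith
  have h10 : ‖SS (1 : DirichletCharacter ℂ Q) n - ((Chebyshev.theta (n : ℝ) : ℝ) : ℂ)‖ ≤ (Q : ℝ) ^ 2 := by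
    rw [theta_eq, Complex.ofReal_sum]
    unfold SS
    rw [← sum_sub_distrib]
    refine (norm_sum_le _ _).trans (sum_dvd_le Q n (Nat.pos_of_ne_zero hQ0) _ ?_)
    intro k hk
    by_cases hp : k.Prime
    · by_cases hc : Nat.Coprime k Q
      · exfalso
        apply hk
        rw [av_eq, MulChar.one_apply ((ZMod.isUnit_iff_coprime k Q).2 hc), mul_one, sub_self,
          norm_zero]
      · have hd : k ∣ Q := by
          by_contra hnd
          exact hc ((Nat.Prime.coprime_iff_not_dvd hp).2 hnd)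
        refine ⟨hd, ?_⟩
        have hz : (1 : DirichletCharacter ℂ Q) (k : ZMod Q) = 0 := by
          apply MulChar.map_nonunit
          intro hu
          exact hc ((ZMod.isUnit_iff_coprime k Q).1 hu)
        rw [av_eq, hz, mul_zero, zero_sub, norm_neg, Complex.norm_real,
          Real.norm_of_nonneg (pl_nonneg k)]
        have h5 : pl k ≤ k := by
          unfold pl; rw [if_pos hp]
          exact (Real.log_le_sub_one_of_pos (by exact_mod_cast hp.pos)).trans (by linarith)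
        have h6 : (k : ℝ) ≤ Q := by exact_mod_cast Nat.le_of_dvd (Nat.pos_of_ne_zero hQ0) hd
        linarith
    · exfalso
      apply hk
      unfold av pl
      rw [if_neg hp, if_neg hp]
      simp
  have e : SS (1 : DirichletCharacter ℂ Q) n - n =
      (((Chebyshev.theta (n : ℝ) - n : ℝ)) : ℂ) +
      (SS (1 : DirichletCharacter ℂ Q) n - ((Chebyshev.theta (n : ℝ) : ℝ) : ℂ)) := by
    push_cast; ring
  rw [e]
  refine (norm_add_le _ _).trans (add_le_add ?_ h10)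
  rw [Complex.norm_real, Real.norm_eq_abs]
  exact h8

/-- the sum over the reduced residues -/
noncomputable def Gs (Q : ℕ) [NeZero Q] (F : ZMod Q → ℂ) : ℂ := ∑ b : (ZMod Q)ˣ, F b

/-- the character coefficients -/
noncomputable def cc (Q : ℕ) [NeZero Q] (F : ZMod Q → ℂ) (χ : DirichletCharacter ℂ Q) : ℂ :=
  ∑ b : (ZMod Q)ˣ, F b * χ ((b : ZMod Q)⁻¹)

open Classical in
theorem expand (Q : ℕ) [NeZero Q] (F : ZMod Q → ℂ) (k : ZMod Q) :
    ∑ χ : DirichletCharacter ℂ Q, cc Q F χ * χ k =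
      (Q.totient : ℂ) * (if IsUnit k then F k else 0) := by
  unfold cc
  simp only [sum_mul]
  rw [sum_comm]
  have e1 : ∀ b : (ZMod Q)ˣ, ∑ χ : DirichletCharacter ℂ Q, F b * χ ((b : ZMod Q)⁻¹) * χ k =
      F b * (if (b : ZMod Q) = k then (Q.totient : ℂ) else 0) := by
    intro b
    rw [← DirichletCharacter.sum_char_inv_mul_char_eq ℂ (Units.isUnit b) k, mul_sum]
    exact sum_congr rfl fun χ _ => by ring
  rw [sum_congr rfl fun b _ => e1 b]
  by_cases hk : IsUnit k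
  · obtain ⟨b₀, rfl⟩ := hk
    rw [if_pos (Units.isUnit b₀), sum_eq_single b₀]
    · rw [if_pos rfl, mul_comm]
    · intro b _ hb
      rw [if_neg (fun h => hb (Units.ext h)), mul_zero]
    · intro h; exact absurd (mem_univ _) h
  · rw [if_neg hk, mul_zero]
    apply sum_eq_zero
    intro b _
    rw [if_neg, mul_zero]
    intro h; exact hk (h ▸ Units.isUnit b)

open Classical in
theorem block_eq (Q : ℕ) [NeZero Q] (F : ZMod Q → ℂ) (x y : ℕ) (h : x ≤ y) :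
    (Q.totient : ℂ) * ∑ k ∈ Ioc x y, (pl k : ℂ) * (if IsUnit (k : ZMod Q) then F k else 0) =
      ∑ χ : DirichletCharacter ℂ Q, cc Q F χ * (SS χ y - SS χ x) := by
  have e1 : ∀ χ : DirichletCharacter ℂ Q, cc Q F χ * (SS χ y - SS χ x) =
      ∑ k ∈ Ioc x y, (pl k : ℂ) * (cc Q F χ * χ (k : ZMod Q)) := by
    intro χ
    rw [SS_sub χ x y h, mul_sum]
    exact sum_congr rfl fun k _ => by ring
  rw [sum_congr rfl fun χ _ => e1 χ, sum_comm, mul_sum]
  refine sum_congr rfl fun k _ => ?_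
  rw [← mul_sum, expand]
  ring

theorem cc_one (Q : ℕ) [NeZero Q] (F : ZMod Q → ℂ) : cc Q F 1 = Gs Q F := by
  unfold cc Gs
  refine sum_congr rfl fun b _ => ?_
  have : IsUnit ((b : ZMod Q)⁻¹) := by
    rw [ZMod.inv_coe_unit]
    exact Units.isUnit _
  rw [MulChar.one_apply this, mul_one]

theorem cc_norm (Q : ℕ) [NeZero Q] (F : ZMod Q → ℂ) (hF : ∀ b, ‖F b‖ ≤ 1)
    (χ : DirichletCharacter ℂ Q) : ‖cc Q F χ‖ ≤ Q.totient := by
  unfold cc
  refine (norm_sum_le _ _).trans ?_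
  have h1 : ∀ b ∈ (univ : Finset (ZMod Q)ˣ), ‖F b * χ ((b : ZMod Q)⁻¹)‖ ≤ 1 := by
    intro b _
    rw [norm_mul]
    exact mul_le_one₀ (hF _) (norm_nonneg _) (DirichletCharacter.norm_le_one _ _)
  refine (sum_le_sum h1).trans (le_of_eq ?_)
  rw [sum_const, card_univ, ZMod.card_units_eq_totient, nsmul_eq_mul, mul_one]

theorem card_chars (Q : ℕ) [NeZero Q] : Fintype.card (DirichletCharacter ℂ Q) = Q.totient := by
  rw [← Nat.card_eq_fintype_card]
  exact DirichletCharacter.card_eq_totient_of_hasEnoughRootsOfUnity ℂ Q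

open Classical in
theorem block (A B : ℕ) : ∃ N₁ : ℕ, ∀ N : ℕ, N₁ ≤ N → ∀ (Q : ℕ) [NeZero Q],
    (Q : ℝ) ≤ Real.log N ^ B → ∀ F : ZMod Q → ℂ, (∀ b, ‖F b‖ ≤ 1) → ∀ x y : ℕ, N ≤ x → x ≤ y →
    y ≤ 2 * N →
    ‖∑ k ∈ Ioc x y, (pl k : ℂ) * (if IsUnit (k : ZMod Q) then F k else 0) -
      Gs Q F / Q.totient * ((y : ℂ) - x)‖ ≤ N / Real.log N ^ A := by
  set K := A + B + 1 with hK
  obtain ⟨n₁, h1⟩ := char_bound K B
  obtain ⟨c, n₂, hc, h2⟩ := triv_bound K (by omega)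
  set c' : ℕ := ⌈48 + 4 * c⌉₊ + 4 with hc'
  obtain ⟨n₃, h3⟩ := growth (A + 3 * B + c' + 1)
  obtain ⟨n₄, h4⟩ : ∃ n₄ : ℕ, ∀ n : ℕ, n₄ ≤ n → (48 + 4 * c) * 2 ≤ Real.log n := by
    have t2 : Tendsto (fun N : ℕ => Real.log (N : ℝ)) atTop atTop :=
      Real.tendsto_log_atTop.comp tendsto_natCast_atTop_atTop
    exact eventually_atTop.1 (t2.eventually_ge_atTop ((48 + 4 * c) * 2))
  refine ⟨max (max n₁ n₂) (max n₃ n₄), fun N hN Q _ hQ F hF x y hx hxy hy => ?_⟩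
  have hn₁ : n₁ ≤ N := ((le_max_left _ _).trans (le_max_left _ _)).trans hN
  have hn₂ : n₂ ≤ N := ((le_max_right _ _).trans (le_max_left _ _)).trans hN
  obtain ⟨h16, hgr⟩ := h3 N (((le_max_left _ _).trans (le_max_right _ _)).trans hN)
  have hlc := h4 N (((le_max_right _ _).trans (le_max_right _ _)).trans hN)
  have hN1 : 1 ≤ N := by
    by_contra h
    have : N = 0 := by omega
    rw [this] at h16
    norm_num at h16
  have hNr : (1 : ℝ) ≤ N := by exact_mod_cast hN1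
  have hN0 : (0 : ℝ) < N := by linarith
  set ℓ := Real.log N with hℓ
  have hℓ0 : 0 < ℓ := by linarith
  have hQ0 : Q ≠ 0 := NeZero.ne Q
  have hQ1 : (1 : ℝ) ≤ Q := by exact_mod_cast Nat.pos_of_ne_zero hQ0
  have hφ0 : (0 : ℝ) < Q.totient := by exact_mod_cast Nat.totient_pos.2 (Nat.pos_of_ne_zero hQ0)
  have hφQ : (Q.totient : ℝ) ≤ Q := by exact_mod_cast Nat.totient_le Q
  have hlog : ∀ n : ℕ, N ≤ n → ℓ ≤ Real.log n := by
    intro n hn
    apply Real.log_le_log hN0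
    exact_mod_cast hn
  -- bounds for each n in [N, 2N]
  have hb1 : ∀ n : ℕ, N ≤ n → n ≤ 2 * N → ∀ χ : DirichletCharacter ℂ Q, χ ≠ 1 →
      ‖SS χ n‖ ≤ 24 * N / ℓ ^ K + (Q : ℝ) ^ 2 := by
    intro n hn hn2 χ hχ
    have hnr : (n : ℝ) ≤ 2 * N := by exact_mod_cast hn2
    refine (h1 n (hn₁.trans hn) Q (hQ.trans (pow_le_pow_left₀ hℓ0.le (hlog n hn) _)) χ hχ).trans ?_
    have e : 24 * (N : ℝ) / ℓ ^ K = 12 * (2 * N) / ℓ ^ K := by ring
    have hl := hlog n hn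
    rw [e]
    gcongr
  have hb2 : ∀ n : ℕ, N ≤ n → n ≤ 2 * N →
      ‖SS (1 : DirichletCharacter ℂ Q) n - n‖ ≤ 2 * c * N / ℓ ^ K + (Q : ℝ) ^ 2 := by
    intro n hn hn2
    have hnr : (n : ℝ) ≤ 2 * N := by exact_mod_cast hn2
    refine (h2 n (hn₂.trans hn) Q).trans ?_
    have e : 2 * c * N / ℓ ^ K = c * (2 * N / ℓ ^ K) := by ring
    have hl := hlog n hn
    rw [e]
    gcongr
  have hid := block_eq Q F x y hxy
  have hφC : (Q.totient : ℂ) ≠ 0 := by exact_mod_cast hφ0.ne'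
  have e2 : (Q.totient : ℂ) * (∑ k ∈ Ioc x y, (pl k : ℂ) * (if IsUnit (k : ZMod Q) then F k else 0) -
      Gs Q F / Q.totient * ((y : ℂ) - x)) =
      cc Q F 1 * ((SS (1 : DirichletCharacter ℂ Q) y - y) - (SS (1 : DirichletCharacter ℂ Q) x - x)) +
      ∑ χ ∈ (univ : Finset (DirichletCharacter ℂ Q)).erase 1, cc Q F χ * (SS χ y - SS χ x) := by
    rw [mul_sub, hid, ← add_sum_erase _ _ (mem_univ (1 : DirichletCharacter ℂ Q)), cc_one]
    field_simp
    ring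
  have h5 : (Q.totient : ℝ) * ‖∑ k ∈ Ioc x y, (pl k : ℂ) * (if IsUnit (k : ZMod Q) then F k else 0) -
      Gs Q F / Q.totient * ((y : ℂ) - x)‖ ≤
      Q.totient * (2 * (2 * c * N / ℓ ^ K + (Q : ℝ) ^ 2)) +
      Q.totient * (Q.totient * (2 * (24 * N / ℓ ^ K + (Q : ℝ) ^ 2))) := by
    have e3 : (Q.totient : ℝ) = ‖(Q.totient : ℂ)‖ := by simp
    conv_lhs => rw [e3, ← norm_mul, e2]
    refine (norm_add_le _ _).trans (add_le_add ?_ ?_)
    · rw [norm_mul]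
      apply mul_le_mul (cc_norm Q F hF 1) _ (norm_nonneg _) hφ0.le
      refine (norm_sub_le _ _).trans ?_
      have g1 := hb2 y (hx.trans hxy) hy
      have g2 := hb2 x hx (hxy.trans hy)
      linarith
    · refine (norm_sum_le _ _).trans ?_
      have h6 : ∀ χ ∈ (univ : Finset (DirichletCharacter ℂ Q)).erase 1,
          ‖cc Q F χ * (SS χ y - SS χ x)‖ ≤ Q.totient * (2 * (24 * N / ℓ ^ K + (Q : ℝ) ^ 2)) := by
        intro χ hχ
        rw [mem_erase] at hχ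
        rw [norm_mul]
        apply mul_le_mul (cc_norm Q F hF χ) _ (norm_nonneg _) hφ0.le
        refine (norm_sub_le _ _).trans ?_
        have g1 := hb1 y (hx.trans hxy) hy χ hχ.1
        have g2 := hb1 x hx (hxy.trans hy) χ hχ.1
        linarith
      refine (sum_le_sum h6).trans ?_
      rw [sum_const, nsmul_eq_mul]
      apply mul_le_mul_of_nonneg_right _ (by positivity)
      have h7 := card_erase_le (s := (univ : Finset (DirichletCharacter ℂ Q))) (a := 1)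
      rw [card_univ, card_chars] at h7
      exact_mod_cast h7
  have h8 : ‖∑ k ∈ Ioc x y, (pl k : ℂ) * (if IsUnit (k : ZMod Q) then F k else 0) -
      Gs Q F / Q.totient * ((y : ℂ) - x)‖ ≤
      2 * (2 * c * N / ℓ ^ K + (Q : ℝ) ^ 2) + Q.totient * (2 * (24 * N / ℓ ^ K + (Q : ℝ) ^ 2)) := by
    rw [← mul_add] at h5
    exact le_of_mul_le_mul_left h5 hφ0
  refine h8.trans ?_
  have hℓB : (1 : ℝ) ≤ ℓ ^ B := hQ1.trans hQ
  have hℓ1 : 1 ≤ ℓ := by linarith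
  have h9 : (48 + 4 * c) * N / ℓ ^ K * ℓ ^ B ≤ N / ℓ ^ A / 2 := by
    rw [hK, show A + B + 1 = A + (B + 1) by ring, pow_add, pow_succ, div_div,
      div_mul_eq_mul_div, div_le_div_iff₀ (by positivity) (by positivity)]
    have : (48 + 4 * c) * N * ℓ ^ B * (ℓ ^ A * 2) = (N * ℓ ^ B * ℓ ^ A) * ((48 + 4 * c) * 2) := by ring
    rw [this]
    calc (N * ℓ ^ B * ℓ ^ A) * ((48 + 4 * c) * 2) ≤ (N * ℓ ^ B * ℓ ^ A) * ℓ := by gcongr
      _ = _ := by ring
  have h10 : 4 * (ℓ ^ B) ^ 3 ≤ N / ℓ ^ A / 2 := by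
    rw [div_div, le_div_iff₀ (by positivity)]
    have h11 : (8 : ℝ) ≤ ℓ := by linarith
    calc 4 * (ℓ ^ B) ^ 3 * (ℓ ^ A * 2) = 8 * ℓ ^ (A + 3 * B) := by rw [← pow_mul, pow_add]; ring
      _ ≤ ℓ * ℓ ^ (A + 3 * B) := by gcongr
      _ = ℓ ^ (A + 3 * B + 1) := by rw [pow_succ]; ring
      _ ≤ ℓ ^ (A + 3 * B + c' + 1) := pow_le_pow_right₀ hℓ1 (by omega)
      _ ≤ √(N : ℝ) := hgr
      _ ≤ N := by rw [Real.sqrt_le_left hN0.le]; nlinarith
  have h12 : (Q.totient : ℝ) ≤ ℓ ^ B := hφQ.trans hQ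
  have h13 : (Q : ℝ) ^ 2 ≤ (ℓ ^ B) ^ 2 := pow_le_pow_left₀ (by linarith) hQ 2
  have h14 : 0 ≤ (N : ℝ) / ℓ ^ K := by positivity
  calc 2 * (2 * c * N / ℓ ^ K + (Q : ℝ) ^ 2) + Q.totient * (2 * (24 * N / ℓ ^ K + (Q : ℝ) ^ 2))
      ≤ 2 * (2 * c * N / ℓ ^ K + (ℓ ^ B) ^ 2) + ℓ ^ B * (2 * (24 * N / ℓ ^ K + (ℓ ^ B) ^ 2)) := by
        gcongr
    _ = 4 * c * (N / ℓ ^ K) + 2 * (ℓ ^ B) ^ 2 + (48 * (N / ℓ ^ K) * ℓ ^ B + 2 * (ℓ ^ B) ^ 3) := by
        ring
    _ ≤ 4 * c * (N / ℓ ^ K) * ℓ ^ B + 2 * (ℓ ^ B) ^ 3 + (48 * (N / ℓ ^ K) * ℓ ^ B + 2 * (ℓ ^ B) ^ 3) := by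
        have g1 : 4 * c * (N / ℓ ^ K) ≤ 4 * c * (N / ℓ ^ K) * ℓ ^ B :=
          le_mul_of_one_le_right (by positivity) hℓB
        have g2 : (ℓ ^ B) ^ 2 ≤ (ℓ ^ B) ^ 3 := pow_le_pow_right₀ hℓB (by norm_num)
        linarith
    _ = (48 + 4 * c) * N / ℓ ^ K * ℓ ^ B + 4 * (ℓ ^ B) ^ 3 := by ring
    _ ≤ N / ℓ ^ A / 2 + N / ℓ ^ A / 2 := add_le_add h9 h10
    _ = _ := by ring

end Pool.Agent.X114.PD
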