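import Pool.Agent.X114.PD.Vin

/-! Bilinear (type II) sums with polynomial phases: the inverse theorem. -/

set_option autoImplicit false

namespace Pool.Agent.X114.PD

open Finset Polynomial Filter Topology
open Pool.Agent.H373R2.NB
open Pool.Agent.Helper602.MK (ee)
open Pool.Agent.Helper602.MK.N_J5b (ee_add ee_zero ee_conj norm_ee ee_int)

theorem schur (I J : Finset ℕ) (a b : ℕ → ℂ) (g : ℕ → ℕ → ℂ) (A B T : ℝ) (hT0 : 0 ≤ T)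
    (ha : ∑ m ∈ I, ‖a m‖ ^ 2 ≤ A) (hb : ∑ l ∈ J, ‖b l‖ ^ 2 ≤ B)
    (hg : ∀ l₁ ∈ J, ∑ l₂ ∈ J, ‖∑ m ∈ I, g m l₁ * (starRingEnd ℂ) (g m l₂)‖ ≤ T) :
    ‖∑ m ∈ I, ∑ l ∈ J, a m * b l * g m l‖ ^ 2 ≤ A * (B * T) := by
  set h : ℕ → ℂ := fun m => ∑ l ∈ J, b l * g m l with hh
  set G : ℕ → ℕ → ℝ := fun l₁ l₂ => ‖∑ m ∈ I, g m l₁ * (starRingEnd ℂ) (g m l₂)‖ with hG
  have hGs : ∀ l₁ l₂, G l₁ l₂ = G l₂ l₁ := by
    intro l₁ l₂
    simp only [hG]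
    rw [← RCLike.norm_conj (∑ m ∈ I, g m l₁ * (starRingEnd ℂ) (g m l₂)), map_sum]
    congr 1
    refine sum_congr rfl fun m _ => ?_
    rw [map_mul, Complex.conj_conj, mul_comm]
  have e1 : ∑ m ∈ I, ∑ l ∈ J, a m * b l * g m l = ∑ m ∈ I, a m * h m := by
    refine sum_congr rfl fun m _ => ?_
    rw [hh, mul_sum]
    exact sum_congr rfl fun l _ => by ring
  have h1 : ‖∑ m ∈ I, a m * h m‖ ^ 2 ≤ (∑ m ∈ I, ‖a m‖ ^ 2) * ∑ m ∈ I, ‖h m‖ ^ 2 := by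
    have h2 : ‖∑ m ∈ I, a m * h m‖ ≤ ∑ m ∈ I, ‖a m‖ * ‖h m‖ :=
      (norm_sum_le _ _).trans (le_of_eq (sum_congr rfl fun m _ => norm_mul _ _))
    exact (pow_le_pow_left₀ (norm_nonneg _) h2 2).trans (sum_mul_sq_le_sq_mul_sq _ _ _)
  have h2 : ∑ m ∈ I, ‖h m‖ ^ 2 ≤ B * T := by
    have e2 : ((∑ m ∈ I, ‖h m‖ ^ 2 : ℝ) : ℂ) = ∑ l₁ ∈ J, ∑ l₂ ∈ J, b l₁ * (starRingEnd ℂ) (b l₂) *
        ∑ m ∈ I, g m l₁ * (starRingEnd ℂ) (g m l₂) := by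
      rw [Complex.ofReal_sum]
      have e3 : ∀ m ∈ I, ((‖h m‖ ^ 2 : ℝ) : ℂ) = ∑ l₁ ∈ J, ∑ l₂ ∈ J, b l₁ * (starRingEnd ℂ) (b l₂) *
          (g m l₁ * (starRingEnd ℂ) (g m l₂)) := by
        intro m _
        rw [← Complex.normSq_eq_norm_sq, ← Complex.mul_conj, hh]
        simp only
        rw [map_sum, sum_mul_sum]
        refine sum_congr rfl fun l₁ _ => sum_congr rfl fun l₂ _ => ?_
        rw [map_mul]; ring
      rw [sum_congr rfl e3, sum_comm]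
      refine sum_congr rfl fun l₁ _ => ?_
      rw [sum_comm]
      refine sum_congr rfl fun l₂ _ => ?_
      rw [mul_sum]
    have h3 : ∑ m ∈ I, ‖h m‖ ^ 2 ≤ ∑ l₁ ∈ J, ∑ l₂ ∈ J, (‖b l₁‖ ^ 2 / 2 + ‖b l₂‖ ^ 2 / 2) * G l₁ l₂ := by
      have e4 : (∑ m ∈ I, ‖h m‖ ^ 2 : ℝ) = ‖((∑ m ∈ I, ‖h m‖ ^ 2 : ℝ) : ℂ)‖ := by
        rw [Complex.norm_real, Real.norm_of_nonneg (sum_nonneg fun _ _ => by positivity)]
      rw [e4, e2]
      refine (norm_sum_le _ _).trans (sum_le_sum fun l₁ _ => ?_)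
      refine (norm_sum_le _ _).trans (sum_le_sum fun l₂ _ => ?_)
      rw [norm_mul, norm_mul, RCLike.norm_conj]
      apply mul_le_mul_of_nonneg_right _ (norm_nonneg _)
      nlinarith [sq_nonneg (‖b l₁‖ - ‖b l₂‖)]
    have e5 : ∑ l₁ ∈ J, ∑ l₂ ∈ J, (‖b l₁‖ ^ 2 / 2 + ‖b l₂‖ ^ 2 / 2) * G l₁ l₂ =
        ∑ l₁ ∈ J, ‖b l₁‖ ^ 2 * ∑ l₂ ∈ J, G l₁ l₂ := by
      have e6 : ∑ l₁ ∈ J, ∑ l₂ ∈ J, (‖b l₁‖ ^ 2 / 2 + ‖b l₂‖ ^ 2 / 2) * G l₁ l₂ =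
          ∑ l₁ ∈ J, ∑ l₂ ∈ J, ‖b l₁‖ ^ 2 / 2 * G l₁ l₂ + ∑ l₁ ∈ J, ∑ l₂ ∈ J, ‖b l₂‖ ^ 2 / 2 * G l₁ l₂ := by
        rw [← sum_add_distrib]
        refine sum_congr rfl fun l₁ _ => ?_
        rw [← sum_add_distrib]
        exact sum_congr rfl fun l₂ _ => by ring
      have e7 : ∑ l₁ ∈ J, ∑ l₂ ∈ J, ‖b l₂‖ ^ 2 / 2 * G l₁ l₂ =
          ∑ l₁ ∈ J, ∑ l₂ ∈ J, ‖b l₁‖ ^ 2 / 2 * G l₁ l₂ := by
        rw [sum_comm]
        refine sum_congr rfl fun l₁ _ => sum_congr rfl fun l₂ _ => ?_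
        rw [hGs]
      rw [e6, e7, ← sum_add_distrib]
      refine sum_congr rfl fun l₁ _ => ?_
      rw [← sum_add_distrib, mul_sum]
      exact sum_congr rfl fun l₂ _ => by ring
    rw [e5] at h3
    refine h3.trans ?_
    calc ∑ l₁ ∈ J, ‖b l₁‖ ^ 2 * ∑ l₂ ∈ J, G l₁ l₂ ≤ ∑ l₁ ∈ J, ‖b l₁‖ ^ 2 * T :=
          sum_le_sum fun l₁ hl => mul_le_mul_of_nonneg_left (hg l₁ hl) (by positivity)
      _ = (∑ l₁ ∈ J, ‖b l₁‖ ^ 2) * T := by rw [sum_mul]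
      _ ≤ B * T := mul_le_mul_of_nonneg_right hb hT0
  rw [e1]
  refine h1.trans ?_
  have hA0 : 0 ≤ A := le_trans (sum_nonneg fun _ _ => by positivity) ha
  exact mul_le_mul ha h2 (sum_nonneg fun _ _ => by positivity) hA0

/-- the kernel -/
noncomputable def gk (N N' : ℕ) (φ : ℕ → ℝ) (m l : ℕ) : ℂ :=
  if N < m * l ∧ m * l ≤ N' then ee (φ (m * l)) else 0

theorem gk_sum (N N' M : ℕ) (φ : ℕ → ℝ) (l₁ l₂ : ℕ) (h₁ : 1 ≤ l₁) (h₂ : 1 ≤ l₂) :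
    ∑ m ∈ Ioc M (2 * M), gk N N' φ m l₁ * (starRingEnd ℂ) (gk N N' φ m l₂) =
      ∑ m ∈ Ioc (max M (max (N / l₁) (N / l₂))) (min (2 * M) (min (N' / l₁) (N' / l₂))),
        ee (φ (l₁ * m) - φ (l₂ * m)) := by
  have e : ∀ m, gk N N' φ m l₁ * (starRingEnd ℂ) (gk N N' φ m l₂) =
      if (N / l₁ < m ∧ m ≤ N' / l₁) ∧ (N / l₂ < m ∧ m ≤ N' / l₂) then
        ee (φ (l₁ * m) - φ (l₂ * m)) else 0 := by
    intro m
    have i1 : (N < m * l₁ ∧ m * l₁ ≤ N') ↔ (N / l₁ < m ∧ m ≤ N' / l₁) := by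
      rw [Nat.div_lt_iff_lt_mul (by omega), Nat.le_div_iff_mul_le (by omega)]
    have i2 : (N < m * l₂ ∧ m * l₂ ≤ N') ↔ (N / l₂ < m ∧ m ≤ N' / l₂) := by
      rw [Nat.div_lt_iff_lt_mul (by omega), Nat.le_div_iff_mul_le (by omega)]
    unfold gk
    by_cases h1 : N < m * l₁ ∧ m * l₁ ≤ N'
    · by_cases h2 : N < m * l₂ ∧ m * l₂ ≤ N'
      · rw [if_pos h1, if_pos h2, if_pos ⟨i1.1 h1, i2.1 h2⟩, ee_conj, ← ee_add, mul_comm m l₁,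
          mul_comm m l₂]
        congr 1
      · rw [if_neg h2, map_zero, mul_zero, if_neg (fun h => h2 (i2.2 h.2))]
    · rw [if_neg h1, zero_mul, if_neg (fun h => h1 (i1.2 h.1))]
  rw [sum_congr rfl (fun m _ => e m), ← sum_filter]
  refine sum_congr ?_ (fun _ _ => rfl)
  ext m
  simp only [mem_filter, mem_Ioc, max_lt_iff, le_min_iff]
  tauto

theorem typeII (d : ℕ) (hd : 1 ≤ d) : ∃ c m : ℕ, 1 ≤ c ∧ ∀ (α : ℝ) (φ : ℕ → ℝ), Ph d α φ →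
    ∀ (M L N N' : ℕ) (u : ℝ), 1 ≤ u → c * u ^ m ≤ M → c * u ^ m ≤ L → ∀ l₁ ∈ Ioc L (2 * L),
    (M : ℝ) * L / u < ∑ l₂ ∈ Ioc L (2 * L),
      ‖∑ m ∈ Ioc M (2 * M), gk N N' φ m l₁ * (starRingEnd ℂ) (gk N N' φ m l₂)‖ →
    ∃ q : ℕ, 1 ≤ q ∧ (q : ℝ) ≤ c * u ^ m ∧ ∃ a : ℤ, |q * α - a| ≤ c * u ^ m / ((M : ℝ) * L) ^ d := by
  classical
  obtain ⟨c₁, m₁, hc₁, hIW⟩ := IW_Ioc hd
  obtain ⟨c₂, m₂, hc₂, hV⟩ := vin d hd
  set e : ℕ := (m₁ + 1) * m₂ + m₁ + d with he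
  refine ⟨c₂ * c₁ ^ (m₂ + 1) * 2 ^ e, e, Nat.one_le_iff_ne_zero.2 (by positivity), ?_⟩
  intro α φ hφ M L N N' u hu hM hL l₁ hl₁ hbig
  have hu0 : 0 < u := by linarith
  have hc₁r : (1 : ℝ) ≤ c₁ := by exact_mod_cast hc₁
  have hc₂r : (1 : ℝ) ≤ c₂ := by exact_mod_cast hc₂
  set Q : ℝ := c₁ * (2 * u) ^ m₁ with hQ
  have h2u : 1 ≤ 2 * u := by linarith
  have hQ1 : 1 ≤ Q := one_le_mul_of_one_le_of_one_le hc₁r (one_le_pow₀ h2u)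
  set K : ℝ := 2 * u * Q with hK
  have hK1 : 1 ≤ K := one_le_mul_of_one_le_of_one_le h2u hQ1
  have hKm : 1 ≤ c₂ * K ^ m₂ := one_le_mul_of_one_le_of_one_le hc₂r (one_le_pow₀ hK1)
  have hbig2 : c₂ * K ^ m₂ * Q * (2 * u) ^ d = ((c₂ * c₁ ^ (m₂ + 1) * 2 ^ e : ℕ) : ℝ) * u ^ e := by
    rw [hK, hQ, he]; push_cast; ring
  rw [← hbig2] at hM hL ⊢
  have hQd : 1 ≤ Q * (2 * u) ^ d := one_le_mul_of_one_le_of_one_le hQ1 (one_le_pow₀ h2u)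
  have hKL : c₂ * K ^ m₂ ≤ c₂ * K ^ m₂ * Q * (2 * u) ^ d := by
    calc c₂ * K ^ m₂ = c₂ * K ^ m₂ * 1 := by ring
      _ ≤ c₂ * K ^ m₂ * (Q * (2 * u) ^ d) := by gcongr
      _ = _ := by ring
  have hM1 : (1 : ℝ) ≤ M := (hKm.trans hKL).trans hM
  have hL1 : (1 : ℝ) ≤ L := (hKm.trans hKL).trans hL
  have hMn : 1 ≤ M := by exact_mod_cast hM1
  have hLn : 1 ≤ L := by exact_mod_cast hL1
  have hM0 : (0 : ℝ) < M := by linarith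
  have hL0 : (0 : ℝ) < L := by linarith
  have hl₁' := mem_Ioc.1 hl₁
  set A : ℕ → ℕ := fun l => max M (max (N / l₁) (N / l)) with hA
  set B : ℕ → ℕ := fun l => min (2 * M) (min (N' / l₁) (N' / l)) with hB
  set T : ℕ → ℝ := fun l => ‖∑ m ∈ Ioc (A l) (B l), ee (φ (l₁ * m) - φ (l * m))‖ with hT
  have hsum : ∑ l₂ ∈ Ioc L (2 * L),
      ‖∑ m ∈ Ioc M (2 * M), gk N N' φ m l₁ * (starRingEnd ℂ) (gk N N' φ m l₂)‖ =
      ∑ l ∈ Ioc L (2 * L), T l := by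
    refine sum_congr rfl fun l hl => ?_
    rw [mem_Ioc] at hl
    rw [gk_sum N N' M φ l₁ l (by omega) (by omega)]
  rw [hsum] at hbig
  have hTle : ∀ l, T l ≤ ((B l - A l : ℕ) : ℝ) := by
    intro l
    refine (norm_sum_le _ _).trans ?_
    simp only [norm_ee, sum_const, Nat.card_Ioc, nsmul_eq_mul, mul_one]
    exact le_rfl
  have hBA : ∀ l, B l - A l ≤ M := by
    intro l
    have h1 : B l ≤ 2 * M := min_le_left _ _
    have h2 : M ≤ A l := le_max_left _ _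
    omega
  have hTM : ∀ l, T l ≤ M := fun l => (hTle l).trans (by exact_mod_cast hBA l)
  set S := (Ioc L (2 * L)).filter (fun l => (M : ℝ) / (2 * u) ≤ T l) with hS
  have hSc : (L : ℝ) ≤ 2 * u * #S := by
    have h1 : ∑ l ∈ Ioc L (2 * L), T l ≤ #S * M + L * (M / (2 * u)) := by
      rw [← sum_filter_add_sum_filter_not (Ioc L (2 * L)) (fun l => (M : ℝ) / (2 * u) ≤ T l)]
      apply add_le_add
      · refine (sum_le_card_nsmul _ _ (M : ℝ) fun l _ => hTM l).trans ?_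
        rw [nsmul_eq_mul]
      · refine (sum_le_card_nsmul _ _ ((M : ℝ) / (2 * u)) fun l hl => ?_).trans ?_
        · exact (not_le.1 (mem_filter.1 hl).2).le
        · rw [nsmul_eq_mul]
          apply mul_le_mul_of_nonneg_right _ (by positivity)
          have := card_filter_le (Ioc L (2 * L)) (fun l => ¬ (M : ℝ) / (2 * u) ≤ T l)
          rw [Nat.card_Ioc, show 2 * L - L = L by omega] at this
          exact_mod_cast this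
    have h2 := hbig.trans_le h1
    have e1 : (M : ℝ) * L / u = 2 * (L * (M / (2 * u))) := by field_simp
    rw [e1] at h2
    have h3 : (L : ℝ) * (M / (2 * u)) < #S * M := by linarith
    have e2 : (L : ℝ) * (M / (2 * u)) = L / (2 * u) * M := by field_simp
    rw [e2] at h3
    have h4 := lt_of_mul_lt_mul_right h3 hM0.le
    rw [div_lt_iff₀ (by positivity)] at h4
    linarith
  -- choice of the denominators
  have hq : ∀ l ∈ S, ∃ q : ℕ, 1 ≤ q ∧ (q : ℝ) ≤ Q ∧ ∃ a : ℤ,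
      |q * ((l₁ : ℝ) ^ d * α - (l : ℝ) ^ d * α) - a| ≤ Q * (2 * u) ^ d / (M : ℝ) ^ d := by
    intro l hl
    rw [hS, mem_filter] at hl
    have hT2 : (M : ℝ) / (2 * u) ≤ ((B l - A l : ℕ) : ℝ) := hl.2.trans (hTle l)
    have hpos : (0 : ℝ) < ((B l - A l : ℕ) : ℝ) := lt_of_lt_of_le (by positivity) hT2
    have hAB : A l < B l := by
      have : 0 < B l - A l := by exact_mod_cast hpos
      omega
    have hph : Ph d ((l₁ : ℝ) ^ d * α - (l : ℝ) ^ d * α) (fun m => φ (l₁ * m) - φ (l * m)) :=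
      Ph_sub d _ _ _ _ (Ph_scale l₁ d α φ hφ) (Ph_scale l d α φ hφ)
    obtain ⟨q, hq1, hq2, a, ha⟩ := hIW (A l) (B l) (2 * u) _ _ hAB h2u hph (by
      have h1 : ((B l - A l : ℕ) : ℝ) ≤ M := by exact_mod_cast hBA l
      have h2 : (M : ℝ) ≤ 2 * u * T l := by
        have := hl.2
        rw [div_le_iff₀ (by positivity)] at this
        linarith
      exact h1.trans h2)
    refine ⟨q, hq1, hq2, a, ha.trans ?_⟩
    have h3 : ((M : ℝ) / (2 * u)) ^ d ≤ ((B l - A l : ℕ) : ℝ) ^ d :=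
      pow_le_pow_left₀ (by positivity) hT2 d
    calc c₁ * (2 * u) ^ m₁ / ((B l - A l : ℕ) : ℝ) ^ d ≤ Q / ((M : ℝ) / (2 * u)) ^ d := by
          rw [← hQ]; gcongr
      _ = _ := by rw [div_pow]; field_simp
  choose! f hf1 hf2 hf3 using hq
  have hQf : 1 ≤ ⌊Q⌋₊ := (Nat.one_le_floor_iff Q).2 hQ1
  obtain ⟨q, hqI, hqc⟩ := Finset.exists_le_card_fiber_of_nsmul_le_card_of_maps_to
    (s := S) (t := Icc 1 ⌊Q⌋₊) (f := f) (b := (#S : ℝ) / ⌊Q⌋₊)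
    (by
      intro l hl
      rw [mem_Icc]
      exact ⟨hf1 l hl, (Nat.le_floor_iff (by linarith)).2 (hf2 l hl)⟩)
    ⟨1, by rw [mem_Icc]; omega⟩ (by
      rw [Nat.card_Icc, nsmul_eq_mul, Nat.add_sub_cancel]
      have : (0 : ℝ) < ⌊Q⌋₊ := by exact_mod_cast hQf
      exact le_of_eq (by field_simp))
  rw [mem_Icc] at hqI
  set S' := S.filter (fun l => f l = q) with hS'
  have hQfl : (⌊Q⌋₊ : ℝ) ≤ Q := Nat.floor_le (by linarith)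
  have hcard : (L : ℝ) ≤ K * #S' := by
    have h1 : (#S : ℝ) ≤ #S' * Q := by
      have : (0 : ℝ) < ⌊Q⌋₊ := by exact_mod_cast hQf
      rw [div_le_iff₀ this] at hqc
      exact hqc.trans (mul_le_mul_of_nonneg_left hQfl (Nat.cast_nonneg _))
    calc (L : ℝ) ≤ 2 * u * #S := hSc
      _ ≤ 2 * u * (#S' * Q) := by gcongr
      _ = _ := by rw [hK]; ring
  have hMd : (M : ℝ) ≤ (M : ℝ) ^ d := le_self_pow₀ hM1 (by omega)
  obtain ⟨q', hq'1, hq'2, a, ha⟩ := hV L K (-(q * α)) (-(q * ((l₁ : ℝ) ^ d * α)))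
    (Q * (2 * u) ^ d / (M : ℝ) ^ d) S' hK1
    ((filter_subset _ _).trans (filter_subset _ _)) hcard (hKL.trans hL) (by
      rw [div_mul_eq_mul_div, div_le_one (by positivity)]
      calc Q * (2 * u) ^ d * (c₂ * K ^ m₂) = c₂ * K ^ m₂ * Q * (2 * u) ^ d := by ring
        _ ≤ M := hM
        _ ≤ _ := hMd) (by
      intro l hl
      rw [hS', mem_filter] at hl
      obtain ⟨a, ha⟩ := hf3 l hl.1
      rw [hl.2] at ha
      refine ⟨a, le_trans (le_of_eq ?_) ha⟩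
      congr 1; ring)
  refine ⟨q' * q, Nat.one_le_iff_ne_zero.2 (by have := hqI.1; positivity), ?_, -a, ?_⟩
  · have h1 : (q : ℝ) ≤ Q := by
      refine le_trans ?_ hQfl
      exact_mod_cast hqI.2
    have h2 : (1 : ℝ) ≤ (2 * u) ^ d := one_le_pow₀ h2u
    push_cast
    calc (q' : ℝ) * q ≤ c₂ * K ^ m₂ * Q := by gcongr
      _ = c₂ * K ^ m₂ * Q * 1 := by ring
      _ ≤ _ := by gcongr
  · have e1 : ((q' * q : ℕ) : ℝ) * α - ((-a : ℤ) : ℝ) = -(q' * (-(q * α)) - a) := by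
      push_cast; ring
    rw [e1, abs_neg]
    refine ha.trans (le_of_eq ?_)
    rw [mul_pow (M : ℝ) L d]
    field_simp

end Pool.Agent.X114.PD
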