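import Pool.Agent.X114.PD.Ph

/-! Vinogradov's lemma for the powers: if `β l ^ d` is close to a constant modulo one for many `l`,
then `β` is close to a rational with small denominator. -/

set_option autoImplicit false

namespace Pool.Agent.X114.PD

open Finset Polynomial Filter Topology
open Pool.Agent.H373R2.NB
open Pool.Agent.Helper602.MK (ee)
open Pool.Agent.Helper602.MK.N_J5b (ee_add ee_zero ee_conj norm_ee ee_int)

theorem sq_norm_geom (H : ℕ) (x : ℝ) :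
    ((‖∑ j ∈ range H, ee (j * x)‖ ^ 2 : ℝ) : ℂ) =
      ∑ j ∈ range H, ∑ i ∈ range H, ee (((j : ℝ) - i) * x) := by
  rw [← Complex.normSq_eq_norm_sq, ← Complex.mul_conj, map_sum, sum_mul_sum]
  refine sum_congr rfl fun j _ => sum_congr rfl fun i _ => ?_
  rw [ee_conj, ← ee_add]
  congr 1; ring

theorem norm_sum_neg {ι : Type*} (s : Finset ι) (f : ι → ℝ) :
    ‖∑ l ∈ s, ee (-(f l))‖ = ‖∑ l ∈ s, ee (f l)‖ := by
  have : ∑ l ∈ s, ee (-(f l)) = (starRingEnd ℂ) (∑ l ∈ s, ee (f l)) := by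
    rw [map_sum]
    exact sum_congr rfl fun l _ => (ee_conj _).symm
  rw [this, RCLike.norm_conj]

theorem exists_k (L H : ℕ) (K : ℝ) (x : ℕ → ℝ) (S : Finset ℕ) (hS : S ⊆ Ioc L (2 * L))
    (hK : 1 ≤ K) (hH : 8 * K < H) (hL : 1 ≤ L) (hcard : (L : ℝ) ≤ K * #S) (ε : ℝ)
    (hε : 4 * Real.pi * H * ε ≤ 1) (hx : ∀ l ∈ S, ∃ a : ℤ, |x l - a| ≤ ε) :
    ∃ k : ℕ, 1 ≤ k ∧ k < H ∧ (L : ℝ) ≤ 8 * K * ‖∑ l ∈ Ioc L (2 * L), ee (k * x l)‖ := by
  by_contra hcon
  push Not at hcon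
  have hL0 : (0 : ℝ) < L := by exact_mod_cast hL
  have hH0 : (0 : ℝ) < H := by linarith
  have hK0 : (0 : ℝ) < K := by linarith
  -- lower bound
  have hlow : ∀ l ∈ S, ((H : ℝ) / 2) ^ 2 ≤ ‖∑ j ∈ range H, ee (j * x l)‖ ^ 2 := by
    intro l hl
    obtain ⟨a, ha⟩ := hx l hl
    have hε0 : 0 ≤ ε := (abs_nonneg _).trans ha
    have h1 : ‖∑ j ∈ range H, ee (j * x l) - (H : ℂ)‖ ≤ H / 2 := by
      have e1 : ∑ j ∈ range H, ee (j * x l) - (H : ℂ) = ∑ j ∈ range H, (ee (j * (x l - a)) - 1) := by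
        rw [sum_sub_distrib]
        congr 1
        · refine sum_congr rfl fun j _ => ?_
          have : (j : ℝ) * x l = j * (x l - a) + ((j * a : ℤ) : ℝ) := by push_cast; ring
          rw [this, ee_add_int]
        · simp
      rw [e1]
      refine (norm_sum_le _ _).trans ?_
      have h2 : ∀ j ∈ range H, ‖ee (j * (x l - a)) - 1‖ ≤ 1 / 2 := by
        intro j hj
        refine (ee_sub_one_le _).trans ?_
        rw [abs_mul, Nat.abs_cast]
        have hj' : (j : ℝ) ≤ H := by exact_mod_cast (mem_range.1 hj).le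
        have : (j : ℝ) * |x l - a| ≤ H * ε := mul_le_mul hj' ha (abs_nonneg _) hH0.le
        have hp := Real.pi_pos
        nlinarith
      refine (sum_le_sum h2).trans (le_of_eq ?_)
      rw [sum_const, card_range, nsmul_eq_mul]; ring
    have h3 : (H : ℝ) ≤ ‖∑ j ∈ range H, ee (j * x l)‖ + H / 2 := by
      have : ‖(H : ℂ)‖ = H := by simp
      calc (H : ℝ) = ‖(H : ℂ)‖ := this.symm
        _ = ‖∑ j ∈ range H, ee (j * x l) - (∑ j ∈ range H, ee (j * x l) - (H : ℂ))‖ := by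
            congr 1; ring
        _ ≤ _ := (norm_sub_le _ _).trans (by linarith)
    apply pow_le_pow_left₀ (by positivity)
    linarith
  have hlow2 : (#S : ℝ) * ((H : ℝ) / 2) ^ 2 ≤
      ∑ l ∈ Ioc L (2 * L), ‖∑ j ∈ range H, ee (j * x l)‖ ^ 2 := by
    calc (#S : ℝ) * ((H : ℝ) / 2) ^ 2 = ∑ l ∈ S, ((H : ℝ) / 2) ^ 2 := by
          rw [sum_const, nsmul_eq_mul]
      _ ≤ ∑ l ∈ S, ‖∑ j ∈ range H, ee (j * x l)‖ ^ 2 := sum_le_sum hlow
      _ ≤ _ := sum_le_sum_of_subset_of_nonneg hS fun _ _ _ => by positivity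
  -- upper bound
  have hup : ∑ l ∈ Ioc L (2 * L), ‖∑ j ∈ range H, ee (j * x l)‖ ^ 2 ≤
      H * L + H * (H * (L / (8 * K))) := by
    have e1 : ((∑ l ∈ Ioc L (2 * L), ‖∑ j ∈ range H, ee (j * x l)‖ ^ 2 : ℝ) : ℂ) =
        ∑ j ∈ range H, ∑ i ∈ range H, ∑ l ∈ Ioc L (2 * L), ee (((j : ℝ) - i) * x l) := by
      rw [Complex.ofReal_sum]
      simp only [sq_norm_geom]
      rw [sum_comm]
      refine sum_congr rfl fun j _ => ?_
      rw [sum_comm]
    have h1 : ∑ l ∈ Ioc L (2 * L), ‖∑ j ∈ range H, ee (j * x l)‖ ^ 2 ≤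
        ∑ j ∈ range H, ∑ i ∈ range H, ‖∑ l ∈ Ioc L (2 * L), ee (((j : ℝ) - i) * x l)‖ := by
      have e2 : (∑ l ∈ Ioc L (2 * L), ‖∑ j ∈ range H, ee (j * x l)‖ ^ 2 : ℝ) =
          ‖((∑ l ∈ Ioc L (2 * L), ‖∑ j ∈ range H, ee (j * x l)‖ ^ 2 : ℝ) : ℂ)‖ := by
        rw [Complex.norm_real, Real.norm_of_nonneg (sum_nonneg fun _ _ => by positivity)]
      rw [e2, e1]
      refine (norm_sum_le _ _).trans (sum_le_sum fun j _ => norm_sum_le _ _)
    refine h1.trans ?_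
    have h2 : ∀ j ∈ range H, ∑ i ∈ range H, ‖∑ l ∈ Ioc L (2 * L), ee (((j : ℝ) - i) * x l)‖ ≤
        L + H * (L / (8 * K)) := by
      intro j hj
      have h3 : ∀ i ∈ range H, ‖∑ l ∈ Ioc L (2 * L), ee (((j : ℝ) - i) * x l)‖ ≤
          (if i = j then (L : ℝ) else 0) + L / (8 * K) := by
        intro i hi
        rw [mem_range] at hi hj
        have hpos : 0 ≤ (L : ℝ) / (8 * K) := by positivity
        rcases lt_trichotomy i j with h | h | h
        · rw [if_neg (by omega), zero_add, le_div_iff₀ (by positivity)]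
          have h4 := hcon (j - i) (by omega) (by omega)
          have e : (((j - i : ℕ) : ℝ)) = (j : ℝ) - i := by rw [Nat.cast_sub h.le]
          rw [e] at h4
          linarith
        · subst h
          rw [if_pos rfl]
          simp only [sub_self, zero_mul, ee_zero, sum_const, Nat.card_Ioc, nsmul_eq_mul, mul_one]
          rw [show 2 * L - L = L by omega, Complex.norm_natCast]
          linarith
        · rw [if_neg (by omega), zero_add, le_div_iff₀ (by positivity)]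
          have h4 := hcon (i - j) (by omega) (by omega)
          have e : (((i - j : ℕ) : ℝ)) = (i : ℝ) - j := by rw [Nat.cast_sub h.le]
          rw [e] at h4
          have e2 : ‖∑ l ∈ Ioc L (2 * L), ee (((j : ℝ) - i) * x l)‖ =
              ‖∑ l ∈ Ioc L (2 * L), ee (((i : ℝ) - j) * x l)‖ := by
            rw [← norm_sum_neg]
            congr 1
            refine sum_congr rfl fun l _ => ?_
            congr 1; ring
          rw [e2]
          linarith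
      refine (sum_le_sum h3).trans (le_of_eq ?_)
      rw [sum_add_distrib, sum_ite_eq' (range H) j, if_pos hj, sum_const, card_range, nsmul_eq_mul]
    refine (sum_le_sum h2).trans (le_of_eq ?_)
    rw [sum_const, card_range, nsmul_eq_mul]; ring
  have h5 := hlow2.trans hup
  have h6 : (L : ℝ) / K ≤ #S := by rw [div_le_iff₀ hK0]; linarith
  have h7 : (L : ℝ) / K * ((H : ℝ) / 2) ^ 2 ≤ H * L + H * (H * (L / (8 * K))) :=
    (mul_le_mul_of_nonneg_right h6 (by positivity)).trans h5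
  have e3 : (L : ℝ) / K * ((H : ℝ) / 2) ^ 2 - H * (H * (L / (8 * K))) = H * L * (H / (8 * K)) := by
    field_simp; ring
  have h8 : H * L * (H / (8 * K)) ≤ H * (L : ℝ) := by linarith
  have h9 : (H : ℝ) / (8 * K) ≤ 1 := by
    by_contra h
    push Not at h
    have : 0 < (H : ℝ) * L := by positivity
    nlinarith
  rw [div_le_one (by positivity)] at h9
  linarith

theorem pow_sub_le {x y : ℝ} (hx : 0 ≤ x) (hxy : x ≤ y) (d : ℕ) :
    y ^ d - x ^ d ≤ d * y ^ (d - 1) * (y - x) := by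
  induction d with
  | zero => simp
  | succ d ih =>
    have hy : 0 ≤ y := hx.trans hxy
    rcases Nat.eq_zero_or_pos d with h0 | h0
    · subst h0; simp
    have e : y ^ (d + 1) - x ^ (d + 1) = y * (y ^ d - x ^ d) + x ^ d * (y - x) := by ring
    have h1 : x ^ d ≤ y ^ d := pow_le_pow_left₀ hx hxy d
    have h2 : 0 ≤ y - x := by linarith
    have e2 : y * y ^ (d - 1) = y ^ d := by
      rw [← pow_succ', Nat.sub_add_cancel h0]
    rw [e, Nat.add_sub_cancel]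
    push_cast
    calc y * (y ^ d - x ^ d) + x ^ d * (y - x)
        ≤ y * (d * y ^ (d - 1) * (y - x)) + y ^ d * (y - x) := by gcongr
      _ = d * (y * y ^ (d - 1)) * (y - x) + y ^ d * (y - x) := by ring
      _ = _ := by rw [e2]; ring

theorem le_pow_sub {x y : ℝ} (hx : 0 ≤ x) (hxy : x ≤ y) (d : ℕ) (hd : 1 ≤ d) :
    x ^ (d - 1) * (y - x) ≤ y ^ d - x ^ d := by
  obtain ⟨e, rfl⟩ : ∃ e, d = e + 1 := ⟨d - 1, by omega⟩
  rw [Nat.add_sub_cancel]
  have h1 : x ^ e ≤ y ^ e := pow_le_pow_left₀ hx hxy e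
  have hy : 0 ≤ y := hx.trans hxy
  have : y ^ (e + 1) - x ^ (e + 1) = y * (y ^ e - x ^ e) + x ^ e * (y - x) := by ring
  rw [this]
  have : 0 ≤ y * (y ^ e - x ^ e) := mul_nonneg hy (by linarith)
  linarith

theorem boost (d : ℕ) (hd : 1 ≤ d) (L : ℕ) (hL : 1 ≤ L) (K β γ ε : ℝ) (hK : 1 ≤ K) (S : Finset ℕ)
    (hS : S ⊆ Ioc L (2 * L)) (hcard : (L : ℝ) ≤ K * #S) (k : ℕ) (a₁ : ℤ) (δ : ℝ)
    (hδ : k * β - a₁ = δ) (R : ℕ) (hR : 1 ≤ R)
    (hδR : |δ| * (d * (2 * L) ^ (d - 1) * (L / R)) ≤ 1 / 4) (hkε : 2 * k * ε ≤ 1 / 4)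
    (hLR : 2 * K * R ≤ L) (hx : ∀ l ∈ S, ∃ a : ℤ, |β * (l : ℝ) ^ d - γ - a| ≤ ε) :
    |δ| ≤ 4 * k * ε * K * R / (L : ℝ) ^ d := by
  have hL0 : (0 : ℝ) < L := by exact_mod_cast hL
  have hR0 : (0 : ℝ) < R := by exact_mod_cast hR
  have hK0 : (0 : ℝ) < K := by linarith
  obtain ⟨y, -, hy⟩ := Finset.exists_le_card_fiber_of_nsmul_le_card_of_maps_to
    (s := S) (t := range R) (f := fun l => ((l - L - 1) * R) / L) (b := (#S : ℝ) / R)
    (by
      intro l hl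
      have := hS hl
      rw [mem_Ioc] at this
      rw [mem_range, Nat.div_lt_iff_lt_mul (by omega), mul_comm R L]
      exact Nat.mul_lt_mul_of_pos_right (by omega) (by omega))
    ⟨0, by rw [mem_range]; omega⟩ (by
      rw [card_range, nsmul_eq_mul]
      exact le_of_eq (by field_simp))
  set Fb := S.filter (fun l => ((l - L - 1) * R) / L = y) with hFb
  have h1 : (L : ℝ) / (K * R) ≤ #Fb := by
    refine le_trans ?_ hy
    rw [div_le_div_iff₀ (by positivity) hR0]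
    nlinarith
  have h2 : (2 : ℝ) ≤ L / (K * R) := by
    rw [le_div_iff₀ (by positivity)]; linarith
  have hne : Fb.Nonempty := by
    rw [← card_pos]
    have : (0 : ℝ) < #Fb := by linarith
    exact_mod_cast this
  set l := Fb.min' hne with hl
  set l' := Fb.max' hne with hl'
  have hlm : l ∈ Fb := Fb.min'_mem hne
  have hlm' : l' ∈ Fb := Fb.max'_mem hne
  have hll : l ≤ l' := Fb.min'_le _ hlm'
  have hc : #Fb ≤ l' - l + 1 := by
    have hsub : Fb ⊆ Icc l l' := fun z hz => mem_Icc.2 ⟨Fb.min'_le _ hz, Fb.le_max' _ hz⟩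
    have := card_le_card hsub
    rw [Nat.card_Icc] at this
    omega
  have hlr : (l : ℝ) ≤ l' := by exact_mod_cast hll
  have h3 : (L : ℝ) / (2 * K * R) ≤ (l' : ℝ) - l := by
    have h4 : (#Fb : ℝ) ≤ (l' : ℝ) - l + 1 := by
      have : (#Fb : ℝ) ≤ ((l' - l + 1 : ℕ) : ℝ) := by exact_mod_cast hc
      rw [Nat.cast_add, Nat.cast_sub hll] at this
      simpa using this
    have e : (L : ℝ) / (2 * K * R) = L / (K * R) / 2 := by field_simp
    rw [e]; linarith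
  rw [hFb, mem_filter] at hlm hlm'
  have hlS := mem_Ioc.1 (hS hlm.1)
  have hlS' := mem_Ioc.1 (hS hlm'.1)
  have h5 : ((l' : ℝ) - l) ≤ L / R := by
    rw [le_div_iff₀ hR0]
    have g1 : y * L ≤ (l - L - 1) * R := by
      rw [← hlm.2]; exact Nat.div_mul_le_self _ _
    have g2 : (l' - L - 1) * R < (y + 1) * L := by
      have := Nat.lt_succ_self (((l' - L - 1) * R) / L)
      rw [hlm'.2] at this
      exact (Nat.div_lt_iff_lt_mul (by omega)).1 (by rw [hlm'.2]; omega)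
    have g3 : (l' - l) * R < L := by
      have e1 : (l' - L - 1) = (l - L - 1) + (l' - l) := by omega
      rw [e1, add_mul] at g2
      nlinarith
    have : (((l' - l) * R : ℕ) : ℝ) < L := by exact_mod_cast g3
    rw [Nat.cast_mul, Nat.cast_sub hll] at this
    exact this.le
  have hl0 : (0 : ℝ) ≤ l := Nat.cast_nonneg l
  have h6 : (l' : ℝ) ^ d - (l : ℝ) ^ d ≤ d * (2 * L) ^ (d - 1) * (L / R) := by
    refine (pow_sub_le hl0 hlr d).trans ?_
    have : (l' : ℝ) ≤ 2 * L := by exact_mod_cast hlS'.2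
    gcongr
  have h7 : (L : ℝ) ^ (d - 1) * (L / (2 * K * R)) ≤ (l' : ℝ) ^ d - (l : ℝ) ^ d := by
    refine le_trans ?_ (le_pow_sub hl0 hlr d hd)
    have : (L : ℝ) ≤ l := by exact_mod_cast hlS.1.le
    gcongr
  have h8 : 0 ≤ (l' : ℝ) ^ d - (l : ℝ) ^ d := le_trans (by positivity) h7
  obtain ⟨a, ha⟩ := hx l hlm.1
  obtain ⟨a', ha'⟩ := hx l' hlm'.1
  set z : ℤ := k * (a' - a) - a₁ * ((l' : ℤ) ^ d - (l : ℤ) ^ d) with hz
  have e1 : δ * ((l' : ℝ) ^ d - (l : ℝ) ^ d) = z + k * ((β * (l' : ℝ) ^ d - γ - a') -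
      (β * (l : ℝ) ^ d - γ - a)) := by
    rw [hz, ← hδ]; push_cast; ring
  have h9 : |(k : ℝ) * ((β * (l' : ℝ) ^ d - γ - a') - (β * (l : ℝ) ^ d - γ - a))| ≤ 2 * k * ε := by
    rw [abs_mul, Nat.abs_cast]
    have : |(β * (l' : ℝ) ^ d - γ - a') - (β * (l : ℝ) ^ d - γ - a)| ≤ 2 * ε :=
      (abs_sub _ _).trans (by linarith)
    calc (k : ℝ) * _ ≤ k * (2 * ε) := mul_le_mul_of_nonneg_left this (Nat.cast_nonneg k)
      _ = _ := by ring
  have h10 : |δ * ((l' : ℝ) ^ d - (l : ℝ) ^ d)| ≤ 1 / 4 := by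
    rw [abs_mul, abs_of_nonneg h8]
    exact (mul_le_mul_of_nonneg_left h6 (abs_nonneg _)).trans hδR
  have hz0 : z = 0 := by
    have : |(z : ℝ)| < 1 := by
      have e2 : (z : ℝ) = δ * ((l' : ℝ) ^ d - (l : ℝ) ^ d) - k * ((β * (l' : ℝ) ^ d - γ - a') -
        (β * (l : ℝ) ^ d - γ - a)) := by rw [e1]; ring
      rw [e2]
      refine (abs_sub _ _).trans_lt ?_
      linarith
    have h' : |z| < 1 := by exact_mod_cast this
    exact Int.abs_lt_one_iff.1 h'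
  rw [hz0, Int.cast_zero, zero_add] at e1
  have h11 : |δ| * ((l' : ℝ) ^ d - (l : ℝ) ^ d) ≤ 2 * k * ε := by
    rw [← abs_of_nonneg h8, ← abs_mul, e1]; exact h9
  have h12 : |δ| * ((L : ℝ) ^ (d - 1) * (L / (2 * K * R))) ≤ 2 * k * ε :=
    (mul_le_mul_of_nonneg_left h7 (abs_nonneg _)).trans h11
  have e3 : (L : ℝ) ^ (d - 1) * (L / (2 * K * R)) = (L : ℝ) ^ d / (2 * K * R) := by
    obtain ⟨e, rfl⟩ : ∃ e, d = e + 1 := ⟨d - 1, by omega⟩
    rw [Nat.add_sub_cancel, pow_succ]; ring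
  rw [e3] at h12
  rw [le_div_iff₀ (by positivity)]
  rw [← mul_div_assoc, div_le_iff₀ (by positivity)] at h12
  calc |δ| * (L : ℝ) ^ d ≤ 2 * k * ε * (2 * K * R) := h12
    _ = _ := by ring

theorem vin (d : ℕ) (hd : 1 ≤ d) : ∃ c m : ℕ, 1 ≤ c ∧ ∀ (L : ℕ) (K β γ ε : ℝ) (S : Finset ℕ),
    1 ≤ K → S ⊆ Ioc L (2 * L) → (L : ℝ) ≤ K * #S → c * K ^ m ≤ L → ε * (c * K ^ m) ≤ 1 →
    (∀ l ∈ S, ∃ a : ℤ, |β * (l : ℝ) ^ d - γ - a| ≤ ε) →
    ∃ q : ℕ, 1 ≤ q ∧ (q : ℝ) ≤ c * K ^ m ∧ ∃ a : ℤ, |q * β - a| ≤ c * K ^ m * ε / (L : ℝ) ^ d := by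
  obtain ⟨c₁, m₁, hc₁, hIW⟩ := IW_Ioc hd
  set W : ℕ := c₁ * 8 ^ m₁ with hW
  have hW1 : 1 ≤ W := by rw [hW]; exact Nat.one_le_iff_ne_zero.2 (by positivity)
  have hf1 : 1 ≤ d.factorial := Nat.factorial_pos d
  refine ⟨200 * W ^ 2 * d.factorial * d * 2 ^ d, 2 * m₁ + 2, ?_, ?_⟩
  · exact Nat.one_le_iff_ne_zero.2 (by positivity)
  intro L K β γ ε S hK hS hcard hcL hεc hx
  have hK0 : (0 : ℝ) < K := by linarith
  have hWr : (1 : ℝ) ≤ W := by exact_mod_cast hW1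
  have hfr : (1 : ℝ) ≤ d.factorial := by exact_mod_cast hf1
  have hdr : (1 : ℝ) ≤ d := by exact_mod_cast hd
  have h2d : (1 : ℝ) ≤ 2 ^ d := one_le_pow₀ (by norm_num)
  set c : ℝ := ((200 * W ^ 2 * d.factorial * d * 2 ^ d : ℕ) : ℝ) with hc
  have hc' : c = 200 * W ^ 2 * d.factorial * d * 2 ^ d := by rw [hc]; push_cast; ring
  have hKp : ∀ i : ℕ, 1 ≤ K ^ i := fun i => one_le_pow₀ hK
  have hKK : ∀ i j : ℕ, i ≤ j → K ^ i ≤ K ^ j := fun i j h => pow_le_pow_right₀ hK h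
  have hcpos : 1 ≤ c * K ^ (2 * m₁ + 2) := by
    rw [hc]
    have : (1 : ℝ) ≤ ((200 * W ^ 2 * d.factorial * d * 2 ^ d : ℕ) : ℝ) := by
      exact_mod_cast Nat.one_le_iff_ne_zero.2 (by positivity)
    exact one_le_mul_of_one_le_of_one_le this (hKp _)
  have hL1 : 1 ≤ L := by
    have : (1 : ℝ) ≤ L := hcpos.trans hcL
    exact_mod_cast this
  have hL0 : (0 : ℝ) < L := by exact_mod_cast hL1
  have hSne : S.Nonempty := by
    rw [← card_pos]
    by_contra h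
    have h0 : #S = 0 := by omega
    rw [h0, Nat.cast_zero, mul_zero] at hcard
    linarith
  have hε0 : 0 ≤ ε := by
    obtain ⟨l, hl⟩ := hSne
    obtain ⟨a, ha⟩ := hx l hl
    exact (abs_nonneg _).trans ha
  set H : ℕ := ⌊8 * K⌋₊ + 1 with hH
  have hH1 : 8 * K < H := by rw [hH]; push_cast; exact Nat.lt_floor_add_one _
  have hH2 : (H : ℝ) ≤ 9 * K := by
    have := Nat.floor_le (show 0 ≤ 8 * K by positivity)
    rw [hH]; push_cast; linarith
  have hpi : Real.pi ≤ 3.15 := Real.pi_lt_d2.le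
  -- product bounds
  have hbase : ∀ (x : ℝ) (i : ℕ), 0 ≤ x → x ≤ 200 * W ^ 2 * d.factorial * d * 2 ^ d →
      i ≤ 2 * m₁ + 2 → x * K ^ i ≤ c * K ^ (2 * m₁ + 2) := by
    intro x i hx0 hx hi
    rw [hc']
    exact mul_le_mul hx (hKK _ _ hi) (by positivity) (by positivity)
  have hWsq : (W : ℝ) ≤ W ^ 2 := by nlinarith
  have hb1 : 200 * (K ^ 1) ≤ c * K ^ (2 * m₁ + 2) := by
    apply hbase _ _ (by norm_num) _ (by omega)
    have h1 : (1 : ℝ) ≤ W ^ 2 * d.factorial * d * 2 ^ d := by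
      have := one_le_mul_of_one_le_of_one_le (one_le_mul_of_one_le_of_one_le
        (one_le_mul_of_one_le_of_one_le (hWr.trans hWsq) hfr) hdr) h2d
      exact this
    nlinarith
  obtain ⟨k, hk1, hkH, hk⟩ := exists_k L H K (fun l => β * (l : ℝ) ^ d - γ) S hS hK hH1 hL1 hcard ε
    (by
      have h1 : 4 * Real.pi * H * ε ≤ 4 * 3.15 * (9 * K) * ε := by gcongr
      have h2 : 4 * 3.15 * (9 * K) * ε ≤ ε * (c * K ^ (2 * m₁ + 2)) := by
        have h3 : ε * (200 * K ^ 1) ≤ ε * (c * K ^ (2 * m₁ + 2)) :=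
          mul_le_mul_of_nonneg_left hb1 hε0
        rw [pow_one] at h3
        nlinarith [mul_nonneg hε0 hK0.le]
      linarith) hx
  have hkK : (k : ℝ) ≤ 8 * K := by
    have : k ≤ ⌊8 * K⌋₊ := by omega
    exact (Nat.le_floor_iff (by positivity)).1 this
  -- apply the inverse theorem
  have hPh : Ph d (k * (β * d.factorial)) (fun l : ℕ => k * (β * (l : ℝ) ^ d - γ)) := by
    have h1 := Ph_smul d (k * β) _ _ (Ph_pow d)
    have h2 : Ph d 0 (fun _ : ℕ => k * γ) := by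
      obtain ⟨e, rfl⟩ : ∃ e, d = e + 1 := ⟨d - 1, by omega⟩
      clear h1
      have h0 : Ph 0 (k * γ) (fun _ : ℕ => k * γ) := fun n => rfl
      have : ∀ e : ℕ, ∃ α, Ph e α (fun _ : ℕ => (k : ℝ) * γ) := by
        intro e
        induction e with
        | zero => exact ⟨_, h0⟩
        | succ e ih => obtain ⟨α, hα⟩ := ih; exact ⟨0, Ph_lift e α _ hα⟩
      obtain ⟨α, hα⟩ := this e
      exact Ph_lift e α _ hα
    have h3 := Ph_sub d _ _ _ _ h1 h2
    have e1 : (fun n : ℕ => k * β * (n : ℝ) ^ d - k * γ) = fun l : ℕ => k * (β * (l : ℝ) ^ d - γ) := by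
      funext n; ring
    rw [e1, sub_zero, mul_assoc] at h3
    exact h3
  obtain ⟨q₁, hq1, hq1c, a₁, ha₁⟩ := hIW L (2 * L) (8 * K) (k * (β * d.factorial))
    (fun l : ℕ => k * (β * (l : ℝ) ^ d - γ)) (by omega) (by linarith) hPh (by
      rw [show 2 * L - L = L by omega]; exact hk)
  rw [show 2 * L - L = L by omega] at ha₁
  have e8 : (c₁ : ℝ) * (8 * K) ^ m₁ = W * K ^ m₁ := by rw [hW, mul_pow]; push_cast; ring
  rw [e8] at hq1c ha₁
  set Q : ℝ := W * K ^ m₁ with hQ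
  have hQ1 : 1 ≤ Q := by rw [hQ]; exact one_le_mul_of_one_le_of_one_le hWr (hKp _)
  set k' : ℕ := q₁ * k * d.factorial with hk'
  set δ : ℝ := k' * β - a₁ with hδ
  have hk'1 : 1 ≤ k' := by rw [hk']; exact Nat.one_le_iff_ne_zero.2 (by positivity)
  have hk'c : (k' : ℝ) ≤ 8 * W * d.factorial * K ^ (m₁ + 1) := by
    rw [hk']; push_cast
    calc (q₁ : ℝ) * k * d.factorial ≤ (W * K ^ m₁) * (8 * K) * d.factorial := by
          rw [← hQ]; gcongr
      _ = _ := by rw [pow_succ]; ring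
  have hδ1 : |δ| ≤ Q / (L : ℝ) ^ d := by
    have : δ = q₁ * (k * (β * d.factorial)) - a₁ := by rw [hδ, hk']; push_cast; ring
    rw [this]; exact ha₁
  set R : ℕ := ⌈4 * Q * d * 2 ^ (d - 1)⌉₊ with hR
  have hR1 : 4 * Q * d * 2 ^ (d - 1) ≤ R := Nat.le_ceil _
  have h2d' : (1 : ℝ) ≤ 2 ^ (d - 1) := one_le_pow₀ (by norm_num)
  have hQd : (1 : ℝ) ≤ Q * d * 2 ^ (d - 1) :=
    one_le_mul_of_one_le_of_one_le (one_le_mul_of_one_le_of_one_le hQ1 hdr) h2d'
  have hR2 : (R : ℝ) ≤ 5 * (Q * d * 2 ^ (d - 1)) := by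
    have := Nat.ceil_lt_add_one (show 0 ≤ 4 * Q * d * 2 ^ (d - 1) by positivity)
    rw [← hR] at this
    nlinarith
  have hR3 : 1 ≤ R := by
    have : (1 : ℝ) ≤ R := by nlinarith
    exact_mod_cast this
  have e2d : (2 : ℝ) ^ d = 2 * 2 ^ (d - 1) := by
    rw [← pow_succ', Nat.sub_add_cancel hd]
  have hR0 : (0 : ℝ) < R := by exact_mod_cast hR3
  have hfin := boost d hd L hL1 K β γ ε hK S hS hcard k' a₁ δ rfl R hR3 (by
      have e4 : |δ| * (d * (2 * L) ^ (d - 1) * (L / R)) ≤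
          Q / (L : ℝ) ^ d * (d * (2 * L) ^ (d - 1) * (L / R)) := by gcongr
      refine e4.trans ?_
      have e5 : Q / (L : ℝ) ^ d * (d * (2 * L) ^ (d - 1) * (L / R)) = Q * d * 2 ^ (d - 1) / R := by
        obtain ⟨e, rfl⟩ : ∃ e, d = e + 1 := ⟨d - 1, by omega⟩
        rw [Nat.add_sub_cancel, mul_pow, pow_succ]
        field_simp
      rw [e5, div_le_iff₀ hR0]
      linarith) (by
      have h1 : ε * (64 * W * d.factorial * K ^ (m₁ + 1)) ≤ 1 := by
        refine le_trans (mul_le_mul_of_nonneg_left (hbase _ _ (by positivity) ?_ (by omega)) hε0) hεc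
        have h2 : (1 : ℝ) ≤ d * 2 ^ d := one_le_mul_of_one_le_of_one_le hdr h2d
        calc 64 * (W : ℝ) * d.factorial ≤ 64 * W ^ 2 * d.factorial := by gcongr
          _ = 64 * W ^ 2 * d.factorial * 1 := by ring
          _ ≤ 64 * W ^ 2 * d.factorial * (d * 2 ^ d) := by gcongr
          _ ≤ 200 * W ^ 2 * d.factorial * d * 2 ^ d := by
            have : 0 ≤ (W : ℝ) ^ 2 * d.factorial * (d * 2 ^ d) := by positivity
            nlinarith
      have h3 : 2 * (k' : ℝ) * ε ≤ 2 * (8 * W * d.factorial * K ^ (m₁ + 1)) * ε := by gcongr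
      nlinarith) (by
      refine le_trans ?_ hcL
      have h1 : 2 * K * R ≤ 2 * K * (5 * (Q * d * 2 ^ (d - 1))) := by gcongr
      have h2 : 2 * K * (5 * (Q * d * 2 ^ (d - 1))) = (5 * W * d * 2 ^ d) * K ^ (m₁ + 1) := by
        rw [hQ, e2d, pow_succ]; ring
      rw [h2] at h1
      refine h1.trans (hbase _ _ (by positivity) ?_ (by omega))
      calc 5 * (W : ℝ) * d * 2 ^ d ≤ 200 * W ^ 2 * d * 2 ^ d := by
            have : 0 ≤ (d : ℝ) * 2 ^ d := by positivity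
            have h5 : 5 * (W : ℝ) ≤ 200 * W ^ 2 := by nlinarith
            calc 5 * (W : ℝ) * d * 2 ^ d = 5 * W * (d * 2 ^ d) := by ring
              _ ≤ 200 * W ^ 2 * (d * 2 ^ d) := by gcongr
              _ = _ := by ring
        _ = 200 * W ^ 2 * 1 * d * 2 ^ d := by ring
        _ ≤ 200 * W ^ 2 * d.factorial * d * 2 ^ d := by gcongr) hx
  refine ⟨k', hk'1, ?_, a₁, ?_⟩
  · refine hk'c.trans (hbase _ _ (by positivity) ?_ (by omega))
    have h2 : (1 : ℝ) ≤ d * 2 ^ d := one_le_mul_of_one_le_of_one_le hdr h2d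
    calc 8 * (W : ℝ) * d.factorial ≤ 200 * W ^ 2 * d.factorial := by
          have h5 : 8 * (W : ℝ) ≤ 200 * W ^ 2 := by nlinarith
          gcongr
      _ = 200 * W ^ 2 * d.factorial * 1 := by ring
      _ ≤ 200 * W ^ 2 * d.factorial * (d * 2 ^ d) := by gcongr
      _ = _ := by ring
  · refine hfin.trans ?_
    apply div_le_div_of_nonneg_right _ (by positivity)
    calc 4 * (k' : ℝ) * ε * K * R ≤
        4 * (8 * W * d.factorial * K ^ (m₁ + 1)) * ε * K * (5 * (Q * d * 2 ^ (d - 1))) := by gcongr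
      _ = (80 * W ^ 2 * d.factorial * d * 2 ^ d) * K ^ (2 * m₁ + 2) * ε := by
          rw [hQ, e2d]; ring
      _ ≤ (200 * W ^ 2 * d.factorial * d * 2 ^ d) * K ^ (2 * m₁ + 2) * ε := by gcongr; norm_num
      _ = _ := by rw [hc']

end Pool.Agent.X114.PD
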